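import Mathlib

/-!
# Random thinning raises the mean (weighted Chebyshev inequality)
-/

set_option autoImplicit false

namespace Pool.Agent.P2ec0u

open Finset

/-- the probability of the closed set `K` -/
noncomputable def pK {ι : Type*} [DecidableEq ι] (J : Finset ι) (q : ℝ) (K : Finset ι) : ℝ :=
  ∏ i ∈ J, if i ∈ K then 1 - q else q

theorem pK_nonneg {ι : Type*} [DecidableEq ι] (J : Finset ι) {q : ℝ} (hq0 : 0 ≤ q) (hq1 : q ≤ 1)
    (K : Finset ι) : 0 ≤ pK J q K := by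
  refine prod_nonneg fun i _ => ?_
  split_ifs <;> linarith

theorem swap_mem {ι : Type*} [DecidableEq ι] {J : Finset ι} {i j : ι} (hi : i ∈ J) (hj : j ∈ J)
    (l : ι) : l ∈ J ↔ Equiv.swap i j l ∈ J := by
  by_cases h1 : l = i
  · subst h1
    simp [hi, hj]
  · by_cases h2 : l = j
    · subst h2
      simp [hi, hj]
    · rw [Equiv.swap_apply_of_ne_of_ne h1 h2]

theorem mem_swap_image {ι : Type*} [DecidableEq ι] (K : Finset ι) (i j l : ι) :
    l ∈ K.image (Equiv.swap i j) ↔ Equiv.swap i j l ∈ K := by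
  rw [mem_image]
  constructor
  · rintro ⟨a, ha, rfl⟩
    rwa [Equiv.swap_apply_self]
  · intro h
    exact ⟨_, h, Equiv.swap_apply_self i j l⟩

theorem pK_swap {ι : Type*} [DecidableEq ι] {J : Finset ι} (q : ℝ) {i j : ι} (hi : i ∈ J)
    (hj : j ∈ J) (K : Finset ι) : pK J q (K.image (Equiv.swap i j)) = pK J q K := by
  unfold pK
  refine prod_equiv (Equiv.swap i j) (fun l => swap_mem hi hj l) fun l _ => ?_
  simp only [mem_swap_image]

theorem sum_swap {ι : Type*} [DecidableEq ι] {J : Finset ι} (w : ι → ℝ) {i j : ι} (hi : i ∈ J)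
    (hj : j ∈ J) (K : Finset ι) :
    ∑ l ∈ J \ K.image (Equiv.swap i j), w l = ∑ l ∈ J \ K, w (Equiv.swap i j l) := by
  symm
  refine sum_equiv (Equiv.swap i j) (fun l => ?_) fun l _ => rfl
  rw [mem_sdiff, mem_sdiff, mem_swap_image, Equiv.swap_apply_self, ← swap_mem hi hj]

theorem sum_le_swap {ι : Type*} [DecidableEq ι] {J : Finset ι} (w : ι → ℝ) {i j : ι} (hi : i ∈ J)
    (hj : j ∈ J) (hw : w j ≤ w i) {K : Finset ι} (hjK : j ∉ K) :
    ∑ l ∈ J \ K, w l ≤ ∑ l ∈ J \ K.image (Equiv.swap i j), w l := by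
  rw [sum_swap w hi hj]
  by_cases hiK : i ∈ K
  · refine sum_le_sum fun l hl => ?_
    rw [mem_sdiff] at hl
    have h1 : l ≠ i := fun h => hl.2 (h ▸ hiK)
    by_cases h2 : l = j
    · subst h2
      rw [Equiv.swap_apply_right]
      exact hw
    · rw [Equiv.swap_apply_of_ne_of_ne h1 h2]
  · refine le_of_eq ?_
    refine sum_equiv (Equiv.swap i j) (fun l => ?_) fun l _ => ?_
    · have hi' : i ∈ J \ K := mem_sdiff.mpr ⟨hi, hiK⟩
      have hj' : j ∈ J \ K := mem_sdiff.mpr ⟨hj, hjK⟩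
      exact swap_mem hi' hj' l
    · rw [Equiv.swap_apply_self]

/-- the coefficient of the weight of `i` -/
noncomputable def cK {ι : Type*} [DecidableEq ι] (J : Finset ι) (w : ι → ℝ) (q : ℝ) (i : ι) : ℝ :=
  ∑ K ∈ J.powerset, if i ∈ K then 0 else pK J q K / ∑ l ∈ J \ K, w l

theorem cK_mono {ι : Type*} [DecidableEq ι] {J : Finset ι} {w : ι → ℝ} (hw : ∀ i ∈ J, 0 < w i)
    {q : ℝ} (hq0 : 0 ≤ q) (hq1 : q ≤ 1) {i j : ι} (hi : i ∈ J) (hj : j ∈ J) (hwij : w j ≤ w i) :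
    cK J w q i ≤ cK J w q j := by
  unfold cK
  have h1 : ∑ K ∈ J.powerset, (if i ∈ K then 0 else pK J q K / ∑ l ∈ J \ K, w l) =
      ∑ K ∈ J.powerset, (if j ∈ K then 0 else
        pK J q (K.image (Equiv.swap i j)) / ∑ l ∈ J \ K.image (Equiv.swap i j), w l) := by
    symm
    refine sum_bij' (fun K _ => K.image (Equiv.swap i j)) (fun K _ => K.image (Equiv.swap i j))
      ?_ ?_ ?_ ?_ ?_
    · intro K hK
      rw [mem_powerset] at hK ⊢
      intro l hl
      rw [mem_swap_image] at hl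
      exact (swap_mem hi hj l).mpr (hK hl)
    · intro K hK
      rw [mem_powerset] at hK ⊢
      intro l hl
      rw [mem_swap_image] at hl
      exact (swap_mem hi hj l).mpr (hK hl)
    · intro K _
      ext l
      rw [mem_swap_image, mem_swap_image, Equiv.swap_apply_self]
    · intro K _
      ext l
      rw [mem_swap_image, mem_swap_image, Equiv.swap_apply_self]
    · intro K _
      have h2 : (i ∈ K.image (Equiv.swap i j)) ↔ j ∈ K := by
        rw [mem_swap_image, Equiv.swap_apply_left]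
      simp only [h2]
  rw [h1]
  refine sum_le_sum fun K hK => ?_
  by_cases hjK : j ∈ K
  · rw [if_pos hjK, if_pos hjK]
  · rw [if_neg hjK, if_neg hjK, pK_swap q hi hj]
    refine div_le_div_of_nonneg_left (pK_nonneg J hq0 hq1 K) ?_
      (sum_le_swap w hi hj hwij hjK)
    exact sum_pos (fun l hl => hw l (mem_sdiff.mp hl).1) ⟨j, mem_sdiff.mpr ⟨hj, hjK⟩⟩

theorem lhs_eq {ι : Type*} [DecidableEq ι] (J : Finset ι) (w δ : ι → ℝ) (hw : ∀ i ∈ J, 0 < w i)
    (q m : ℝ) :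
    ∑ K ∈ J.powerset.erase J, pK J q K *
        (m - (∑ i ∈ J \ K, w i * δ i) / ∑ i ∈ J \ K, w i) =
      ∑ i ∈ J, cK J w q i * (w i * (m - δ i)) := by
  have h1 : ∑ K ∈ J.powerset.erase J, pK J q K *
        (m - (∑ i ∈ J \ K, w i * δ i) / ∑ i ∈ J \ K, w i) =
      ∑ K ∈ J.powerset.erase J, ∑ i ∈ J,
        (if i ∈ K then 0 else pK J q K / ∑ l ∈ J \ K, w l) * (w i * (m - δ i)) := by
    refine sum_congr rfl fun K hK => ?_
    rw [mem_erase, mem_powerset] at hK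
    have hne : (J \ K).Nonempty := by
      rw [nonempty_iff_ne_empty]
      intro h
      exact hK.1 (Subset.antisymm hK.2 (sdiff_eq_empty_iff_subset.mp h))
    have hS : 0 < ∑ i ∈ J \ K, w i := sum_pos (fun l hl => hw l (mem_sdiff.mp hl).1) hne
    have h2 : ∑ i ∈ J, (if i ∈ K then 0 else pK J q K / ∑ l ∈ J \ K, w l) * (w i * (m - δ i)) =
        ∑ i ∈ J \ K, pK J q K / (∑ l ∈ J \ K, w l) * (w i * (m - δ i)) := by
      symm
      have h5 : ∑ i ∈ J \ K, pK J q K / (∑ l ∈ J \ K, w l) * (w i * (m - δ i)) =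
          ∑ i ∈ J \ K,
            (if i ∈ K then 0 else pK J q K / ∑ l ∈ J \ K, w l) * (w i * (m - δ i)) :=
        sum_congr rfl fun i hi => by rw [if_neg (mem_sdiff.mp hi).2]
      rw [h5]
      refine sum_subset sdiff_subset fun i hi hni => ?_
      have h6 : i ∈ K := by
        by_contra h
        exact hni (mem_sdiff.mpr ⟨hi, h⟩)
      rw [if_pos h6, zero_mul]
    rw [h2, ← mul_sum]
    have h3 : ∑ i ∈ J \ K, w i * (m - δ i) =
        m * (∑ i ∈ J \ K, w i) - ∑ i ∈ J \ K, w i * δ i := by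
      rw [mul_sum, ← sum_sub_distrib]
      refine sum_congr rfl fun i _ => ?_
      ring
    rw [h3]
    field_simp
  have h4 : ∑ K ∈ J.powerset.erase J, ∑ i ∈ J,
        (if i ∈ K then 0 else pK J q K / ∑ l ∈ J \ K, w l) * (w i * (m - δ i)) =
      ∑ K ∈ J.powerset, ∑ i ∈ J,
        (if i ∈ K then 0 else pK J q K / ∑ l ∈ J \ K, w l) * (w i * (m - δ i)) := by
    refine sum_erase _ ?_
    refine sum_eq_zero fun i hi => ?_
    rw [if_pos hi, zero_mul]
  rw [h1, h4, sum_comm]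
  refine sum_congr rfl fun i _ => ?_
  rw [cK, sum_mul]

theorem cheb {ι : Type*} (J : Finset ι) (w δ c : ι → ℝ) (hw : ∀ i ∈ J, 0 < w i)
    (hmono : ∀ i ∈ J, ∀ j ∈ J, δ i ≤ δ j → c i ≤ c j) :
    ∑ i ∈ J, c i * (w i * ((∑ j ∈ J, w j * δ j) / (∑ j ∈ J, w j) - δ i)) ≤ 0 := by
  rcases J.eq_empty_or_nonempty with rfl | hne
  · simp
  have hW : 0 < ∑ j ∈ J, w j := sum_pos hw hne
  set W := ∑ j ∈ J, w j with hWdef
  set N := ∑ j ∈ J, w j * δ j with hNdef
  have h1 : W * ∑ i ∈ J, c i * (w i * (N / W - δ i)) =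
      ∑ i ∈ J, ∑ j ∈ J, w i * w j * (c i * (δ j - δ i)) := by
    rw [mul_sum]
    refine sum_congr rfl fun i _ => ?_
    have h2 : ∑ j ∈ J, w i * w j * (c i * (δ j - δ i)) =
        c i * w i * (N - W * δ i) := by
      rw [hNdef, hWdef, sum_mul, ← sum_sub_distrib, mul_sum]
      refine sum_congr rfl fun j _ => ?_
      ring
    rw [h2]
    field_simp
  have h3 : ∑ i ∈ J, ∑ j ∈ J, w i * w j * (c i * (δ j - δ i)) =
      ∑ i ∈ J, ∑ j ∈ J, w i * w j * (c j * (δ i - δ j)) := by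
    rw [sum_comm]
    refine sum_congr rfl fun i _ => sum_congr rfl fun j _ => ?_
    ring
  have h4 : ∑ i ∈ J, ∑ j ∈ J, w i * w j * (c i * (δ j - δ i)) +
      ∑ i ∈ J, ∑ j ∈ J, w i * w j * (c j * (δ i - δ j)) =
      ∑ i ∈ J, ∑ j ∈ J, w i * w j * ((c i - c j) * (δ j - δ i)) := by
    rw [← sum_add_distrib]
    refine sum_congr rfl fun i _ => ?_
    rw [← sum_add_distrib]
    refine sum_congr rfl fun j _ => ?_
    ring
  have h5 : ∑ i ∈ J, ∑ j ∈ J, w i * w j * ((c i - c j) * (δ j - δ i)) ≤ 0 := by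
    refine sum_nonpos fun i hi => sum_nonpos fun j hj => ?_
    have h6 : (c i - c j) * (δ j - δ i) ≤ 0 := by
      rcases le_total (δ i) (δ j) with h | h
      · exact mul_nonpos_of_nonpos_of_nonneg (by linarith [hmono i hi j hj h]) (by linarith)
      · exact mul_nonpos_of_nonneg_of_nonpos (by linarith [hmono j hj i hi h]) (by linarith)
    exact mul_nonpos_of_nonneg_of_nonpos (mul_pos (hw i hi) (hw j hj)).le h6
  have h7 : W * ∑ i ∈ J, c i * (w i * (N / W - δ i)) ≤ 0 := by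
    rw [h1]
    linarith
  by_contra hcon
  push Not at hcon
  have := mul_pos hW hcon
  linarith

theorem thin_le {ι : Type*} [DecidableEq ι] (J : Finset ι) (w δ : ι → ℝ)
    (hw : ∀ i ∈ J, 0 < w i) (hmono : ∀ i ∈ J, ∀ j ∈ J, δ i ≤ δ j → w j ≤ w i) (q : ℝ)
    (hq0 : 0 ≤ q) (hq1 : q ≤ 1) :
    ∑ K ∈ J.powerset.erase J, (∏ i ∈ J, if i ∈ K then 1 - q else q) *
      ((∑ i ∈ J, w i * δ i) / (∑ i ∈ J, w i) -
        (∑ i ∈ J \ K, w i * δ i) / ∑ i ∈ J \ K, w i) ≤ 0 := by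
  have h1 := lhs_eq J w δ hw q ((∑ i ∈ J, w i * δ i) / (∑ i ∈ J, w i))
  unfold pK at h1
  rw [h1]
  exact cheb J w δ (cK J w q) hw fun i hi j hj h =>
    cK_mono hw hq0 hq1 hi hj (hmono i hi j hj h)

end Pool.Agent.P2ec0u
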