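import Pool.Agent.Lib.P2ec0u.Quen2U
import Pool.Agent.Lib.P2ec0u.ChebU

/-!
# The annealed inequalities, nearly maximal directions
-/

open MeasureTheory ProbabilityTheory Filter Topology Function
open scoped unitInterval ENNReal

namespace Pool.Agent.P2ec0u

open Pool.Agent.P2ec0f3 Pool.Agent.P2ec0g Pool.Agent.P2ec0h

variable {d : ℕ} {ℓ : Fin d → ℝ} {lam : ℝ} {J : Finset (Fin d × Bool)} {L γ δ : ℝ}

/-- Random thinning of `J` does not raise the mean gain. -/
lemma cheb_phK (hG : GapU ℓ J L γ δ) (hlam : 0 < lam) (p : I) :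
    ∑ K ∈ J.powerset.erase J, (∏ i ∈ J, if i ∈ K then 1 - (p : ℝ) else (p : ℝ)) *
      phK ℓ lam J L K ≤ 0 := by
  classical
  have h := thin_le J (fun i => wJ ℓ lam L i) (fun i => L - gain ℓ i) (fun i _ => wJ_pos i)
    (fun i _ j _ hij => by
      unfold wJ
      refine Real.exp_le_exp.2 ?_
      have := mul_le_mul_of_nonneg_left hij hlam.le
      linarith) (p : ℝ) p.2.1 p.2.2
  refine le_trans (le_of_eq ?_) h
  refine Finset.sum_congr rfl fun K _ => ?_
  rfl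

lemma psJ_ge (hG : GapU ℓ J L γ δ) (hlam : 0 < lam) {s : ℝ} (hs : lam * γ ≤ s)
    (z : Vtx d) (ω : Set (Edge d)) : -γ ≤ psJ ℓ lam J L z ω := by
  unfold psJ
  split_ifs with hB
  · linarith [hG.nn]
  · exact (abs_le.1 (phJ_le hG hlam hs hB).2).1

/-- The annealed inequality of the first regime. -/
lemma reg1U {s : ℝ} (hG : GapU ℓ J L γ δ) (hlam : 0 < lam) (hs : lam * γ ≤ s)
    (hη : Real.exp s * WJ ℓ lam J L ≤ 1 / 100)
    (hl0 : 0 ≤ L - fs ℓ lam) (hq : 9 / 4 * (L - fs ℓ lam) ≤ δ)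
    {p : I} (hp : criticalParam d < p) {v : Fin d → ℝ} (hv : IsVelocity ℓ lam p v) :
    ∑ j, v j * ℓ j ≤ fs ℓ lam
      - (δ - 9 / 4 * (L - fs ℓ lam)) / 3 * (1 - (p : ℝ)) ^ J.card *
          (1 - 2 * (Real.exp s * WJ ℓ lam J L))
      + 15 / 4 * (L - fs ℓ lam) * (2 * d * (1 - (p : ℝ))) := by
  classical
  obtain ⟨ℓ', hG'⟩ := aux_gap hG
  have hr : 0 ≤ 1 - (p : ℝ) := by linarith [p.2.2]
  have hr1 : 1 - (p : ℝ) ≤ 1 := by linarith [p.2.1]
  set η := Real.exp s * WJ ℓ lam J L with hηdef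
  have hη0 : 0 ≤ η := mul_nonneg (Real.exp_pos s).le WJ_nonneg
  have hQ : ∀ (ω : Set (Edge d)) (x : Vtx d), ¬ Blk J ω x →
      ∑ D ∈ Jᶜ, sp ℓ lam ω x D ≤ η := fun ω x h => sum_compl_leU hG hlam hs le_rfl h
  set c : ℝ := (δ - 9 / 4 * (L - fs ℓ lam)) / 3 with hc
  have hc0 : 0 ≤ c := by rw [hc]; linarith
  set α : ℝ := c * (1 - (p : ℝ)) ^ J.card with hα
  have hα0 : 0 ≤ α := mul_nonneg hc0 (pow_nonneg hr _)
  have hαc : α ≤ c := mul_le_of_le_one_right hc0 (pow_le_one₀ hr hr1)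
  refine limU hp hv (C := 15 / 4 * (L - fs ℓ lam) + α) (cA := c) (by positivity) hc0
    (fun n ω => c * rK ℓ lam J ω J n - α * rnJ ℓ lam J ω n)
    (fun n ω => 15 / 4 * (L - fs ℓ lam) * ∑ D, frK ℓ lam ω {D} n)
    (fun n => ((integrable_rK ℓ lam J p J n).const_mul _).sub
      ((integrable_rnJ ℓ lam J p n).const_mul _))
    (fun n => (integrable_finsetSum _ fun D _ => integrable_frK ℓ lam p {D} n).const_mul _)
    (fun n ω => mul_nonneg (mul_nonneg (by norm_num) hl0)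
      (Finset.sum_nonneg fun D _ => frK_nonneg ℓ lam ω {D} n)) ?_ ?_ ?_ ?_
  · intro n ω
    have h1 := mul_le_mul_of_nonneg_left
      ((rK_le_rnJ ℓ lam J ω J n).trans (rnJ_le_nw ℓ lam J ω n)) hc0
    have h2 := mul_nonneg hα0 (rnJ_nonneg ℓ lam J ω n)
    linarith
  · intro n
    rw [integral_sub ((integrable_rK ℓ lam J p J n).const_mul _)
      ((integrable_rnJ ℓ lam J p n).const_mul _), integral_const_mul, integral_const_mul,
      integral_rKU ℓ lam hG' p (Finset.Subset.refl J) n]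
    refine le_of_eq ?_
    rw [hα]
    ring
  · intro n
    rw [integral_const_mul, integral_finsetSum _ fun D _ => integrable_frK ℓ lam p {D} n]
    have h1 : ∑ D : Fin d × Bool, ∫ ω, frK ℓ lam ω {D} n ∂(percolation d p) ≤
        ∑ _D : Fin d × Bool, (1 - (p : ℝ)) * ∫ ω, nw ℓ lam ω n ∂(percolation d p) := by
      refine Finset.sum_le_sum fun D _ => ?_
      have := integral_frK_le ℓ lam p (Finset.singleton_nonempty D) n
      rw [Finset.card_singleton, pow_one] at this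
      exact this
    rw [Finset.sum_const, nsmul_eq_mul, Finset.card_univ, Fintype.card_prod, Fintype.card_fin,
      Fintype.card_bool] at h1
    have h2 := mul_le_mul_of_nonneg_left h1
      (mul_nonneg (by norm_num : (0 : ℝ) ≤ 15 / 4) hl0)
    push_cast at h2
    linarith
  · intro N ω
    exact quen1 ω hG' hG (hQ ω) hη0 hη hl0 hc hα0 hαc N

/-- The annealed inequality of the second regime. -/
lemma reg2U {s η₁ M : ℝ} (hG : GapU ℓ J L γ δ) (hlam : 0 < lam) (hs : lam * γ ≤ s)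
    (hm : 2 ≤ J.card)
    (hη₁ : (2 * d + 1) * Real.exp s * (γ / δ) ≤ η₁) (hη1 : η₁ ≤ 1) (hW : WJ ℓ lam J L ≤ 1)
    (hη : Real.exp s * WJ ℓ lam J L ≤ 1 / 100)
    (ha : 0 ≤ aU ℓ lam J L η₁ s)
    (hM : γ * J.card + bU ℓ lam J L * RJ ℓ lam J L +
      3 * RJ ℓ lam J L * (J.card * (Jᶜ).card) ≤ M)
    (hcoef : 3 * (γ * J.card + aU ℓ lam J L η₁ s * SJ ℓ lam J L) + 6 * M +
      (L - fs ℓ lam) ≤ δ)
    {p : I} (hp : criticalParam d < p) {v : Fin d → ℝ} (hv : IsVelocity ℓ lam p v) :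
    ∑ j, v j * ℓ j ≤ fs ℓ lam
      - (1 - (p : ℝ)) * (aU ℓ lam J L η₁ s * SJ ℓ lam J L + γ * J.card) *
          (1 - 2 * (Real.exp s * WJ ℓ lam J L))
      + (γ * (J.card * (1 - (p : ℝ))) + bU ℓ lam J L * (RJ ℓ lam J L * (1 - (p : ℝ)))
        + 3 * RJ ℓ lam J L * (J.card * (Jᶜ).card * (1 - (p : ℝ)) ^ 2)
        + 57 / 2 * (Real.exp s * WJ ℓ lam J L) * M * (2 * d * (1 - (p : ℝ)))) := by
  classical
  obtain ⟨ℓ', hG'⟩ := aux_gap hG
  have hr : 0 ≤ 1 - (p : ℝ) := by linarith [p.2.2]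
  have hr1 : 1 - (p : ℝ) ≤ 1 := by linarith [p.2.1]
  set η := Real.exp s * WJ ℓ lam J L with hηdef
  have hη0 : 0 ≤ η := mul_nonneg (Real.exp_pos s).le WJ_nonneg
  have hQ : ∀ (ω : Set (Edge d)) (x : Vtx d), ¬ Blk J ω x →
      ∑ D ∈ Jᶜ, sp ℓ lam ω x D ≤ η := fun ω x h => sum_compl_leU hG hlam hs le_rfl h
  have hρ : ∀ D, 0 ≤ rhoJ ℓ lam L D := rhoU_nonneg hG
  have hR : 0 ≤ RJ ℓ lam J L := (RU_pos hG).le
  have hS1 : 1 ≤ SJ ℓ lam J L := one_le_SJ hG
  have hW0 := WJ_nonneg (ℓ := ℓ) (lam := lam) (J := J) (L := L)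
  have hγ := hG.nn
  have hb : 0 ≤ bU ℓ lam J L := by
    unfold bU
    refine div_nonneg zero_le_one ?_
    linarith
  have hM0 : 0 ≤ M := by
    refine le_trans ?_ hM
    positivity
  set a := aU ℓ lam J L η₁ s with hadef
  have hT0 : 0 ≤ a * SJ ℓ lam J L + γ * J.card := by
    have : 0 ≤ SJ ℓ lam J L := by linarith
    positivity
  set α : ℝ := (1 - (p : ℝ)) * (a * SJ ℓ lam J L + γ * J.card) with hα
  have hα0 : 0 ≤ α := mul_nonneg hr hT0
  have hα1 : α ≤ a * SJ ℓ lam J L + γ * J.card := mul_le_of_le_one_left hT0 hr1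
  have hcoef' : γ * J.card + a * SJ ℓ lam J L + 6 * M + (L - fs ℓ lam) + 2 * α ≤ δ := by
    linarith
  have i1 : ∀ n, Integrable (fun ω => bU ℓ lam J L *
      ∑ D ∈ Jᶜ, rhoJ ℓ lam L D * frK ℓ lam ω {D} n) (percolation d p) := fun n =>
    (integrable_finsetSum _ fun D _ => (integrable_frK ℓ lam p {D} n).const_mul _).const_mul _
  have i2 : ∀ n, Integrable (fun ω => 3 * RJ ℓ lam J L *
      ∑ D ∈ J, ∑ D' ∈ Jᶜ, frK ℓ lam ω {D, D'} n) (percolation d p) := fun n =>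
    (integrable_finsetSum _ fun D _ => integrable_finsetSum _ fun D' _ =>
      integrable_frK ℓ lam p {D, D'} n).const_mul _
  have i3 : ∀ n, Integrable (fun ω => 57 / 2 * η * M * ∑ D, frK ℓ lam ω {D} n)
      (percolation d p) := fun n =>
    (integrable_finsetSum _ fun D _ => integrable_frK ℓ lam p {D} n).const_mul _
  have i4 : ∀ n, Integrable (fun ω => γ * ∑ D ∈ J, frK ℓ lam ω {D} n)
      (percolation d p) := fun n =>
    (integrable_finsetSum _ fun D _ => integrable_frK ℓ lam p {D} n).const_mul _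
  have i5 : ∀ n, Integrable (fun ω => ∑ D ∈ J, (a * wJ ℓ lam L D + γ) *
          rK ℓ lam J ω {D} n) (percolation d p) := fun n =>
    integrable_finsetSum _ fun D _ => (integrable_rK ℓ lam J p {D} n).const_mul _
  have i6 : ∀ n, Integrable (fun ω => rps ℓ lam ω J L n) (percolation d p) := fun n =>
    integrable_rps ℓ lam p L n
  have i7 : ∀ n, Integrable (fun ω => α * rnJ ℓ lam J ω n) (percolation d p) := fun n =>
    (integrable_rnJ ℓ lam J p n).const_mul _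
  have hwsum : ∑ D ∈ J, (a * wJ ℓ lam L D + γ) = a * SJ ℓ lam J L + γ * J.card := by
    rw [Finset.sum_add_distrib, ← Finset.mul_sum, Finset.sum_const, nsmul_eq_mul]
    have : SJ ℓ lam J L = ∑ D ∈ J, wJ ℓ lam L D := rfl
    rw [this]
    ring
  have hw0 : ∀ D, 0 ≤ a * wJ ℓ lam L D + γ := fun D =>
    add_nonneg (mul_nonneg ha (wJ_pos D).le) hγ
  refine limU hp hv (C := γ + 4 * M + α) (cA := a * SJ ℓ lam J L + γ * J.card + γ)
    (by positivity) (by linarith)
    (fun n ω => ∑ D ∈ J, (a * wJ ℓ lam L D + γ) *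
          rK ℓ lam J ω {D} n - rps ℓ lam ω J L n - α * rnJ ℓ lam J ω n)
    (fun n ω => γ * ∑ D ∈ J, frK ℓ lam ω {D} n
        + bU ℓ lam J L * ∑ D ∈ Jᶜ, rhoJ ℓ lam L D * frK ℓ lam ω {D} n
        + 3 * RJ ℓ lam J L * ∑ D ∈ J, ∑ D' ∈ Jᶜ, frK ℓ lam ω {D, D'} n
        + 57 / 2 * η * M * ∑ D, frK ℓ lam ω {D} n)
    (fun n => ((i5 n).sub (i6 n)).sub (i7 n))
    (fun n => (((i4 n).add (i1 n)).add (i2 n)).add (i3 n)) ?_ ?_ ?_ ?_ ?_
  · intro n ω
    refine add_nonneg (add_nonneg (add_nonneg ?_ ?_) ?_) ?_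
    · exact mul_nonneg hγ (Finset.sum_nonneg fun D _ => frK_nonneg ℓ lam ω {D} n)
    · exact mul_nonneg hb (Finset.sum_nonneg fun D _ =>
        mul_nonneg (hρ D) (frK_nonneg ℓ lam ω {D} n))
    · exact mul_nonneg (by linarith) (Finset.sum_nonneg fun D _ =>
        Finset.sum_nonneg fun D' _ => frK_nonneg ℓ lam ω {D, D'} n)
    · exact mul_nonneg (by positivity) (Finset.sum_nonneg fun D _ =>
        frK_nonneg ℓ lam ω {D} n)
  · intro n ω
    have h1 : ∑ D ∈ J, (a * wJ ℓ lam L D + γ) * rK ℓ lam J ω {D} n ≤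
        ∑ D ∈ J, (a * wJ ℓ lam L D + γ) * nw ℓ lam ω n :=
      Finset.sum_le_sum fun D _ => mul_le_mul_of_nonneg_left
        ((rK_le_rnJ ℓ lam J ω {D} n).trans (rnJ_le_nw ℓ lam J ω n)) (hw0 D)
    rw [← Finset.sum_mul, hwsum] at h1
    have h2 : -(γ * nw ℓ lam ω n) ≤ rps ℓ lam ω J L n := by
      have h3 : -(γ * rnJ ℓ lam J ω n) ≤ rps ℓ lam ω J L n := by
        unfold rps rnJ
        rw [Finset.mul_sum, ← Finset.sum_neg_distrib]
        refine Finset.sum_le_sum fun z _ => ?_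
        have h4 := mul_le_mul_of_nonneg_left (psJ_ge hG hlam hs z ω)
          (rq_nonneg ℓ lam ω (fun x => hJ J x < hJ J z) (n + 1) z)
        linarith
      have h5 := mul_le_mul_of_nonneg_left (rnJ_le_nw ℓ lam J ω n) hγ
      linarith
    have h6 := mul_nonneg hα0 (rnJ_nonneg ℓ lam J ω n)
    linarith
  · intro n
    have e1 := integral_sub (μ := percolation d p) ((i5 n).sub (i6 n)) (i7 n)
    have e2 := integral_sub (μ := percolation d p) (i5 n) (i6 n)
    simp only [Pi.sub_apply] at e1 e2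
    rw [e1, e2]
    have h1 : ∫ ω, ∑ D ∈ J, (a * wJ ℓ lam L D + γ) * rK ℓ lam J ω {D} n
        ∂(percolation d p) = α * ∫ ω, rnJ ℓ lam J ω n ∂(percolation d p) := by
      rw [integral_finsetSum _ fun D _ => (integrable_rK ℓ lam J p {D} n).const_mul _]
      have h2 : ∀ D ∈ J, ∫ ω, (a * wJ ℓ lam L D + γ) * rK ℓ lam J ω {D} n
          ∂(percolation d p) = (a * wJ ℓ lam L D + γ) *
            ((1 - (p : ℝ)) * ∫ ω, rnJ ℓ lam J ω n ∂(percolation d p)) := by
        intro D hD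
        have h3 := integral_rKU ℓ lam hG' p (Finset.singleton_subset_iff.2 hD) n
        rw [Finset.card_singleton, pow_one] at h3
        rw [integral_const_mul, h3]
      rw [Finset.sum_congr rfl h2, ← Finset.sum_mul, hwsum, hα]
      ring
    rw [h1, integral_const_mul]
    have h4 := integral_rps_le ℓ lam hG' p (L := L) (cheb_phK hG hlam p) n
    linarith
  · intro n
    have e0 := integral_add (μ := percolation d p) (((i4 n).add (i1 n)).add (i2 n)) (i3 n)
    have e1 := integral_add (μ := percolation d p) ((i4 n).add (i1 n)) (i2 n)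
    have e2 := integral_add (μ := percolation d p) (i4 n) (i1 n)
    simp only [Pi.add_apply] at e0 e1 e2
    rw [e0, e1, e2]
    have f1 : ∀ D, ∫ ω, frK ℓ lam ω {D} n ∂(percolation d p) ≤
        (1 - (p : ℝ)) * ∫ ω, nw ℓ lam ω n ∂(percolation d p) := by
      intro D
      have := integral_frK_le ℓ lam p (Finset.singleton_nonempty D) n
      rw [Finset.card_singleton, pow_one] at this
      exact this
    have f2 : ∀ D ∈ J, ∀ D' ∈ Jᶜ, ∫ ω, frK ℓ lam ω {D, D'} n ∂(percolation d p) ≤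
        (1 - (p : ℝ)) ^ 2 * ∫ ω, nw ℓ lam ω n ∂(percolation d p) := by
      intro D hD D' hD'
      have hne : D ≠ D' := fun h => (Finset.mem_compl.1 hD') (h ▸ hD)
      have := integral_frK_le ℓ lam p (Finset.insert_nonempty D {D'}) n
      rw [Finset.card_pair hne] at this
      exact this
    have g0 : ∫ ω, γ * ∑ D ∈ J, frK ℓ lam ω {D} n ∂(percolation d p) ≤
        γ * (J.card * (1 - (p : ℝ))) * ∫ ω, nw ℓ lam ω n ∂(percolation d p) := by
      rw [integral_const_mul, integral_finsetSum _ fun D _ => integrable_frK ℓ lam p {D} n]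
      have h1 : ∑ D ∈ J, ∫ ω, frK ℓ lam ω {D} n ∂(percolation d p) ≤
          ∑ _D ∈ J, (1 - (p : ℝ)) * ∫ ω, nw ℓ lam ω n ∂(percolation d p) :=
        Finset.sum_le_sum fun D _ => f1 D
      rw [Finset.sum_const, nsmul_eq_mul] at h1
      have h2 := mul_le_mul_of_nonneg_left h1 hγ
      linarith
    have g1 : ∫ ω, bU ℓ lam J L * ∑ D ∈ Jᶜ, rhoJ ℓ lam L D * frK ℓ lam ω {D} n
        ∂(percolation d p) ≤ bU ℓ lam J L * (RJ ℓ lam J L * (1 - (p : ℝ))) *
          ∫ ω, nw ℓ lam ω n ∂(percolation d p) := by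
      rw [integral_const_mul, integral_finsetSum _ fun D _ =>
        (integrable_frK ℓ lam p {D} n).const_mul _, mul_assoc]
      refine mul_le_mul_of_nonneg_left ?_ hb
      have h1 : ∑ D ∈ Jᶜ, ∫ ω, rhoJ ℓ lam L D * frK ℓ lam ω {D} n ∂(percolation d p) ≤
          ∑ D ∈ Jᶜ, rhoJ ℓ lam L D * ((1 - (p : ℝ)) *
            ∫ ω, nw ℓ lam ω n ∂(percolation d p)) := by
        refine Finset.sum_le_sum fun D _ => ?_
        rw [integral_const_mul]
        exact mul_le_mul_of_nonneg_left (f1 D) (hρ D)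
      rw [← Finset.sum_mul] at h1
      have h2 : RJ ℓ lam J L = ∑ D ∈ Jᶜ, rhoJ ℓ lam L D := rfl
      rw [h2]
      linarith
    have g2 : ∫ ω, 3 * RJ ℓ lam J L * ∑ D ∈ J, ∑ D' ∈ Jᶜ, frK ℓ lam ω {D, D'} n
        ∂(percolation d p) ≤ 3 * RJ ℓ lam J L * (J.card * (Jᶜ).card * (1 - (p : ℝ)) ^ 2) *
          ∫ ω, nw ℓ lam ω n ∂(percolation d p) := by
      rw [integral_const_mul, integral_finsetSum _ fun D _ => integrable_finsetSum _ fun D' _ =>
        integrable_frK ℓ lam p {D, D'} n, mul_assoc (3 * RJ ℓ lam J L)]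
      refine mul_le_mul_of_nonneg_left ?_ (by linarith)
      have h1 : ∑ D ∈ J, ∫ ω, ∑ D' ∈ Jᶜ, frK ℓ lam ω {D, D'} n ∂(percolation d p) ≤
          ∑ D ∈ J, ∑ D' ∈ Jᶜ, (1 - (p : ℝ)) ^ 2 *
            ∫ ω, nw ℓ lam ω n ∂(percolation d p) := by
        refine Finset.sum_le_sum fun D hD => ?_
        rw [integral_finsetSum _ fun D' _ => integrable_frK ℓ lam p {D, D'} n]
        exact Finset.sum_le_sum fun D' hD' => f2 D hD D' hD'
      simp only [Finset.sum_const, nsmul_eq_mul] at h1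
      linarith
    have g3 : ∫ ω, 57 / 2 * η * M * ∑ D, frK ℓ lam ω {D} n ∂(percolation d p) ≤
        57 / 2 * η * M * (2 * d * (1 - (p : ℝ))) *
          ∫ ω, nw ℓ lam ω n ∂(percolation d p) := by
      rw [integral_const_mul, integral_finsetSum _ fun D _ => integrable_frK ℓ lam p {D} n]
      have h1 : ∑ D : Fin d × Bool, ∫ ω, frK ℓ lam ω {D} n ∂(percolation d p) ≤
          ∑ _D : Fin d × Bool, (1 - (p : ℝ)) * ∫ ω, nw ℓ lam ω n ∂(percolation d p) :=
        Finset.sum_le_sum fun D _ => f1 D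
      rw [Finset.sum_const, nsmul_eq_mul, Finset.card_univ, Fintype.card_prod,
        Fintype.card_fin, Fintype.card_bool] at h1
      have h2 := mul_le_mul_of_nonneg_left h1 (by positivity : 0 ≤ 57 / 2 * η * M)
      push_cast at h2
      linarith
    linarith
  · intro N ω
    exact quen2 ω hG' hG hlam hs hm hη₁ hη1 hW (hQ ω) hη0 hη ha hα0 hM hcoef' N

end Pool.Agent.P2ec0u
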