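import Pool.Agent.Lib.P2ec0u.ExpectU

/-!
# The visits below the armed height, with a general bound for the steps that are not forward
-/

open MeasureTheory ProbabilityTheory Filter Topology Function
open scoped unitInterval ENNReal

namespace Pool.Agent.P2ec0u

open Pool.Agent.P2ec0f3 Pool.Agent.P2ec0g Pool.Agent.P2ec0h

variable {d : ℕ} {ℓ ℓ' : Fin d → ℝ} {lam : ℝ} {J : Finset (Fin d × Bool)} {ω : Set (Edge d)}
  {L' δ' η : ℝ}

/-- The one step inequality at one vertex. -/
lemma gA_stepU (hG : GapJ ℓ' J L' δ')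
    (hQ : ∀ x, ¬ Blk J ω x → ∑ D ∈ Jᶜ, sp ℓ lam ω x D ≤ η) (hη : η ≤ 1 / 100) (x : Vtx d) (r a : ℤ)
    (hra : r ≤ a) (hor : a ≤ r ∨ a ≤ hJ J x + 1) :
    (Blk J ω x → gA J x (hJ J x, r, a) +
        drift ℓ lam ω (fun y => gA J y (hJ J x, r, a)) x ≤ lf (hJ J x - r) + 2) ∧
    (¬ Blk J ω x → gA J x (hJ J x, r, a) +
        drift ℓ lam ω (fun y => gA J y (hJ J x, r, a)) x ≤ lf (hJ J x - r)
          - (if hJ J x ≤ r then 2 / 5 else 0) + 2 * η * lc (hJ J x - a)) := by
  classical
  set h := hJ J x with hh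
  set k := h - a with hk
  set kt := h - r with hkt
  have hmax : max r a = a := max_eq_right hra
  have g0 : gA J x (h, r, a) = lf k := by
    unfold gA
    simp only
    rw [if_neg (by omega), hmax]
  have g1 : ∀ D ∈ J, gA J (nbr x D) (h, r, a) = lf (kt + 1) := by
    intro D hD
    unfold gA
    simp only
    rw [hJ_nbr, dJ_mem hG hD, if_pos rfl, hkt]
    congr 1
    ring
  have g2 : ∀ D, D ∉ J → gA J (nbr x D) (h, r, a) ≤ lf (k - 1) := by
    intro D hD
    unfold gA
    simp only
    have h1 : dJ J D ≤ 0 ∧ -1 ≤ dJ J D := by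
      rcases dJ_notMem hD with h1 | h1 <;> omega
    rw [hJ_nbr, if_neg (by omega), hmax]
    refine lf_antitone ?_
    omega
  have hlf2 : lf (k - 1) ≤ lf kt + 2 := by
    rcases hor with h1 | h1
    · have : a = r := le_antisymm h1 hra
      have h2 : kt = k := by omega
      rw [h2]
      linarith [lf_pred_le k]
    · have h2 := lf_pred_le_const (show -1 ≤ k by omega)
      linarith [lf_nonneg kt]
  have hlfk : lf k ≤ lf (k - 1) := lf_antitone (by omega)
  rw [drift_eq, g0]
  constructor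
  · intro hB
    have h1 : ∀ D ∈ (Finset.univ : Finset (Fin d × Bool)),
        sp ℓ lam ω x D * (gA J (nbr x D) (h, r, a) - lf k) ≤
          sp ℓ lam ω x D * (lf (k - 1) - lf k) := by
      intro D _
      by_cases hD : D ∈ J
      · have : sp ℓ lam ω x D = 0 := by
          unfold sp
          rw [weight_of_notMem ℓ lam (hB D hD), zero_div]
        rw [this]
        simp
      · refine mul_le_mul_of_nonneg_left ?_ (sp_nonneg ..)
        linarith [g2 D hD]
    have h2 := Finset.sum_le_sum h1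
    rw [← Finset.sum_mul] at h2
    have h3 : (∑ D, sp ℓ lam ω x D) * (lf (k - 1) - lf k) ≤ 1 * (lf (k - 1) - lf k) :=
      mul_le_mul_of_nonneg_right (sum_sp_le ..) (by linarith)
    linarith
  · intro hB
    have hP := pJ_add (J := J) (total_ne_zero' (ℓ := ℓ) (lam := lam) hB)
    have hQ2 := hQ x hB
    have hP1 : pJ ℓ lam ω J x ≤ 1 := pJ_le_one
    have hP0 : 0 ≤ pJ ℓ lam ω J x := pJ_nonneg
    set P := pJ ℓ lam ω J x with hPdef
    set Q := ∑ D ∈ Jᶜ, sp ℓ lam ω x D with hQdef
    have hQ0 : 0 ≤ Q := Finset.sum_nonneg fun _ _ => sp_nonneg ..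
    have hη0 : 0 ≤ η := hQ0.trans hQ2
    have h1 : ∑ D, sp ℓ lam ω x D * (gA J (nbr x D) (h, r, a) - lf k) ≤
        P * (lf (kt + 1) - lf k) + Q * (lf (k - 1) - lf k) := by
      rw [← Finset.sum_add_sum_compl J, hPdef, hQdef, pJ, Finset.sum_mul, Finset.sum_mul]
      refine add_le_add (Finset.sum_le_sum fun D hD => ?_) (Finset.sum_le_sum fun D hD => ?_)
      · rw [g1 D hD]
      · refine mul_le_mul_of_nonneg_left ?_ (sp_nonneg ..)
        linarith [g2 D (Finset.mem_compl.1 hD)]
    have h2 : lf k + (P * (lf (kt + 1) - lf k) + Q * (lf (k - 1) - lf k)) =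
        P * lf (kt + 1) + Q * lf (k - 1) := by
      have : lf k = (P + Q) * lf k := by rw [hP, one_mul]
      linear_combination this
    have hkt2 := lf_nonneg kt
    have hlc := lc_nonneg k
    have hif : (if h ≤ r then (2 / 5 : ℝ) else 0) = if kt ≤ 0 then 2 / 5 else 0 := by
      by_cases h3 : h ≤ r
      · rw [if_pos h3, if_pos (by omega)]
      · rw [if_neg h3, if_neg (by omega)]
    rw [hif]
    -- the forward part
    have hfor : P * (lf (kt + 1) - lf kt) + Q * (1 / 2) ≤
        - (if kt ≤ 0 then (2 / 5 : ℝ) else 0) + (if kt ≤ 0 then 0 else Q * (1 / 2)) := by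
      by_cases h3 : kt ≤ 0
      · rw [if_pos h3, if_pos h3, lf_succ_of_nonpos h3]
        linarith
      · rw [if_neg h3, if_neg h3]
        have := mul_le_mul_of_nonneg_left (lf_succ_le kt) hP0
        linarith
    rcases hor with h3 | h3
    · have hka : kt = k := by omega
      rw [hka] at hkt2 ⊢
      by_cases h4 : k ≤ 0
      · rw [if_pos h4]
        have h5 := lf_succ_of_nonpos h4
        have h6 := lf_pred_of_nonpos h4
        rw [hka] at h1 h2
        rw [h5, h6] at h2
        rw [h5, h6] at h1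
        have h7 : 0 ≤ 2 * η * lc k := by positivity
        have h8 : P * (lf k - 1 / 2) + Q * (lf k + 1 / 2) = lf k - 1 / 2 * P + 1 / 2 * Q := by
          linear_combination (lf k) * hP
        linarith
      · rw [if_neg h4]
        have h4' : 0 < k := by omega
        have h5 := lf_succ_of_pos h4'
        have h6 := lf_pred_of_pos h4'
        rw [hka] at h1 h2
        rw [h5, h6] at h2
        rw [h5, h6] at h1
        have h7 : 0 ≤ 2 * η * lc k := by positivity
        have h8 : P * (lf k / 2) + Q * (2 * lf k) ≤ lf k := by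
          have : P * (lf k / 2) + Q * (2 * lf k) = lf k * (P / 2 + 2 * Q) := by ring
          rw [this]
          exact mul_le_of_le_one_right hkt2 (by linarith)
        linarith
    · have hk1 : -1 ≤ k := by omega
      have h5 := lf_pred_le_two hk1
      have h6 : Q * lf (k - 1) ≤ 2 * η * lc k := by
        have h7 := mul_le_mul_of_nonneg_left h5 hQ0
        have h8 := mul_le_mul_of_nonneg_right hQ2 (by positivity : 0 ≤ 2 * lc k)
        linarith
      have h9 : P * lf (kt + 1) ≤ lf kt - (if kt ≤ 0 then (2 / 5 : ℝ) else 0) := by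
        by_cases h4 : kt ≤ 0
        · rw [if_pos h4, lf_succ_of_nonpos h4]
          have h10 : 1 ≤ lf kt := by
            have := lf_antitone h4
            rw [lf_of_nonpos le_rfl] at this
            norm_num at this
            exact this
          have h11 : P * (lf kt - 1 / 2) ≤ 1 * (lf kt - 1 / 2) :=
            mul_le_mul_of_nonneg_right hP1 (by linarith)
          linarith
        · rw [if_neg h4, sub_zero]
          have h10 := lf_succ_le kt
          have h11 : P * lf (kt + 1) ≤ 1 * lf (kt + 1) :=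
            mul_le_mul_of_nonneg_right hP1 (lf_nonneg _)
          linarith
      linarith

variable (ω) in
/-- One step of the Lyapunov function of the armed height. -/
lemma eaJ_succ_leU (hG : GapJ ℓ' J L' δ')
    (hQ : ∀ x, ¬ Blk J ω x → ∑ D ∈ Jᶜ, sp ℓ lam ω x D ≤ η) (hη0 : 0 ≤ η) (hη : η ≤ 1 / 100) (n : ℕ) :
    eaJ ℓ lam J ω (n + 1) ≤ eaJ ℓ lam J ω n + 2 * BJ ℓ lam J ω n
      - 2 / 5 * ZJ ℓ lam J ω n + 2 * η * TH ℓ lam J ω lc n := by
  classical
  set T := quenched ℓ lam ω with hT
  have hsub : ∀ X : ℕ → Vtx d, X n ∈ box d n → X n ∈ box d (n + 1) := fun X h =>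
    box_mono (Nat.le_succ n) h
  have hlc : ∀ k, |lc k| ≤ 2 := fun k => by
    rw [abs_of_nonneg (lc_nonneg k)]
    linarith [lc_le k]
  set av : (ℕ → Vtx d) → ℤ × ℤ × ℤ := fun X => (hJ J (X n), ar J ω X n, al J ω X n) with hav
  have hpast : PastA n av := pastA_fun J ω n (fun x a r => (hJ J x, r, a))
  have hbd : ∀ X : ℕ → Vtx d, (∀ m, X m ∈ box d m) → ∀ y ∈ box d (n + 1),
      |gA J y (av X)| ≤ 2 * (J.card * (n + 1)) + 2 := by
    intro X hX y hy
    have h1 := zero_le_ar J ω X n
    have h2 := ar_le_al J ω X n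
    unfold gA
    refine abs_lfJ ω hX n hy ?_ ?_
    · simp only [hav]
      split_ifs
      · exact h1
      · exact h1.trans (le_max_left _ _)
    · simp only [hav]
      split_ifs
      · exact h2
      · exact max_le h2 le_rfl
  have s2 : eaJ ℓ lam J ω (n + 1) =
      ∫ X, (gA J (X n) (av X) + drift ℓ lam ω (fun y => gA J y (av X)) (X n)) ∂T := by
    have h1 : eaJ ℓ lam J ω (n + 1) = ∫ X, gA J (X (n + 1)) (av X) ∂T := by
      unfold eaJ
      exact integral_congr_ae (ae_of_all _ fun X => (gA_eq X n).symm)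
    rw [h1]
    refine integral_stepA ℓ lam ω hpast (gA J) (C := 2 * (J.card * (n + 1)) + 2) ?_
    filter_upwards [ae_good ℓ lam ω] with X hX
    exact fun y hy => hbd X hX.2 y hy
  have i1 : Integrable (fun X => lf (hJ J (X n) - ar J ω X n)) T := by
    refine (pastA_fun J ω n (fun x _ r => lf (hJ J x - r))).integrable ℓ lam ω
      (C := 2 * (J.card * (n + 1)) + 2) ?_
    filter_upwards [ae_good ℓ lam ω] with X hX
    exact abs_lfJ ω hX.2 n (hsub X (hX.2 n)) (zero_le_ar J ω X n) (ar_le_al J ω X n)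
  set sB : Set (Vtx d) := {x | Blk J ω x} with hsB
  have i5 := integrable_indJ ℓ lam ω n sB
  have i6 : Integrable (fun X => (zE J ω n).indicator (fun _ => (1 : ℝ)) X) T :=
    (integrable_const _).indicator (measurableSet_zE J ω n)
  have i7 := integrable_phi ℓ lam J ω n hlc
  have i8 : Integrable (fun X => gA J (X n) (av X) +
      drift ℓ lam ω (fun y => gA J y (av X)) (X n)) T := by
    have hp : PastA n (fun X => gA J (X n) (av X) +
        drift ℓ lam ω (fun y => gA J y (av X)) (X n)) :=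
      pastA_fun J ω n (fun x a r => gA J x (hJ J x, r, a) +
        drift ℓ lam ω (fun y => gA J y (hJ J x, r, a)) x)
    refine hp.integrable ℓ lam ω
      (C := (2 * (J.card * (n + 1)) + 2) + 2 * (2 * (J.card * (n + 1)) + 2)) ?_
    filter_upwards [ae_good ℓ lam ω] with X hX
    have h1 := hbd X hX.2 (X n) (hsub X (hX.2 n))
    refine (abs_add_le _ _).trans (add_le_add h1 ?_)
    rw [drift_eq]
    refine (Finset.abs_sum_le_sum_abs _ _).trans ?_
    have h2 : ∀ D ∈ (Finset.univ : Finset (Fin d × Bool)),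
        |sp ℓ lam ω (X n) D * (gA J (nbr (X n) D) (av X) - gA J (X n) (av X))| ≤
          sp ℓ lam ω (X n) D * (2 * (2 * (J.card * (n + 1)) + 2)) := by
      intro D _
      rw [abs_mul, abs_of_nonneg (sp_nonneg ..)]
      refine mul_le_mul_of_nonneg_left ?_ (sp_nonneg ..)
      have h3 := hbd X hX.2 (nbr (X n) D) (nbr_mem_box (hX.2 n) D)
      have h4 := abs_sub (gA J (nbr (X n) D) (av X)) (gA J (X n) (av X))
      linarith
    refine (Finset.sum_le_sum h2).trans ?_
    rw [← Finset.sum_mul]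
    refine mul_le_of_le_one_left (by positivity) (sum_sp_le ..)
  rw [s2]
  have j1 : Integrable (fun X : ℕ → Vtx d => 2 * sB.indicator (fun _ => (1 : ℝ)) (X n)) T :=
    i5.const_mul _
  have j2 : Integrable (fun X : ℕ → Vtx d =>
      2 / 5 * (zE J ω n).indicator (fun _ => (1 : ℝ)) X) T := i6.const_mul _
  have j3 : Integrable (fun X : ℕ → Vtx d =>
      2 * η * phi J ω lc (X n) (al J ω X n)) T := i7.const_mul _
  have k1 := i1.add j1
  have k2 := (i1.add j1).sub j2
  have s3 : ∫ X, (gA J (X n) (av X) + drift ℓ lam ω (fun y => gA J y (av X)) (X n)) ∂T ≤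
      ∫ X, (lf (hJ J (X n) - ar J ω X n) + 2 * sB.indicator (fun _ => (1 : ℝ)) (X n)
        - 2 / 5 * (zE J ω n).indicator (fun _ => (1 : ℝ)) X
        + 2 * η * phi J ω lc (X n) (al J ω X n)) ∂T := by
    refine integral_mono_ae i8 (((i1.add j1).sub j2).add j3) ?_
    filter_upwards [ae_good ℓ lam ω] with X hX
    have h1 := gA_stepU (ℓ := ℓ) (lam := lam) (ω := ω) hG hQ hη (X n) (ar J ω X n) (al J ω X n)
      (ar_le_al J ω X n) (al_le_ar_or J ω hX.1 n)
    by_cases hB : Blk J ω (X n)
    · have hb : X n ∈ sB := hB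
      have hz : X ∉ zE J ω n := fun h => h.1 hB
      have h2 : phi J ω lc (X n) (al J ω X n) = 0 := by
        unfold phi
        rw [if_pos hB]
      rw [Set.indicator_of_mem hb, Set.indicator_of_notMem hz, h2]
      have := h1.1 hB
      linarith
    · have hb : X n ∉ sB := hB
      have h2 : phi J ω lc (X n) (al J ω X n) = lc (hJ J (X n) - al J ω X n) := by
        unfold phi
        rw [if_neg hB]
      have h3 := h1.2 hB
      rw [Set.indicator_of_notMem hb, h2]
      by_cases hz : hJ J (X n) ≤ ar J ω X n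
      · have hz' : X ∈ zE J ω n := ⟨hB, hz⟩
        rw [Set.indicator_of_mem hz']
        rw [if_pos hz] at h3
        linarith
      · have hz' : X ∉ zE J ω n := fun h => hz h.2
        rw [Set.indicator_of_notMem hz']
        rw [if_neg hz] at h3
        linarith
  have s4 : ∫ X, (lf (hJ J (X n) - ar J ω X n) + 2 * sB.indicator (fun _ => (1 : ℝ)) (X n)
        - 2 / 5 * (zE J ω n).indicator (fun _ => (1 : ℝ)) X
        + 2 * η * phi J ω lc (X n) (al J ω X n)) ∂T =
      ∫ X, lf (hJ J (X n) - ar J ω X n) ∂T + 2 * (lawAt ℓ lam ω n).real sB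
        - 2 / 5 * T.real (zE J ω n) + 2 * η * ∫ X, phi J ω lc (X n) (al J ω X n) ∂T := by
    rw [← integral_ind ℓ lam ω n sB, ← integral_const_mul, ← integral_const_mul]
    have e1 : 2 / 5 * T.real (zE J ω n) =
        ∫ X, 2 / 5 * (zE J ω n).indicator (fun _ => (1 : ℝ)) X ∂T := by
      rw [integral_const_mul, integral_indicator_const _ (measurableSet_zE J ω n), smul_eq_mul,
        mul_one]
    rw [e1, ← integral_add i1 j1]
    have e2 := integral_sub (μ := T) k1 j2
    have e3 := integral_add (μ := T) k2 j3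
    simp only [Pi.add_apply, Pi.sub_apply] at e2 e3
    rw [← e2, ← e3]
  rw [s4] at s3
  exact s3

variable (ω) in
/-- The visits below the armed height. -/
lemma sum_ZJ_leU (hG : GapJ ℓ' J L' δ')
    (hQ : ∀ x, ¬ Blk J ω x → ∑ D ∈ Jᶜ, sp ℓ lam ω x D ≤ η) (hη0 : 0 ≤ η) (hη : η ≤ 1 / 100) (N : ℕ) :
    ∑ n ∈ Finset.range N, ZJ ℓ lam J ω n ≤ 3 + 6 * ∑ n ∈ Finset.range N, BJ ℓ lam J ω n +
      57 / 2 * η * ∑ n ∈ Finset.range N, CJ ℓ lam J ω n := by
  have h : eaJ ℓ lam J ω N ≤ 1 + 2 * ∑ n ∈ Finset.range N, BJ ℓ lam J ω n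
      - 2 / 5 * ∑ n ∈ Finset.range N, ZJ ℓ lam J ω n
      + 2 * η * ∑ n ∈ Finset.range N, TH ℓ lam J ω lc n := by
    induction N with
    | zero => simp [eaJ_zero]
    | succ N ih =>
      have := eaJ_succ_leU ω hG hQ hη0 hη N
      rw [Finset.sum_range_succ, Finset.sum_range_succ, Finset.sum_range_succ]
      linarith
  have h0 := eaJ_nonneg ℓ lam J ω N
  -- the bound on `TH`
  have h1 := sum_TH_leU (θ := fun k => 4 / 15 * lc k) ω hG hQ hη
    (fun k => by
      rw [abs_of_nonneg (by have := lc_nonneg k; positivity)]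
      linarith [lc_le k])
    (fun k _ => by linarith [lc_le k])
    (fun k _ => by
      have h1 := lc_le_lf k
      have h2 := lc_nonneg k
      linarith [lf_nonneg k]) N
  have h2 : ∑ n ∈ Finset.range N, TH ℓ lam J ω (fun k => 4 / 15 * lc k) n =
      4 / 15 * ∑ n ∈ Finset.range N, TH ℓ lam J ω lc n := by
    rw [Finset.mul_sum]
    refine Finset.sum_congr rfl fun n _ => ?_
    unfold TH
    rw [← integral_const_mul]
    refine integral_congr_ae (ae_of_all _ fun X => ?_)
    simp only [phi]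
    split_ifs <;> ring
  rw [h2] at h1
  set SB := ∑ n ∈ Finset.range N, BJ ℓ lam J ω n with hSB
  set SC := ∑ n ∈ Finset.range N, CJ ℓ lam J ω n with hSC
  set ST := ∑ n ∈ Finset.range N, TH ℓ lam J ω lc n with hST
  set SZ := ∑ n ∈ Finset.range N, ZJ ℓ lam J ω n with hSZ
  have hSB0 : 0 ≤ SB := Finset.sum_nonneg fun n _ => BJ_nonneg ℓ lam J ω n
  have hSC0 : 0 ≤ SC := Finset.sum_nonneg fun n _ => CJ_nonneg ℓ lam J ω n
  have h3 : ST ≤ 15 / 4 * (3 / 2 + 1 / 2 * SB + 3 / 2 * SC) := by linarith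
  have h4 := mul_le_mul_of_nonneg_left h3 (by positivity : 0 ≤ 2 * η)
  have h6 := mul_le_mul_of_nonneg_right hη hSB0
  have h7 : 0 ≤ η * SC := mul_nonneg hη0 hSC0
  nlinarith

end Pool.Agent.P2ec0u
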