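import Pool.Agent.Lib.P2ec0u.GeomU

/-!
# The drift of the height at an unblocked vertex, nearly maximal directions
-/

open MeasureTheory ProbabilityTheory Filter Topology Function
open scoped unitInterval ENNReal

namespace Pool.Agent.P2ec0u

open Pool.Agent.P2ec0f3 Pool.Agent.P2ec0g Pool.Agent.P2ec0h

variable {d : ℕ} {ℓ : Fin d → ℝ} {lam : ℝ} {J : Finset (Fin d × Bool)} {L : ℝ}

/-- The drift of the height at an unblocked vertex, exact formula. -/
lemma drift_height_eqU {γ δ s : ℝ} (hG : GapU ℓ J L γ δ) (hlam : 0 < lam) (hs : lam * γ ≤ s)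
    {ω : Set (Edge d)} {x : Vtx d} (h : ¬ Blk J ω x) :
    drift ℓ lam ω (height ℓ) x =
      L - (∑ D ∈ J, rhoJ ℓ lam L D * (1 - cl (edgeTo x D) ω) +
          ∑ D ∈ Jᶜ, rhoJ ℓ lam L D * (1 - cl (edgeTo x D) ω)) /
        (∑ D ∈ J, wJ ℓ lam L D * (1 - cl (edgeTo x D) ω) +
          ∑ D ∈ Jᶜ, wJ ℓ lam L D * (1 - cl (edgeTo x D) ω)) := by
  classical
  have h1 := sum_sp ℓ lam ω x (total_ne_zero' (ℓ := ℓ) (lam := lam) h)
  have h2 : drift ℓ lam ω (height ℓ) x = L - ∑ D, sp ℓ lam ω x D * (L - gain ℓ D) := by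
    rw [drift_height]
    have h3 : ∑ D, sp ℓ lam ω x D * (L - gain ℓ D) =
        (∑ D, sp ℓ lam ω x D) * L - ∑ D, sp ℓ lam ω x D * gain ℓ D := by
      rw [Finset.sum_mul, ← Finset.sum_sub_distrib]
      exact Finset.sum_congr rfl fun D _ => by ring
    rw [h3, h1]
    ring
  rw [h2]
  congr 1
  have h3 : ∀ D ∈ (Finset.univ : Finset (Fin d × Bool)), sp ℓ lam ω x D * (L - gain ℓ D) =
      rhoJ ℓ lam L D * (1 - cl (edgeTo x D) ω) /
        ∑ D, wJ ℓ lam L D * (1 - cl (edgeTo x D) ω) := by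
    intro D _
    rw [sp_eqU (L := L) h]
    unfold rhoJ
    ring
  rw [Finset.sum_congr rfl h3, ← Finset.sum_div,
    ← Finset.sum_add_sum_compl J (fun D => rhoJ ℓ lam L D * (1 - cl (edgeTo x D) ω)),
    ← Finset.sum_add_sum_compl J (fun D => wJ ℓ lam L D * (1 - cl (edgeTo x D) ω))]

lemma fs_eqU {γ δ : ℝ} (hG : GapU ℓ J L γ δ) :
    fs ℓ lam = L - (AJ ℓ lam J L + RJ ℓ lam J L) / (SJ ℓ lam J L + WJ ℓ lam J L) := by
  classical
  have hB : ¬ Blk J (Set.univ : Set (Edge d)) (0 : Vtx d) := by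
    intro h
    obtain ⟨F, hF, -⟩ := hG.top
    exact h F hF (Set.mem_univ _)
  have hF : Full (Set.univ : Set (Edge d)) (0 : Vtx d) := fun D => Set.mem_univ _
  have h1 := drift_height_full ℓ lam (Set.univ : Set (Edge d)) hF
  have h3 : ∀ b : Edge d, cl b (Set.univ : Set (Edge d)) = 0 := by
    intro b
    unfold cl
    rw [if_pos (Set.mem_univ b)]
  have h2 : drift ℓ lam (Set.univ : Set (Edge d)) (height ℓ) (0 : Vtx d) =
      L - ∑ D, sp ℓ lam (Set.univ : Set (Edge d)) (0 : Vtx d) D * (L - gain ℓ D) := by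
    have h1' := sum_sp ℓ lam (Set.univ : Set (Edge d)) (0 : Vtx d)
      (total_ne_zero' (ℓ := ℓ) (lam := lam) hB)
    rw [drift_height]
    have h4 : ∑ D, sp ℓ lam (Set.univ : Set (Edge d)) (0 : Vtx d) D * (L - gain ℓ D) =
        (∑ D, sp ℓ lam (Set.univ : Set (Edge d)) (0 : Vtx d) D) * L -
          ∑ D, sp ℓ lam (Set.univ : Set (Edge d)) (0 : Vtx d) D * gain ℓ D := by
      rw [Finset.sum_mul, ← Finset.sum_sub_distrib]
      exact Finset.sum_congr rfl fun D _ => by ring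
    rw [h4, h1']
    ring
  rw [h1] at h2
  rw [h2]
  congr 1
  have h5 : ∀ D ∈ (Finset.univ : Finset (Fin d × Bool)),
      sp ℓ lam (Set.univ : Set (Edge d)) (0 : Vtx d) D * (L - gain ℓ D) =
      rhoJ ℓ lam L D / ∑ D, wJ ℓ lam L D := by
    intro D _
    rw [sp_eqU (L := L) hB]
    simp only [h3, sub_zero, mul_one]
    unfold rhoJ
    ring
  rw [Finset.sum_congr rfl h5, ← Finset.sum_div,
    ← Finset.sum_add_sum_compl J (fun D => rhoJ ℓ lam L D),
    ← Finset.sum_add_sum_compl J (fun D => wJ ℓ lam L D)]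
  rfl

lemma phJ_le {γ δ s : ℝ} (hG : GapU ℓ J L γ δ) (hlam : 0 < lam) (hs : lam * γ ≤ s)
    {ω : Set (Edge d)} {x : Vtx d} (h : ¬ Blk J ω x) :
    phJ ℓ lam J L x ω ≤ γ * ∑ D ∈ J, cl (edgeTo x D) ω ∧ |phJ ℓ lam J L x ω| ≤ γ := by
  classical
  have hS : 0 < ∑ D ∈ J, wJ ℓ lam L D * (1 - cl (edgeTo x D) ω) :=
    lt_of_lt_of_le (Real.exp_pos _) (openU hG hlam hs h)
  have hSJ : 0 < SJ ℓ lam J L := lt_of_lt_of_le one_pos (one_le_SJ hG)
  have hA0 : 0 ≤ ∑ D ∈ J, rhoJ ℓ lam L D * (1 - cl (edgeTo x D) ω) :=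
    Finset.sum_nonneg fun D _ => mul_nonneg (rhoU_nonneg hG D) (one_sub_cl_nonneg _ _)
  have hA1 : ∑ D ∈ J, rhoJ ℓ lam L D * (1 - cl (edgeTo x D) ω) ≤
      γ * ∑ D ∈ J, wJ ℓ lam L D * (1 - cl (edgeTo x D) ω) := by
    rw [Finset.mul_sum]
    refine Finset.sum_le_sum fun D hD => ?_
    rw [← mul_assoc]
    exact mul_le_mul_of_nonneg_right (rhoU_le hG hD) (one_sub_cl_nonneg _ _)
  have b1 : 0 ≤ AJ ℓ lam J L / SJ ℓ lam J L := div_nonneg (AJ_nonneg hG) hSJ.le
  have b2 : AJ ℓ lam J L / SJ ℓ lam J L ≤ γ := by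
    rw [div_le_iff₀ hSJ]
    exact AJ_le hG
  have b3 : 0 ≤ (∑ D ∈ J, rhoJ ℓ lam L D * (1 - cl (edgeTo x D) ω)) /
      ∑ D ∈ J, wJ ℓ lam L D * (1 - cl (edgeTo x D) ω) := div_nonneg hA0 hS.le
  have b4 : (∑ D ∈ J, rhoJ ℓ lam L D * (1 - cl (edgeTo x D) ω)) /
      ∑ D ∈ J, wJ ℓ lam L D * (1 - cl (edgeTo x D) ω) ≤ γ := by
    rw [div_le_iff₀ hS]
    exact hA1
  have hab : |phJ ℓ lam J L x ω| ≤ γ := by
    unfold phJ
    rw [abs_le]
    constructor <;> linarith
  refine ⟨?_, hab⟩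
  by_cases hc : ∃ D ∈ J, edgeTo x D ∉ ω
  · obtain ⟨D₀, hD₀, hcl⟩ := hc
    have hc1 : 1 ≤ ∑ D ∈ J, cl (edgeTo x D) ω := by
      have h1 : cl (edgeTo x D₀) ω = 1 := by
        unfold cl
        rw [if_neg hcl]
      rw [← h1]
      exact Finset.single_le_sum (f := fun D => cl (edgeTo x D) ω)
        (fun D _ => cl_nonneg _ _) hD₀
    have h2 := le_abs_self (phJ ℓ lam J L x ω)
    have h3 : γ * 1 ≤ γ * ∑ D ∈ J, cl (edgeTo x D) ω := mul_le_mul_of_nonneg_left hc1 hG.nn
    linarith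
  · push Not at hc
    have hcl0 : ∀ D ∈ J, cl (edgeTo x D) ω = 0 := by
      intro D hD
      unfold cl
      rw [if_pos (hc D hD)]
    have f1 : ∑ D ∈ J, rhoJ ℓ lam L D * (1 - cl (edgeTo x D) ω) = AJ ℓ lam J L :=
      Finset.sum_congr rfl fun D hD => by rw [hcl0 D hD]; ring
    have f2 : ∑ D ∈ J, wJ ℓ lam L D * (1 - cl (edgeTo x D) ω) = SJ ℓ lam J L :=
      Finset.sum_congr rfl fun D hD => by rw [hcl0 D hD]; ring
    have f4 : ∑ D ∈ J, cl (edgeTo x D) ω = 0 := Finset.sum_eq_zero hcl0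
    unfold phJ
    rw [f1, f2, f4, mul_zero, sub_self]

/-- The drift of the height at an unblocked vertex. -/
lemma drift_unblockedU {γ δ s η₁ : ℝ} (hG : GapU ℓ J L γ δ) (hlam : 0 < lam)
    (hs : lam * γ ≤ s) (hm : 2 ≤ J.card)
    (hη : (2 * d + 1) * Real.exp s * (γ / δ) ≤ η₁) (hη1 : η₁ ≤ 1) (hW : WJ ℓ lam J L ≤ 1)
    {ω : Set (Edge d)} {x : Vtx d} (h : ¬ Blk J ω x) :
    drift ℓ lam ω (height ℓ) x ≤ fs ℓ lam + phJ ℓ lam J L x ω
      - (1 - η₁) * RJ ℓ lam J L / ((SJ ℓ lam J L + WJ ℓ lam J L) *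
          (SJ ℓ lam J L + WJ ℓ lam J L - Real.exp (-s))) *
          ∑ D ∈ J, wJ ℓ lam L D * cl (edgeTo x D) ω
      + 1 / (SJ ℓ lam J L + WJ ℓ lam J L) * ∑ D ∈ Jᶜ, rhoJ ℓ lam L D * cl (edgeTo x D) ω
      + 3 * RJ ℓ lam J L * ∑ D ∈ J, ∑ D' ∈ Jᶜ, cl (edgeTo x D) ω * cl (edgeTo x D') ω := by
  classical
  have hR := RU_pos (lam := lam) hG
  have hW0 := WJ_nonneg (ℓ := ℓ) (lam := lam) (J := J) (L := L)
  have hWR := WU_le (lam := lam) hG
  have hSJ1 := SJ_ge hG hlam hs hm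
  have hSJ2 := SJ_le hG hlam
  have hSo := openU hG hlam hs h
  have hAJ0 := AJ_nonneg (lam := lam) hG
  have hes := Real.exp_pos (-s)
  have hδ := hG.pos
  have hγ := hG.nn
  have hη0 : 0 ≤ η₁ := le_trans (by positivity) hη
  -- `(2 d + 1) γ / δ ≤ η₁ e^{-s}`
  have hηs : (2 * d + 1) * (γ / δ) ≤ η₁ * Real.exp (-s) := by
    have h1 := mul_le_mul_of_nonneg_right hη hes.le
    have h2 : Real.exp s * Real.exp (-s) = 1 := by
      rw [← Real.exp_add]
      simp
    calc (2 * d + 1) * (γ / δ) = (2 * d + 1) * (γ / δ) * (Real.exp s * Real.exp (-s)) := by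
          rw [h2, mul_one]
      _ = (2 * d + 1) * Real.exp s * (γ / δ) * Real.exp (-s) := by ring
      _ ≤ _ := h1
  have hdr := drift_height_eqU hG hlam hs h
  rw [hdr, fs_eqU hG]
  have e1 : ∑ D ∈ J, wJ ℓ lam L D * (1 - cl (edgeTo x D) ω) =
      SJ ℓ lam J L - ∑ D ∈ J, wJ ℓ lam L D * cl (edgeTo x D) ω := by
    unfold SJ
    rw [← Finset.sum_sub_distrib]
    exact Finset.sum_congr rfl fun D _ => by ring
  have e2 : ∑ D ∈ Jᶜ, rhoJ ℓ lam L D * (1 - cl (edgeTo x D) ω) =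
      RJ ℓ lam J L - ∑ D ∈ Jᶜ, rhoJ ℓ lam L D * cl (edgeTo x D) ω := by
    unfold RJ
    rw [← Finset.sum_sub_distrib]
    exact Finset.sum_congr rfl fun D _ => by ring
  have e3 : ∑ D ∈ Jᶜ, wJ ℓ lam L D * (1 - cl (edgeTo x D) ω) ≤ WJ ℓ lam J L := by
    unfold WJ
    exact Finset.sum_le_sum fun D _ => mul_le_of_le_one_right (wJ_pos D).le
      (by linarith [cl_nonneg (edgeTo x D) ω])
  have e4 : 0 ≤ ∑ D ∈ Jᶜ, wJ ℓ lam L D * (1 - cl (edgeTo x D) ω) :=
    Finset.sum_nonneg fun D _ => mul_nonneg (wJ_pos D).le (one_sub_cl_nonneg _ _)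
  have e5 : 0 ≤ ∑ D ∈ Jᶜ, rhoJ ℓ lam L D * (1 - cl (edgeTo x D) ω) :=
    Finset.sum_nonneg fun D _ => mul_nonneg (rhoU_nonneg hG D) (one_sub_cl_nonneg _ _)
  have e6 : 0 ≤ ∑ D ∈ Jᶜ, rhoJ ℓ lam L D * cl (edgeTo x D) ω :=
    Finset.sum_nonneg fun D _ => mul_nonneg (rhoU_nonneg hG D) (cl_nonneg _ _)
  have e7 : ∑ D ∈ J, ∑ D' ∈ Jᶜ, cl (edgeTo x D) ω * cl (edgeTo x D') ω =
      (∑ D ∈ J, cl (edgeTo x D) ω) * ∑ D' ∈ Jᶜ, cl (edgeTo x D') ω := by
    rw [Finset.sum_mul_sum]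
  have hA0 : 0 ≤ ∑ D ∈ J, rhoJ ℓ lam L D * (1 - cl (edgeTo x D) ω) :=
    Finset.sum_nonneg fun D _ => mul_nonneg (rhoU_nonneg hG D) (one_sub_cl_nonneg _ _)
  have hA1 : ∑ D ∈ J, rhoJ ℓ lam L D * (1 - cl (edgeTo x D) ω) ≤
      γ * ∑ D ∈ J, wJ ℓ lam L D * (1 - cl (edgeTo x D) ω) := by
    rw [Finset.mul_sum]
    refine Finset.sum_le_sum fun D hD => ?_
    rw [← mul_assoc]
    exact mul_le_mul_of_nonneg_right (rhoU_le hG hD) (one_sub_cl_nonneg _ _)
  rw [e7]
  unfold phJ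
  set R := RJ ℓ lam J L with hRdef
  set W := WJ ℓ lam J L with hWdef
  set SS := SJ ℓ lam J L with hSSdef
  set AA := AJ ℓ lam J L with hAAdef
  set S := ∑ D ∈ J, wJ ℓ lam L D * (1 - cl (edgeTo x D) ω) with hSdef
  set A := ∑ D ∈ J, rhoJ ℓ lam L D * (1 - cl (edgeTo x D) ω) with hAdef
  set W' := ∑ D ∈ Jᶜ, wJ ℓ lam L D * (1 - cl (edgeTo x D) ω) with hW'def
  set R' := ∑ D ∈ Jᶜ, rhoJ ℓ lam L D * (1 - cl (edgeTo x D) ω) with hR'def
  set c := ∑ D ∈ J, wJ ℓ lam L D * cl (edgeTo x D) ω with hcdef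
  set q := ∑ D ∈ Jᶜ, rhoJ ℓ lam L D * cl (edgeTo x D) ω with hqdef
  have hS0 : 0 < S := lt_of_lt_of_le hes hSo
  have hSS0 : 0 < SS := by linarith
  have hAS : A / S ≤ γ := by
    rw [div_le_iff₀ hS0]
    exact hA1
  have hAS0 : 0 ≤ A / S := div_nonneg hA0 hS0.le
  by_cases hc : ∃ D ∈ J, edgeTo x D ∉ ω
  · obtain ⟨D₀, hD₀, hcl⟩ := hc
    have hcl1 : cl (edgeTo x D₀) ω = 1 := by
      unfold cl
      rw [if_neg hcl]
    have hc1 : 1 ≤ ∑ D ∈ J, cl (edgeTo x D) ω := by
      rw [← hcl1]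
      exact Finset.single_le_sum (f := fun D => cl (edgeTo x D) ω)
        (fun D _ => cl_nonneg _ _) hD₀
    have hce : Real.exp (-s) ≤ c := by
      have h1 := wJ_ge hG hlam hs hD₀
      have h2 : wJ ℓ lam L D₀ * cl (edgeTo x D₀) ω ≤ c :=
        Finset.single_le_sum (f := fun D => wJ ℓ lam L D * cl (edgeTo x D) ω)
          (fun D _ => mul_nonneg (wJ_pos D).le (cl_nonneg _ _)) hD₀
      rw [hcl1, mul_one] at h2
      linarith
    have hSc : S = SS - c := e1
    by_cases hc' : ∃ D ∈ Jᶜ, edgeTo x D ∉ ω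
    · -- both
      obtain ⟨D₁, hD₁, hcl₁⟩ := hc'
      have hc2 : 1 ≤ ∑ D ∈ Jᶜ, cl (edgeTo x D) ω := by
        have h1 : cl (edgeTo x D₁) ω = 1 := by
          unfold cl
          rw [if_neg hcl₁]
        rw [← h1]
        exact Finset.single_le_sum (f := fun D => cl (edgeTo x D) ω)
          (fun D _ => cl_nonneg _ _) hD₁
      have hcc : 1 ≤ (∑ D ∈ J, cl (edgeTo x D) ω) * ∑ D ∈ Jᶜ, cl (edgeTo x D) ω :=
        one_le_mul_of_one_le_of_one_le hc1 hc2
      have g1 : AA / (SS + W) ≤ AA / SS := div_le_div_of_nonneg_left hAJ0 hSS0 (by linarith)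
      have g2 : R / (SS + W) ≤ R := div_le_self hR.le (by linarith)
      have g3 : A / (S + W') ≤ (A + R') / (S + W') :=
        div_le_div_of_nonneg_right (by linarith) (by linarith)
      have g4 : A / S - A / (S + W') ≤ R := by
        have h1 : A / S - A / (S + W') = W' * (A / S) / (S + W') := by
          have hSW : S + W' ≠ 0 := by linarith
          field_simp
          ring
        rw [h1]
        have h2 : W' * (A / S) / (S + W') ≤ W * γ / (S + W') := by
          refine div_le_div_of_nonneg_right ?_ (by linarith)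
          exact mul_le_mul e3 hAS hAS0 hW0
        have h3 : W * γ / (S + W') ≤ W * γ / Real.exp (-s) :=
          div_le_div_of_nonneg_left (mul_nonneg hW0 hγ) hes (by linarith)
        have h4 : W * γ ≤ R * (γ / δ) := by
          have h5 := mul_le_mul_of_nonneg_right hWR (div_nonneg hγ hδ.le)
          have h6 : δ * W * (γ / δ) = W * γ := by
            field_simp
          rw [h6] at h5
          exact h5
        have h5 : γ / δ ≤ Real.exp (-s) := by
          have h6 : γ / δ ≤ (2 * d + 1) * (γ / δ) := by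
            have h7 : 0 ≤ γ / δ := div_nonneg hγ hδ.le
            have h8 : (0:ℝ) ≤ d := Nat.cast_nonneg d
            exact le_mul_of_one_le_left h7 (by linarith)
          have h7 : η₁ * Real.exp (-s) ≤ 1 * Real.exp (-s) :=
            mul_le_mul_of_nonneg_right hη1 hes.le
          linarith
        have h6 : W * γ / Real.exp (-s) ≤ R := by
          rw [div_le_iff₀ hes]
          exact h4.trans (mul_le_mul_of_nonneg_left h5 hR.le)
        linarith
      have g5 : (1 - η₁) * R / ((SS + W) * (SS + W - Real.exp (-s))) * c ≤ R := by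
        have n1 : 0 < SS + W := by linarith
        have n2 : 0 < SS + W - Real.exp (-s) := by linarith
        have h1 : c ≤ SS + W - Real.exp (-s) := by linarith
        rw [div_mul_eq_mul_div, div_le_iff₀ (mul_pos n1 n2)]
        have h2 : (1 - η₁) * R * c ≤ R * (SS + W - Real.exp (-s)) := by
          have h3 : (1 - η₁) * R ≤ R := by
            have := mul_nonneg hη0 hR.le
            linarith
          exact mul_le_mul h3 h1 (by linarith) hR.le
        have h3 : R * (SS + W - Real.exp (-s)) ≤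
            R * ((SS + W) * (SS + W - Real.exp (-s))) :=
          mul_le_mul_of_nonneg_left (le_mul_of_one_le_left n2.le (by linarith)) hR.le
        linarith
      have g6 : 0 ≤ 1 / (SS + W) * q :=
        mul_nonneg (div_nonneg zero_le_one (by linarith)) e6
      have g7 : 3 * R * 1 ≤
          3 * R * ((∑ D ∈ J, cl (edgeTo x D) ω) * ∑ D ∈ Jᶜ, cl (edgeTo x D) ω) :=
        mul_le_mul_of_nonneg_left hcc (by linarith)
      have g8 : (AA + R) / (SS + W) = AA / (SS + W) + R / (SS + W) := add_div _ _ _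
      linarith
    · -- only edges of `J`
      push Not at hc'
      have hcl0 : ∀ D ∈ Jᶜ, cl (edgeTo x D) ω = 0 := by
        intro D hD
        unfold cl
        rw [if_pos (hc' D hD)]
      have f1 : R' = R := by
        rw [hR'def, hRdef]
        unfold RJ
        exact Finset.sum_congr rfl fun D hD => by rw [hcl0 D hD]; ring
      have f2 : W' = W := by
        rw [hW'def, hWdef]
        unfold WJ
        exact Finset.sum_congr rfl fun D hD => by rw [hcl0 D hD]; ring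
      have f3 : q = 0 := Finset.sum_eq_zero fun D hD => by rw [hcl0 D hD, mul_zero]
      have f4 : ∑ D ∈ Jᶜ, cl (edgeTo x D) ω = 0 := Finset.sum_eq_zero hcl0
      rw [f1, f2, f3, f4, mul_zero, mul_zero, mul_zero, add_zero, add_zero]
      have n1 : 0 < SS + W := by linarith
      have n2 : 0 < SS + W - Real.exp (-s) := by linarith
      have n3 : 0 < S + W := by linarith
      -- the identity
      have i1 : (AA + R) / (SS + W) - (A + R) / (S + W) =
          (AA / SS - A / S) - R * c / ((SS + W) * (S + W)) +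
            (W * (A / S) / (S + W) - W * (AA / SS) / (SS + W)) := by
        have hSne : S ≠ 0 := hS0.ne'
        have hSSne : SS ≠ 0 := hSS0.ne'
        have hcS : c = SS - S := by linarith
        rw [hcS]
        field_simp
        ring
      have i2 : 0 ≤ W * (AA / SS) / (SS + W) :=
        div_nonneg (mul_nonneg hW0 (div_nonneg hAJ0 hSS0.le)) n1.le
      have i3 : W * (A / S) / (S + W) ≤ η₁ * (R * c / ((SS + W) * (S + W))) := by
        have h1 : η₁ * (R * c / ((SS + W) * (S + W))) = (η₁ * R * c / (SS + W)) / (S + W) := by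
          field_simp
        rw [h1]
        refine div_le_div_of_nonneg_right ?_ n3.le
        rw [le_div_iff₀ n1]
        have h4 : W * (A / S) ≤ R * (γ / δ) := by
          have h5 := mul_le_mul_of_nonneg_right hWR (div_nonneg hγ hδ.le)
          have h6 : δ * W * (γ / δ) = W * γ := by
            field_simp
          rw [h6] at h5
          exact (mul_le_mul_of_nonneg_left hAS hW0).trans h5
        have h5 : SS + W ≤ 2 * d + 1 := by linarith
        have h6 : 0 ≤ R * (γ / δ) := mul_nonneg hR.le (div_nonneg hγ hδ.le)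
        calc W * (A / S) * (SS + W) ≤ R * (γ / δ) * (2 * d + 1) :=
              mul_le_mul h4 h5 n1.le h6
          _ = R * ((2 * d + 1) * (γ / δ)) := by ring
          _ ≤ R * (η₁ * Real.exp (-s)) := mul_le_mul_of_nonneg_left hηs hR.le
          _ ≤ R * (η₁ * c) :=
              mul_le_mul_of_nonneg_left (mul_le_mul_of_nonneg_left hce hη0) hR.le
          _ = η₁ * R * c := by ring
      have i4 : (1 - η₁) * R / ((SS + W) * (SS + W - Real.exp (-s))) * c ≤
          (1 - η₁) * (R * c / ((SS + W) * (S + W))) := by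
        have h1 : (1 - η₁) * R / ((SS + W) * (SS + W - Real.exp (-s))) * c =
            (1 - η₁) * (R * c / ((SS + W) * (SS + W - Real.exp (-s)))) := by
          ring
        rw [h1]
        refine mul_le_mul_of_nonneg_left ?_ (by linarith)
        refine div_le_div_of_nonneg_left (mul_nonneg hR.le (by linarith)) (mul_pos n1 n3) ?_
        refine mul_le_mul_of_nonneg_left ?_ n1.le
        linarith
      linarith
  · push Not at hc
    have hcl0 : ∀ D ∈ J, cl (edgeTo x D) ω = 0 := by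
      intro D hD
      unfold cl
      rw [if_pos (hc D hD)]
    have f1 : A = AA := Finset.sum_congr rfl fun D hD => by rw [hcl0 D hD]; ring
    have f2 : S = SS := Finset.sum_congr rfl fun D hD => by rw [hcl0 D hD]; ring
    have f3 : c = 0 := Finset.sum_eq_zero fun D hD => by rw [hcl0 D hD, mul_zero]
    have f4 : ∑ D ∈ J, cl (edgeTo x D) ω = 0 := Finset.sum_eq_zero hcl0
    rw [f1, f2, f3, f4, mul_zero, zero_mul, mul_zero, sub_zero, add_zero, sub_self, add_zero]
    have g1 : (AA + R') / (SS + W) ≤ (AA + R') / (SS + W') :=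
      div_le_div_of_nonneg_left (by linarith) (by linarith) (by linarith)
    have g2 : 1 / (SS + W) * q = (AA + R) / (SS + W) - (AA + R') / (SS + W) := by
      rw [e2, ← sub_div]
      ring
    rw [g2]
    linarith

end Pool.Agent.P2ec0u
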