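import Pool.Agent.Lib.P2ec0u.GeomU
import Pool.Agent.Lib.P2ec0h.RecsJ

/-!
# Expectations, with a general bound for the steps that are not forward
-/

open MeasureTheory ProbabilityTheory Filter Topology Function
open scoped unitInterval ENNReal

namespace Pool.Agent.P2ec0u

open Pool.Agent.P2ec0f3 Pool.Agent.P2ec0g Pool.Agent.P2ec0h

variable {d : ℕ} {ℓ ℓ' : Fin d → ℝ} {lam : ℝ} {J : Finset (Fin d × Bool)} {ω : Set (Edge d)}
  {x : Vtx d} {L' δ' η : ℝ}

lemma drift_hJ_leU (hG : GapJ ℓ' J L' δ') {g : ℤ → ℝ} (hg : Antitone g) :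
    drift ℓ lam ω (fun y => g (hJ J y)) x ≤
      pJ ℓ lam ω J x * (g (hJ J x + 1) - g (hJ J x)) +
      (∑ D ∈ Jᶜ, sp ℓ lam ω x D) * (g (hJ J x - 1) - g (hJ J x)) := by
  classical
  rw [drift_eq, ← Finset.sum_add_sum_compl J, pJ, Finset.sum_mul, Finset.sum_mul]
  refine add_le_add (Finset.sum_le_sum fun D hD => ?_) (Finset.sum_le_sum fun D hD => ?_)
  · rw [hJ_nbr, dJ_mem hG hD]
  · refine mul_le_mul_of_nonneg_left ?_ (sp_nonneg ..)
    rw [hJ_nbr]
    have := hg (show hJ J x - 1 ≤ hJ J x + dJ J D by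
      have := neg_one_le_dJ hG D
      omega)
    linarith

lemma abs_drift_lfJ_leU (hG : GapJ ℓ' J L' δ') (a : ℤ) :
    |drift ℓ lam ω (fun y => lf (hJ J y - a)) x| ≤ 1 / 2 := by
  rw [drift_eq]
  refine (Finset.abs_sum_le_sum_abs _ _).trans ?_
  have h1 : ∀ D ∈ (Finset.univ : Finset (Fin d × Bool)),
      |sp ℓ lam ω x D * (lf (hJ J (nbr x D) - a) - lf (hJ J x - a))| ≤
        sp ℓ lam ω x D * (1 / 2) := by
    intro D _
    rw [abs_mul, abs_of_nonneg (sp_nonneg ..)]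
    refine mul_le_mul_of_nonneg_left ?_ (sp_nonneg ..)
    rw [hJ_nbr, show hJ J x + dJ J D - a = (hJ J x - a) + dJ J D by ring]
    exact abs_lf_add_le _ (dJ_cases hG D)
  refine (Finset.sum_le_sum h1).trans ?_
  rw [← Finset.sum_mul]
  have := sum_sp_le ℓ lam ω x
  linarith

/-- The drift of the Lyapunov function at an unblocked vertex. -/
lemma drift_lfJ_openU (hG : GapJ ℓ' J L' δ')
    (hQ : ∀ x, ¬ Blk J ω x → ∑ D ∈ Jᶜ, sp ℓ lam ω x D ≤ η) (hη : η ≤ 1 / 100)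
    (h : ¬ Blk J ω x) (a : ℤ) {θ : ℤ → ℝ} (hθ1 : ∀ k, k ≤ 0 → θ k ≤ 2 / 5)
    (hθ2 : ∀ k, 0 < k → θ k ≤ 2 / 5 * lf k) :
    drift ℓ lam ω (fun y => lf (hJ J y - a)) x ≤ - θ (hJ J x - a) := by
  have hanti : Antitone (fun k : ℤ => lf (k - a)) := fun i j hij => lf_antitone (by omega)
  have h0 := drift_hJ_leU (ℓ := ℓ) (lam := lam) (ω := ω) (x := x) hG hanti
  have h1 := hQ x h
  have h2 := pJ_add (J := J) (total_ne_zero' (ℓ := ℓ) (lam := lam) h)
  refine h0.trans ?_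
  set P := pJ ℓ lam ω J x with hP
  set Q := ∑ D ∈ Jᶜ, sp ℓ lam ω x D with hQ
  have hQ0 : 0 ≤ Q := Finset.sum_nonneg fun _ _ => sp_nonneg ..
  have hP0 : 0 ≤ P := pJ_nonneg
  have hP1 : P ≤ 1 := pJ_le_one
  have hP2 : 99 / 100 ≤ P := by linarith
  have hQ1 : Q ≤ 1 / 100 := by linarith
  set k := hJ J x - a with hk
  have e1 : hJ J x + 1 - a = k + 1 := by rw [hk]; ring
  have e2 : hJ J x - 1 - a = k - 1 := by rw [hk]; ring
  simp only [e1, e2]
  rcases le_or_gt k 0 with hk0 | hk0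
  · rw [lf_succ_of_nonpos hk0, lf_pred_of_nonpos hk0]
    have := hθ1 k hk0
    nlinarith
  · rw [lf_succ_of_pos hk0, lf_pred_of_pos hk0]
    have hl := lf_nonneg k
    have := hθ2 k hk0
    have h3 : P * (lf k / 2 - lf k) + Q * (2 * lf k - lf k) = lf k * (Q - P / 2) := by ring
    rw [h3]
    have h4 : lf k * (Q - P / 2) ≤ lf k * (- (2 / 5)) :=
      mul_le_mul_of_nonneg_left (by linarith) hl
    linarith

variable (ω) in
/-- One step of the Lyapunov function. -/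
lemma elJ_succ_leU (hG : GapJ ℓ' J L' δ')
    (hQ : ∀ x, ¬ Blk J ω x → ∑ D ∈ Jᶜ, sp ℓ lam ω x D ≤ η) (hη : η ≤ 1 / 100) {θ : ℤ → ℝ}
    (hθ : ∀ k, |θ k| ≤ 2) (hθ1 : ∀ k, k ≤ 0 → θ k ≤ 2 / 5)
    (hθ2 : ∀ k, 0 < k → θ k ≤ 2 / 5 * lf k) (n : ℕ) :
    elJ ℓ lam J ω (n + 1) ≤ elJ ℓ lam J ω n + 1 / 2 * BJ ℓ lam J ω n - TH ℓ lam J ω θ n
      + 3 / 2 * CJ ℓ lam J ω n := by
  classical
  set T := quenched ℓ lam ω with hT
  have hsub : ∀ X : ℕ → Vtx d, X n ∈ box d n → X n ∈ box d (n + 1) := fun X h =>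
    box_mono (Nat.le_succ n) h
  have h01 : ∀ X n, 0 ≤ al J ω X n := fun X n => by have := one_le_al J ω X n; omega
  have i1 : Integrable (fun X => lf (hJ J (X (n + 1)) - al J ω X n)) T := by
    have hp : PastA (n + 1) (fun X : ℕ → Vtx d => lf (hJ J (X (n + 1)) - al J ω X n)) := by
      intro X Y h
      have h1 : al J ω X n = al J ω Y n := pastA_al J ω n X Y fun m hm => h m (by omega)
      simp only
      rw [h (n + 1) le_rfl, h1]
    refine hp.integrable ℓ lam ω (C := 2 * (J.card * (n + 1)) + 2) ?_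
    filter_upwards [ae_good ℓ lam ω] with X hX
    exact abs_lfJ ω hX.2 n (hX.2 (n + 1)) (h01 X n) le_rfl
  have i2 : Integrable (fun X => lf (hJ J (X n) - al J ω X n)) T := by
    refine (pastA_fun J ω n (fun x a _ => lf (hJ J x - a))).integrable ℓ lam ω
      (C := 2 * (J.card * (n + 1)) + 2) ?_
    filter_upwards [ae_good ℓ lam ω] with X hX
    exact abs_lfJ ω hX.2 n (hsub X (hX.2 n)) (h01 X n) le_rfl
  have i3 : Integrable (fun X => lf (hJ J (X (n + 1)) - al J ω X (n + 1))) T := by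
    refine (pastA_fun J ω (n + 1) (fun x a _ => lf (hJ J x - a))).integrable ℓ lam ω
      (C := 2 * (J.card * (((n + 1 : ℕ) : ℝ) + 1)) + 2) ?_
    filter_upwards [ae_good ℓ lam ω] with X hX
    exact abs_lfJ ω hX.2 (n + 1) (box_mono (Nat.le_succ _) (hX.2 (n + 1))) (h01 X (n + 1)) le_rfl
  have i4 : Integrable (fun X => drift ℓ lam ω (fun y => lf (hJ J y - al J ω X n)) (X n)) T :=
    (pastA_fun J ω n (fun x a _ => drift ℓ lam ω (fun y => lf (hJ J y - a)) x)).integrable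
      ℓ lam ω (C := 1 / 2) (ae_of_all _ fun X => abs_drift_lfJ_leU hG _)
  set sB : Set (Vtx d) := {x | Blk J ω x} with hsB
  have i5 := integrable_indJ ℓ lam ω n sB
  have i6 : Integrable (fun X => ({X | al J ω X n < al J ω X (n + 1)} :
      Set (ℕ → Vtx d)).indicator (fun _ => (1 : ℝ)) X) T :=
    (integrable_const _).indicator (measurableSet_changeJ J ω n)
  have i7 := integrable_phi ℓ lam J ω n hθ
  have s1 : elJ ℓ lam J ω (n + 1) ≤ ∫ X, lf (hJ J (X (n + 1)) - al J ω X n) ∂T +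
      3 / 2 * CJ ℓ lam J ω n := by
    have h1 : elJ ℓ lam J ω (n + 1) ≤ ∫ X, (lf (hJ J (X (n + 1)) - al J ω X n) +
      3 / 2 * ({X | al J ω X n < al J ω X (n + 1)} : Set (ℕ → Vtx d)).indicator
        (fun _ => (1 : ℝ)) X) ∂T :=
      integral_mono i3 (i1.add (i6.const_mul _)) fun X => lf_al_succ J ω X n
    rw [integral_add i1 (i6.const_mul _), integral_const_mul,
      integral_indicator_const _ (measurableSet_changeJ J ω n), smul_eq_mul, mul_one] at h1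
    exact h1
  have s2 : ∫ X, lf (hJ J (X (n + 1)) - al J ω X n) ∂T =
      ∫ X, (lf (hJ J (X n) - al J ω X n) +
        drift ℓ lam ω (fun y => lf (hJ J y - al J ω X n)) (X n)) ∂T :=
    integral_stepA ℓ lam ω (pastA_al J ω n) (fun y a => lf (hJ J y - a))
      (C := 2 * (J.card * (n + 1)) + 2) (by
      filter_upwards [ae_good ℓ lam ω] with X hX
      intro y hy
      exact abs_lfJ ω hX.2 n hy (h01 X n) le_rfl)
  have j1 : Integrable (fun X : ℕ → Vtx d => 1 / 2 * sB.indicator (fun _ => (1 : ℝ)) (X n)) T :=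
    i5.const_mul _
  have s3 : ∫ X, (lf (hJ J (X n) - al J ω X n) +
        drift ℓ lam ω (fun y => lf (hJ J y - al J ω X n)) (X n)) ∂T ≤
      ∫ X, (lf (hJ J (X n) - al J ω X n) + (1 / 2 * sB.indicator (fun _ => (1 : ℝ)) (X n)
        - phi J ω θ (X n) (al J ω X n))) ∂T := by
    refine integral_mono_ae (i2.add i4) (i2.add (j1.sub i7)) ?_
    filter_upwards [ae_good ℓ lam ω] with X hX
    refine add_le_add le_rfl ?_
    by_cases hB : Blk J ω (X n)
    · have hb : X n ∈ sB := hB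
      rw [Set.indicator_of_mem hb]
      have := abs_drift_lfJ_leU (ℓ := ℓ) (lam := lam) (ω := ω) (x := X n) hG (al J ω X n)
      have h2 : phi J ω θ (X n) (al J ω X n) = 0 := by
        unfold phi
        rw [if_pos hB]
      rw [h2]
      linarith [(abs_le.1 this).2]
    · have hb : X n ∉ sB := hB
      rw [Set.indicator_of_notMem hb]
      have := drift_lfJ_openU hG hQ hη hB (al J ω X n) hθ1 hθ2
      have h2 : phi J ω θ (X n) (al J ω X n) = θ (hJ J (X n) - al J ω X n) := by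
        unfold phi
        rw [if_neg hB]
      rw [h2]
      linarith
  have s4 : ∫ X, (lf (hJ J (X n) - al J ω X n) + (1 / 2 * sB.indicator (fun _ => (1 : ℝ)) (X n)
        - phi J ω θ (X n) (al J ω X n))) ∂T =
      ∫ X, lf (hJ J (X n) - al J ω X n) ∂T + (1 / 2 * (lawAt ℓ lam ω n).real sB
        - ∫ X, phi J ω θ (X n) (al J ω X n) ∂T) := by
    rw [← integral_ind ℓ lam ω n sB, ← integral_const_mul, ← integral_sub j1 i7]
    exact integral_add i2 (j1.sub i7)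
  rw [s4] at s3
  have e1 : elJ ℓ lam J ω n = ∫ X, lf (hJ J (X n) - al J ω X n) ∂T := rfl
  have e2 : BJ ℓ lam J ω n = (lawAt ℓ lam ω n).real sB := rfl
  have e3 : TH ℓ lam J ω θ n = ∫ X, phi J ω θ (X n) (al J ω X n) ∂T := rfl
  rw [e1, e2, e3]
  linarith

variable (ω) in
lemma sum_TH_leU (hG : GapJ ℓ' J L' δ')
    (hQ : ∀ x, ¬ Blk J ω x → ∑ D ∈ Jᶜ, sp ℓ lam ω x D ≤ η) (hη : η ≤ 1 / 100) {θ : ℤ → ℝ}
    (hθ : ∀ k, |θ k| ≤ 2) (hθ1 : ∀ k, k ≤ 0 → θ k ≤ 2 / 5)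
    (hθ2 : ∀ k, 0 < k → θ k ≤ 2 / 5 * lf k) (N : ℕ) :
    ∑ n ∈ Finset.range N, TH ℓ lam J ω θ n ≤ 3 / 2 +
      1 / 2 * ∑ n ∈ Finset.range N, BJ ℓ lam J ω n +
      3 / 2 * ∑ n ∈ Finset.range N, CJ ℓ lam J ω n := by
  have h : elJ ℓ lam J ω N ≤ 3 / 2 + 1 / 2 * ∑ n ∈ Finset.range N, BJ ℓ lam J ω n
      - ∑ n ∈ Finset.range N, TH ℓ lam J ω θ n
      + 3 / 2 * ∑ n ∈ Finset.range N, CJ ℓ lam J ω n := by
    induction N with
    | zero => simp [elJ_zero]
    | succ N ih =>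
      have := elJ_succ_leU ω hG hQ hη hθ hθ1 hθ2 N
      rw [Finset.sum_range_succ, Finset.sum_range_succ, Finset.sum_range_succ]
      linarith
  have := elJ_nonneg ℓ lam J ω N
  linarith

end Pool.Agent.P2ec0u
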