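import Pool.Agent.Lib.P2ec0u.GeomU

/-!
# The separation of the scales
-/

namespace Pool.Agent.P2ec0u

/-- The scales `s` and `σ` are well separated. -/
structure Scale0 (d : ℕ) (s σ : ℝ) : Prop where
  s0 : 0 ≤ s
  lt : s < σ
  one : 1 ≤ σ
  nu : s / σ ≤ (Real.exp (-s) / (1000 * (d : ℝ) ^ 4)) ^ (2 * d + 2)
  eps : Real.exp (-σ) ≤ (Real.exp (-s) / (1000 * (d : ℝ) ^ 4)) ^ (2 * d + 2)

end Pool.Agent.P2ec0u
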