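import Pool.Agent.Lib.P2ec0u.AnnU
import Pool.Agent.Lib.P2ec0u.ScaleDef

/-!
# The arithmetic of the two regimes, nearly maximal directions
-/

open MeasureTheory ProbabilityTheory Filter Topology Function
open scoped unitInterval ENNReal

namespace Pool.Agent.P2ec0u

open Pool.Agent.P2ec0f3 Pool.Agent.P2ec0g Pool.Agent.P2ec0h

variable {d : ℕ} {ℓ : Fin d → ℝ} {lam : ℝ} {J : Finset (Fin d × Bool)} {L γ δ : ℝ}

/-- The common estimates; `u = e^{-s} / (1000 d⁴)` and `t = u^(2d+1)`. -/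
lemma basicsU {s sg u t : ℝ} (hd : 2 ≤ d) (hG : GapU ℓ J L γ δ) (hlam : 0 < lam)
    (hs : lam * γ = s) (hsg : lam * δ = sg) (hsc : Scale0 d s sg)
    (hu : u = Real.exp (-s) / (1000 * (d : ℝ) ^ 4)) (ht : t = u ^ (2 * d + 1)) :
    0 < u ∧ 1000 * (d : ℝ) ^ 4 * u ≤ 1 ∧ Real.exp (-s) = 1000 * (d : ℝ) ^ 4 * u ∧
    0 < t ∧ t ≤ u / 10 ^ 6 ∧ RJ ℓ lam J L ≤ 2 * d * (u * t) * δ ∧
    WJ ℓ lam J L ≤ 2 * d * (u * t) ∧ γ ≤ u * t * δ ∧
    Real.exp s * (u * t) * (1000 * (d : ℝ) ^ 4) = t ∧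
    t = u * u ^ (2 * d) := by
  have hD2 : (2 : ℝ) ≤ d := by exact_mod_cast hd
  have hD4 : (16 : ℝ) ≤ (d : ℝ) ^ 4 := by
    calc (16 : ℝ) = 2 ^ 4 := by norm_num
      _ ≤ (d : ℝ) ^ 4 := pow_le_pow_left₀ (by norm_num) hD2 4
  have hes := Real.exp_pos (-s)
  have hes1 : Real.exp (-s) ≤ 1 := Real.exp_le_one_iff.2 (by linarith [hsc.s0])
  have hK : 0 < 1000 * (d : ℝ) ^ 4 := by positivity
  have hu0 : 0 < u := by rw [hu]; positivity
  have hE : Real.exp (-s) = 1000 * (d : ℝ) ^ 4 * u := by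
    rw [hu]; field_simp
  have hu1 : 1000 * (d : ℝ) ^ 4 * u ≤ 1 := by rw [← hE]; exact hes1
  have hu2 : u ≤ 1 / 16000 := by
    have : 16000 * u ≤ 1000 * (d : ℝ) ^ 4 * u :=
      mul_le_mul_of_nonneg_right (by linarith) hu0.le
    linarith
  have hu3 : u ≤ 1 := by linarith
  have ht0 : 0 < t := by rw [ht]; exact pow_pos hu0 _
  have htu : t = u * u ^ (2 * d) := by rw [ht, pow_succ]; ring
  have ht1 : t ≤ u / 10 ^ 6 := by
    have h1 : u ^ (2 * d) ≤ u ^ 2 := pow_le_pow_of_le_one hu0.le hu3 (by omega)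
    have h2 : u ^ 2 ≤ (1 / 16000) ^ 2 := pow_le_pow_left₀ hu0.le hu2 2
    have h3 : u ^ (2 * d) ≤ 1 / 10 ^ 6 := by
      refine (h1.trans h2).trans ?_
      norm_num
    rw [htu]
    have := mul_le_mul_of_nonneg_left h3 hu0.le
    linarith
  have hT : u ^ (2 * d + 2) = u * t := by rw [ht, ← pow_succ']
  have hε : Real.exp (-(lam * δ)) ≤ u * t := by
    rw [hsg, ← hT, hu]
    exact hsc.eps
  have hν : γ / δ ≤ u * t := by
    have h1 : γ / δ = s / sg := by
      rw [← hs, ← hsg, mul_div_mul_left _ _ hlam.ne']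
    rw [h1, ← hT, hu]
    exact hsc.nu
  refine ⟨hu0, hu1, hE, ht0, ht1, ?_, ?_, ?_, ?_, htu⟩
  · exact RU_le hG (by rw [hsg]; exact hsc.one) hε
  · exact WU_le' hG hlam hε
  · rw [div_le_iff₀ hG.pos] at hν
    exact hν
  · have h1 : Real.exp s * Real.exp (-s) = 1 := by rw [← Real.exp_add]; simp
    rw [hE] at h1
    linear_combination t * h1

lemma lossU (hG : GapU ℓ J L γ δ) : 0 ≤ L - fs ℓ lam ∧
    L - fs ℓ lam ≤ γ + RJ ℓ lam J L := by
  have hS := one_le_SJ (lam := lam) hG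
  have hW := WJ_nonneg (ℓ := ℓ) (lam := lam) (J := J) (L := L)
  have hR := RU_pos (lam := lam) hG
  have hA0 := AJ_nonneg (lam := lam) hG
  have hA := AJ_le (lam := lam) hG
  have hfs : L - fs ℓ lam =
      (AJ ℓ lam J L + RJ ℓ lam J L) / (SJ ℓ lam J L + WJ ℓ lam J L) := by
    rw [fs_eqU hG]
    ring
  rw [hfs]
  constructor
  · exact div_nonneg (by linarith) (by linarith)
  · rw [div_le_iff₀ (by linarith)]
    have h1 : 0 ≤ γ * WJ ℓ lam J L := mul_nonneg hG.nn hW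
    have h2 : RJ ℓ lam J L * 1 ≤ RJ ℓ lam J L * (SJ ℓ lam J L + WJ ℓ lam J L) :=
      mul_le_mul_of_nonneg_left (by linarith) hR.le
    linarith

/-- The first regime. -/
lemma conclU1 {s sg u : ℝ} (hd : 2 ≤ d) (hG : GapU ℓ J L γ δ) (hlam : 0 < lam)
    (hs : lam * γ = s) (hsg : lam * δ = sg) (hsc : Scale0 d s sg) (hm : 2 ≤ J.card)
    (hu : u = Real.exp (-s) / (1000 * (d : ℝ) ^ 4))
    {p : I} (hp : criticalParam d < p) {v : Fin d → ℝ} (hv : IsVelocity ℓ lam p v)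
    (hr0 : u ≤ 1 - (p : ℝ)) :
    ∑ j, v j * ℓ j ≤ fs ℓ lam - u * RJ ℓ lam J L * (1 - (p : ℝ)) := by
  obtain ⟨hu0, hu1, hE, ht0, ht1, hR, hW, hγ, hes, htu⟩ :=
    basicsU hd hG hlam hs hsg hsc hu rfl
  obtain ⟨hq0, hq1⟩ := lossU (lam := lam) hG
  have hR0 := RU_pos (lam := lam) hG
  have hW0 := WJ_nonneg (ℓ := ℓ) (lam := lam) (J := J) (L := L)
  have hδ := hG.pos
  have hD2 : (2 : ℝ) ≤ d := by exact_mod_cast hd
  have hp0 : 0 ≤ 1 - (p : ℝ) := by linarith [p.2.2]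
  set t := u ^ (2 * d + 1) with ht
  set R := RJ ℓ lam J L with hRdef
  set W := WJ ℓ lam J L with hWdef
  set D : ℝ := (d : ℝ) with hDdef
  set r : ℝ := 1 - (p : ℝ) with hr
  set q := L - fs ℓ lam with hqdef
  set P := u ^ (2 * d) with hP
  have hP0 : 0 < P := pow_pos hu0 _
  have hD4 : D ≤ D ^ 4 := by
    calc D = D ^ 1 := (pow_one D).symm
      _ ≤ D ^ 4 := pow_le_pow_right₀ (by linarith) (by norm_num)
  have hD24 : D ^ 2 ≤ D ^ 4 := pow_le_pow_right₀ (by linarith) (by norm_num)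
  have hDu : D * u ≤ 1 / 1000 := by
    have := mul_le_mul_of_nonneg_right hD4 hu0.le
    linarith
  have hD2u : D ^ 2 * u ≤ 1 / 1000 := by
    have := mul_le_mul_of_nonneg_right hD24 hu0.le
    linarith
  have hu3 : u ≤ 1 / 1000 := by
    have : 1 * u ≤ (d : ℝ) * u := mul_le_mul_of_nonneg_right (by linarith) hu0.le
    linarith
  have hu4 : u ≤ 1 := by linarith
  -- `R ≤ 2 D u² P δ`
  have hδP : 0 < δ * P := mul_pos hδ hP0
  have hR' : R ≤ u / 100 * (δ * P) := by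
    have h1 : 2 * D * (u * t) * δ = (D * u) * (2 * u * (δ * P)) := by rw [htu]; ring
    rw [h1] at hR
    have h2 : (D * u) * (2 * u * (δ * P)) ≤ 1 / 1000 * (2 * u * (δ * P)) :=
      mul_le_mul_of_nonneg_right hDu (by positivity)
    have h3 : 0 ≤ u * (δ * P) := by positivity
    linarith
  have hγ' : γ ≤ u * u * (δ * P) := by
    have h1 : u * t * δ = u * u * (δ * P) := by rw [htu]; ring
    rw [h1] at hγ
    exact hγ
  have hη : Real.exp s * W ≤ 1 / 100 := by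
    have h1 : Real.exp s * W ≤ Real.exp s * (2 * D * (u * t)) :=
      mul_le_mul_of_nonneg_left hW (Real.exp_pos s).le
    have h2 : Real.exp s * (u * t) * (1000 * D) ≤ Real.exp s * (u * t) * (1000 * D ^ 4) :=
      mul_le_mul_of_nonneg_left (by linarith) (by positivity)
    have h3 : t ≤ 1 / 100 := by linarith
    have h4 : 0 ≤ Real.exp s * (u * t) * D := by positivity
    linarith
  have hP1 : P ≤ 1 := pow_le_one₀ hu0.le hu4
  have hδPδ : δ * P ≤ δ := mul_le_of_le_one_right hδ.le hP1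
  have hq2 : q ≤ u / 50 * (δ * P) := by
    have h2 : u * u * (δ * P) ≤ u * (1 / 1000) * (δ * P) :=
      mul_le_mul_of_nonneg_right (mul_le_mul_of_nonneg_left hu3 hu0.le) hδP.le
    have h3 : 0 ≤ u * (δ * P) := by positivity
    linarith
  have hq3 : q ≤ δ / 50 := by
    have h2 : u / 50 * (δ * P) ≤ 1 / 50 * (δ * P) :=
      mul_le_mul_of_nonneg_right (by linarith) hδP.le
    linarith
  have h := reg1U hG hlam hs.le hη hq0 (by linarith) hp hv
  set V := ∑ j, v j * ℓ j with hV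
  have hpow : P * r ≤ r ^ J.card := by
    have h2 : r ^ J.card = r ^ (J.card - 1) * r := by
      rw [← pow_succ]
      congr 1
      omega
    rw [h2]
    refine mul_le_mul_of_nonneg_right ?_ hp0
    have hmd : J.card ≤ 2 * d := by
      have := card_le_two_mul J
      exact_mod_cast this
    calc P ≤ u ^ (J.card - 1) := pow_le_pow_of_le_one hu0.le hu4 (by omega)
      _ ≤ r ^ (J.card - 1) := pow_le_pow_left₀ hu0.le hr0 _
  have hη2 : (1 / 2 : ℝ) ≤ 1 - 2 * (Real.exp s * W) := by linarith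
  have hA3 : δ / 4 * (P * r) ≤ (δ - 9 / 4 * q) / 3 * r ^ J.card :=
    mul_le_mul (by linarith) hpow (by positivity) (by linarith)
  have hA4 : δ / 4 * (P * r) * (1 / 2) ≤
      (δ - 9 / 4 * q) / 3 * r ^ J.card * (1 - 2 * (Real.exp s * W)) :=
    mul_le_mul hA3 hη2 (by norm_num) (by
      have : 0 ≤ δ / 4 * (P * r) := by positivity
      linarith)
  have hB : 15 / 4 * q * (2 * D * r) ≤ 1 / 1000 * (δ * P) * r := by
    have h3 : 15 / 4 * q * (2 * D) ≤ 15 / 4 * (u / 50 * (δ * P)) * (2 * D) :=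
      mul_le_mul_of_nonneg_right (by linarith) (by positivity)
    have h4 : 15 / 4 * (u / 50 * (δ * P)) * (2 * D) = (D * u) * (3 / 20 * (δ * P)) := by ring
    have h5 : (D * u) * (3 / 20 * (δ * P)) ≤ 1 / 1000 * (3 / 20 * (δ * P)) :=
      mul_le_mul_of_nonneg_right hDu (by positivity)
    have h6 : 15 / 4 * q * (2 * D) ≤ 1 / 1000 * (δ * P) := by linarith
    have h7 := mul_le_mul_of_nonneg_right h6 hp0
    linarith
  have hC : u * R * r ≤ 1 / 1000 * (δ * P) * r := by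
    refine mul_le_mul_of_nonneg_right ?_ hp0
    have h3 : u * R ≤ 1 * R := mul_le_mul_of_nonneg_right hu4 hR0.le
    have h4 : u / 100 * (δ * P) ≤ (1 / 1000) / 100 * (δ * P) :=
      mul_le_mul_of_nonneg_right (by linarith) hδP.le
    linarith
  have hD' : 0 ≤ δ * P * r := by positivity
  linarith

end Pool.Agent.P2ec0u
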