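import Pool.Agent.Lib.P2ec0u.FinU

/-!
# The arithmetic of the second regime, nearly maximal directions
-/

open MeasureTheory ProbabilityTheory Filter Topology Function
open scoped unitInterval ENNReal

namespace Pool.Agent.P2ec0u

open Pool.Agent.P2ec0f3 Pool.Agent.P2ec0g Pool.Agent.P2ec0h

variable {d : ℕ} {ℓ : Fin d → ℝ} {lam : ℝ} {J : Finset (Fin d × Bool)} {L γ δ : ℝ}

/-- The second regime. -/
lemma conclU2 {s sg u : ℝ} (hd : 2 ≤ d) (hG : GapU ℓ J L γ δ) (hlam : 0 < lam)
    (hs : lam * γ = s) (hsg : lam * δ = sg) (hsc : Scale0 d s sg) (hm : 2 ≤ J.card)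
    (hu : u = Real.exp (-s) / (1000 * (d : ℝ) ^ 4))
    {p : I} (hp : criticalParam d < p) {v : Fin d → ℝ} (hv : IsVelocity ℓ lam p v)
    (hr0 : 1 - (p : ℝ) ≤ u) :
    ∑ j, v j * ℓ j ≤ fs ℓ lam - u * RJ ℓ lam J L * (1 - (p : ℝ)) := by
  obtain ⟨hu0, hu1, hE, ht0, ht1, hR, hW, hγ, hes, htu⟩ :=
    basicsU hd hG hlam hs hsg hsc hu rfl
  obtain ⟨hq0, hq1⟩ := lossU (lam := lam) hG
  have hR0 := RU_pos (lam := lam) hG
  have hW0 := WJ_nonneg (ℓ := ℓ) (lam := lam) (J := J) (L := L)
  have hWR := WU_le (lam := lam) hG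
  have hS1 := SJ_ge hG hlam hs.le hm
  have hS2 := SJ_le hG hlam
  have hmd := card_le_two_mul J
  have hmc := card_le_two_mul Jᶜ
  have hδ := hG.pos
  have hγ0 := hG.nn
  have hD2 : (2 : ℝ) ≤ d := by exact_mod_cast hd
  have hp0 : 0 ≤ 1 - (p : ℝ) := by linarith [p.2.2]
  set t := u ^ (2 * d + 1) with ht
  set E := Real.exp s with hEdef
  have hE0 : 0 < E := Real.exp_pos s
  set e := Real.exp (-s) with hedef
  have he0 : 0 < e := Real.exp_pos (-s)
  set R := RJ ℓ lam J L with hRdef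
  set W := WJ ℓ lam J L with hWdef
  set S := SJ ℓ lam J L with hSdef
  set m : ℝ := (J.card : ℝ) with hmdef
  set mc : ℝ := ((Jᶜ).card : ℝ) with hmcdef
  have hm0 : 0 ≤ m := Nat.cast_nonneg _
  have hmc0 : 0 ≤ mc := Nat.cast_nonneg _
  set D : ℝ := (d : ℝ) with hDdef
  set r : ℝ := 1 - (p : ℝ) with hr
  set q := L - fs ℓ lam with hqdef
  have hD0 : 0 < D := by linarith
  have hD14 : D ≤ D ^ 4 := by
    calc D = D ^ 1 := (pow_one D).symm
      _ ≤ D ^ 4 := pow_le_pow_right₀ (by linarith) (by norm_num)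
  have hD24 : D ^ 2 ≤ D ^ 4 := pow_le_pow_right₀ (by linarith) (by norm_num)
  have hD34 : D ^ 3 ≤ D ^ 4 := pow_le_pow_right₀ (by linarith) (by norm_num)
  have hDD : 4 ≤ D ^ 2 := by
    have : (2 : ℝ) * 2 ≤ D * D := mul_le_mul hD2 hD2 (by norm_num) hD0.le
    linarith
  have hDu : D * u ≤ 1 / 1000 := by
    have := mul_le_mul_of_nonneg_right hD14 hu0.le
    linarith
  have hD3u : D ^ 3 * u ≤ 1 / 1000 := by
    have := mul_le_mul_of_nonneg_right hD34 hu0.le
    linarith
  have hu3 : u ≤ 1 / 1000 := by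
    have : 1 * u ≤ (d : ℝ) * u := mul_le_mul_of_nonneg_right (by linarith) hu0.le
    linarith
  have ht2 : t ≤ 1 / 10 ^ 9 := by linarith
  -- the small quantities
  have hEt : E * (u * t) * D ≤ t / 1000 := by
    have h2 : E * (u * t) * (1000 * D) ≤ E * (u * t) * (1000 * D ^ 4) :=
      mul_le_mul_of_nonneg_left (by linarith) (by positivity)
    linarith
  have hEt4 : E * (u * t) * D ^ 4 = t / 1000 := by linarith
  set η := E * W with hηdef
  have hη0 : 0 ≤ η := mul_nonneg hE0.le hW0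
  have hη1 : η ≤ t := by
    have h1 : E * W ≤ E * (2 * D * (u * t)) := mul_le_mul_of_nonneg_left hW hE0.le
    linarith
  have hη3 : D ^ 3 * η ≤ t := by
    have h1 : D ^ 3 * (E * W) ≤ D ^ 3 * (E * (2 * D * (u * t))) :=
      mul_le_mul_of_nonneg_left (mul_le_mul_of_nonneg_left hW hE0.le) (by positivity)
    have h2 : D ^ 3 * (E * (2 * D * (u * t))) = 2 * (E * (u * t) * D ^ 4) := by ring
    rw [h2, hEt4] at h1
    linarith
  have hW1 : W ≤ t := by
    have h1 : 2 * D * (u * t) = (D * u) * (2 * t) := by ring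
    rw [h1] at hW
    have h2 : (D * u) * (2 * t) ≤ 1 / 1000 * (2 * t) :=
      mul_le_mul_of_nonneg_right hDu (by linarith)
    linarith
  -- `γ η ≤ (t / (1000 D⁴)) R`
  have hγη : D ^ 4 * (γ * η) ≤ t / 1000 * R := by
    have h1 : γ * (E * W) ≤ u * t * δ * (E * W) :=
      mul_le_mul_of_nonneg_right hγ hη0
    have h2 : u * t * δ * (E * W) ≤ E * (u * t) * R := by
      have h3 : u * t * δ * (E * W) = E * (u * t) * (δ * W) := by ring
      rw [h3]
      exact mul_le_mul_of_nonneg_left hWR (by positivity)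
    have h4 : D ^ 4 * (γ * (E * W)) ≤ D ^ 4 * (E * (u * t) * R) :=
      mul_le_mul_of_nonneg_left (h1.trans h2) (by positivity)
    have h5 : D ^ 4 * (E * (u * t) * R) = (E * (u * t) * D ^ 4) * R := by ring
    rw [h5, hEt4] at h4
    exact h4
  have hγη1 : D * (γ * η) ≤ t / 1000 * R := by
    have := mul_le_mul_of_nonneg_right hD14 (mul_nonneg hγ0 hη0)
    linarith
  have hγη2 : D ^ 2 * (γ * η) ≤ t / 1000 * R := by
    have := mul_le_mul_of_nonneg_right hD24 (mul_nonneg hγ0 hη0)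
    linarith
  have hη₁ : (2 * D + 1) * E * (γ / δ) ≤ t := by
    have h1 : γ / δ ≤ u * t := by
      rw [div_le_iff₀ hδ]
      exact hγ
    have h2 : (2 * D + 1) * E * (γ / δ) ≤ (2 * D + 1) * E * (u * t) :=
      mul_le_mul_of_nonneg_left h1 (by positivity)
    have h3 : (2 * D + 1) * E * (u * t) ≤ 3 * (E * (u * t) * D) := by
      have h4 : 0 ≤ E * (u * t) := by positivity
      have h5 : E * (u * t) * 1 ≤ E * (u * t) * D :=
        mul_le_mul_of_nonneg_left (by linarith) h4
      linarith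
    linarith
  -- the coefficients
  have haU : aU ℓ lam J L t s = (1 - t) * R / ((S + W) * (S + W - e)) := rfl
  have hbU : bU ℓ lam J L = 1 / (S + W) := rfl
  have hSW1 : 1 ≤ S + W - e := by linarith
  have hSW2 : 1 ≤ S + W := by linarith
  have hden : 0 < (S + W) * (S + W - e) := mul_pos (by linarith) (by linarith)
  have ha0 : 0 ≤ aU ℓ lam J L t s := by
    rw [haU]
    exact div_nonneg (mul_nonneg (by linarith) hR0.le) hden.le
  have haS : aU ℓ lam J L t s * S ≤ R := by
    rw [haU, div_mul_eq_mul_div, div_le_iff₀ hden]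
    have h1 : (1 - t) * R * S ≤ 1 * R * S :=
      mul_le_mul_of_nonneg_right (mul_le_mul_of_nonneg_right (by linarith) hR0.le)
        (by linarith)
    have h2 : S ≤ (S + W) * (S + W - e) := by
      have h3 : (S + W) * 1 ≤ (S + W) * (S + W - e) :=
        mul_le_mul_of_nonneg_left hSW1 (by linarith)
      linarith
    have h4 := mul_le_mul_of_nonneg_left h2 hR0.le
    linarith
  have hb1 : 1 / (S + W) ≤ 1 := by
    rw [div_le_one (by linarith)]
    exact hSW2
  have hmmc : m * mc ≤ 4 * D ^ 2 := by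
    have : m * mc ≤ (2 * D) * (2 * D) := mul_le_mul hmd hmc hmc0 (by linarith)
    linarith
  set M := γ * m + bU ℓ lam J L * R + 3 * R * (m * mc) with hMdef
  have hγm : γ * m ≤ γ * (2 * D) := mul_le_mul_of_nonneg_left hmd hγ0
  have hbR : bU ℓ lam J L * R ≤ 1 * R := by
    rw [hbU]
    exact mul_le_mul_of_nonneg_right hb1 hR0.le
  have h3R : 3 * R * (m * mc) ≤ 3 * R * (4 * D ^ 2) :=
    mul_le_mul_of_nonneg_left hmmc (by linarith)
  have hRD : R ≤ D ^ 2 * R / 4 := by
    have := mul_le_mul_of_nonneg_right hDD hR0.le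
    linarith
  have hM : M ≤ 2 * (D * γ) + 13 * (D ^ 2 * R) := by
    have h1 : 0 ≤ D ^ 2 * R := by positivity
    linarith
  have hD2R : D ^ 2 * R ≤ δ / 400 := by
    have h1 : D ^ 2 * R ≤ D ^ 2 * (2 * D * (u * t) * δ) :=
      mul_le_mul_of_nonneg_left hR (by positivity)
    have h2 : D ^ 2 * (2 * D * (u * t) * δ) = (D ^ 3 * u) * (2 * t * δ) := by ring
    have h3 : (D ^ 3 * u) * (2 * t * δ) ≤ 1 / 1000 * (2 * t * δ) :=
      mul_le_mul_of_nonneg_right hD3u (by positivity)
    have h4 : t * δ ≤ 1 * δ := mul_le_mul_of_nonneg_right (by linarith) hδ.le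
    linarith
  have hDγ : D * γ ≤ δ / 400 := by
    have h1 : D * γ ≤ D * (u * t * δ) := mul_le_mul_of_nonneg_left hγ hD0.le
    have h2 : D * (u * t * δ) = (D * u) * (t * δ) := by ring
    have h3 : (D * u) * (t * δ) ≤ 1 / 1000 * (t * δ) :=
      mul_le_mul_of_nonneg_right hDu (by positivity)
    have h4 : t * δ ≤ 1 * δ := mul_le_mul_of_nonneg_right (by linarith) hδ.le
    linarith
  have hγD : γ ≤ D * γ / 2 := by
    have := mul_le_mul_of_nonneg_right hD2 hγ0
    linarith
  have hcoef : 3 * (γ * m + aU ℓ lam J L t s * S) + 6 * M + q ≤ δ := by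
    have h1 : 0 ≤ D ^ 2 * R := by positivity
    have h2 : 0 ≤ D * γ := by positivity
    linarith
  have h := reg2U (M := M) hG hlam hs.le hm hη₁ (by linarith) (by linarith) (by linarith)
    ha0 le_rfl hcoef hp hv
  set V := ∑ j, v j * ℓ j with hV
  -- the main term
  have hmain : 40 * D ^ 2 * u * R + 1 / (S + W) * R ≤
      aU ℓ lam J L t s * S * (1 - 2 * η) := by
    have e1 : aU ℓ lam J L t s * S * (1 - 2 * η) - 1 / (S + W) * R =
        R * ((1 - t) * (1 - 2 * η) * S - (S + W - e)) / ((S + W) * (S + W - e)) := by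
      rw [haU]
      have n1 : S + W ≠ 0 := by linarith
      have n2 : S + W - e ≠ 0 := by linarith
      field_simp
    have e2 : e / 2 ≤ (1 - t) * (1 - 2 * η) * S - (S + W - e) := by
      have h2 : 1 - 3 * t ≤ (1 - t) * (1 - 2 * η) := by
        have : 0 ≤ t * η := mul_nonneg ht0.le hη0
        linarith
      have h7 : 1 * u ≤ D * u := mul_le_mul_of_nonneg_right (by linarith) hu0.le
      have h3 : (1 - 3 * t) * S ≤ (1 - t) * (1 - 2 * η) * S :=
        mul_le_mul_of_nonneg_right h2 (by linarith)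
      have h4 : 3 * t * S ≤ 3 * t * (2 * D) := mul_le_mul_of_nonneg_left hS2 (by linarith)
      have h5 : t * D ≤ u * D / 10 ^ 6 := by
        have := mul_le_mul_of_nonneg_right ht1 hD0.le
        linarith
      have h6 : D * u ≤ D ^ 4 * u := mul_le_mul_of_nonneg_right hD14 hu0.le
      linarith
    have e3 : (S + W) * (S + W - e) ≤ 9 * D ^ 2 := by
      have h2 : (S + W) * (S + W - e) ≤ (2 * D + 1) * (2 * D + 1) :=
        mul_le_mul (by linarith) (by linarith) (by linarith) (by linarith)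
      have h9 : 2 * D ≤ D * D := mul_le_mul_of_nonneg_right hD2 hD0.le
      linarith
    have e4 : 40 * D ^ 2 * u * R ≤
        R * ((1 - t) * (1 - 2 * η) * S - (S + W - e)) / ((S + W) * (S + W - e)) := by
      rw [le_div_iff₀ hden]
      have h2 : 40 * D ^ 2 * u * R * ((S + W) * (S + W - e)) ≤
          40 * D ^ 2 * u * R * (9 * D ^ 2) :=
        mul_le_mul_of_nonneg_left e3 (by positivity)
      have h3 : R * (e / 2) ≤ R * ((1 - t) * (1 - 2 * η) * S - (S + W - e)) :=
        mul_le_mul_of_nonneg_left e2 hR0.le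
      have h4 : R * (e / 2) = 500 * (D ^ 4 * u * R) := by rw [hE]; ring
      have h5 : 40 * D ^ 2 * u * R * (9 * D ^ 2) = 360 * (D ^ 4 * u * R) := by ring
      have h6 : 0 ≤ D ^ 4 * u * R := by positivity
      linarith
    linarith
  -- the errors
  have herr1 : γ * m * (2 * η) ≤ t / 100 * R := by
    have h1 : γ * m * (2 * η) ≤ γ * (2 * D) * (2 * η) :=
      mul_le_mul_of_nonneg_right hγm (by linarith)
    have h2 : γ * (2 * D) * (2 * η) = 4 * (D * (γ * η)) := by ring
    have h3 : 0 ≤ t * R := by positivity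
    linarith
  have herr2 : 57 / 2 * η * M * (2 * D) ≤ 750 * (t * R) := by
    have h1 : 57 / 2 * η * M * (2 * D) ≤
        57 / 2 * η * (2 * (D * γ) + 13 * (D ^ 2 * R)) * (2 * D) :=
      mul_le_mul_of_nonneg_right (mul_le_mul_of_nonneg_left hM (by linarith)) (by linarith)
    have h2 : 57 / 2 * η * (2 * (D * γ) + 13 * (D ^ 2 * R)) * (2 * D) =
        114 * (D ^ 2 * (γ * η)) + 741 * (D ^ 3 * η * R) := by ring
    have h3 : D ^ 3 * η * R ≤ t * R := mul_le_mul_of_nonneg_right hη3 hR0.le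
    have h4 : 0 ≤ t * R := by positivity
    linarith
  have herr3 : 3 * R * (m * mc * r ^ 2) ≤ 12 * (D ^ 2 * u * R) * r := by
    have h1 : m * mc * r ^ 2 ≤ 4 * D ^ 2 * r ^ 2 :=
      mul_le_mul_of_nonneg_right hmmc (by positivity)
    have h2 := mul_le_mul_of_nonneg_left h1 (by linarith : 0 ≤ 3 * R)
    have h3 : 3 * R * (4 * D ^ 2 * r ^ 2) = 12 * (D ^ 2 * r * R) * r := by ring
    have h4 : D ^ 2 * r * R ≤ D ^ 2 * u * R :=
      mul_le_mul_of_nonneg_right (mul_le_mul_of_nonneg_left hr0 (by positivity)) hR0.le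
    have h5 := mul_le_mul_of_nonneg_right h4 hp0
    linarith
  have hmain2 := mul_le_mul_of_nonneg_right hmain hp0
  have herr1' := mul_le_mul_of_nonneg_right herr1 hp0
  have herr2' := mul_le_mul_of_nonneg_right herr2 hp0
  have h6 : bU ℓ lam J L * (R * r) = 1 / (S + W) * R * r := by rw [hbU]; ring
  rw [h6] at h
  have h7 : t * R * r ≤ u / 10 ^ 6 * R * r :=
    mul_le_mul_of_nonneg_right (mul_le_mul_of_nonneg_right ht1 hR0.le) hp0
  have h8 : u * R * r ≤ D ^ 2 * u * R * r := by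
    have h9 : 1 * (u * R * r) ≤ D ^ 2 * (u * R * r) :=
      mul_le_mul_of_nonneg_right (by linarith) (by positivity)
    linarith
  have h10 : 0 ≤ u * R * r := by positivity
  linarith

end Pool.Agent.P2ec0u
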