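import Pool.Agent.Lib.P2ec0u.ArmU

/-!
# Fresh closed edges and records, nearly maximal directions
-/

open MeasureTheory ProbabilityTheory Filter Topology Function
open scoped unitInterval ENNReal

namespace Pool.Agent.P2ec0u

open Pool.Agent.P2ec0f3 Pool.Agent.P2ec0g Pool.Agent.P2ec0h

variable {d : ℕ} (ℓ : Fin d → ℝ) {ℓ' : Fin d → ℝ} (lam : ℝ) {J : Finset (Fin d × Bool)}
  (ω : Set (Edge d)) {L' δ' : ℝ}

/-- Closed edges which are seen are fresh or below the armed height. -/
lemma kK_le_frKU (hG : GapJ ℓ' J L' δ') (K : Finset (Fin d × Bool)) (n : ℕ) :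
    kK ℓ lam J ω K (n + 1) ≤ frK ℓ lam ω K n + ZJ ℓ lam J ω (n + 1) := by
  unfold kK frK ZJ
  rw [sum_rq_prK ℓ lam ω (fun z x => ∀ D ∈ K, Away (edgeTo z D) x) K n, lawAt_real]
  refine le_trans ?_ (measureReal_union_le _ _)
  rw [measureReal_def, measureReal_def]
  refine ENNReal.toReal_mono (measure_ne_top _ _) (measure_mono_ae ?_)
  filter_upwards [ae_good ℓ lam ω, ae_step ℓ lam ω] with X hX hs
  intro h
  obtain ⟨hB, hc⟩ : ¬ Blk J ω (X (n + 1)) ∧ ∀ D ∈ K, edgeTo (X (n + 1)) D ∉ ω := h
  by_cases ha : ∀ m < n + 1, ∀ D ∈ K, Away (edgeTo (X (n + 1)) D) (X m)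
  · left
    exact fun m hm => ⟨ha m hm, hc⟩
  · right
    push Not at ha
    obtain ⟨m, hm, D, hD, h1⟩ := ha
    unfold Away at h1
    push Not at h1
    obtain ⟨D', hD'⟩ := h1
    have h2 := le_ar_of_seen ω hG hX.1 (fun k => by
      rcases hs k with h3 | ⟨D'', h3, h4⟩
      · exact Or.inl h3
      · exact Or.inr ⟨D'', h3, h4⟩) hm (hc D hD) hD'
    refine ⟨hB, le_trans ?_ h2⟩
    unfold topJ
    exact le_max_left _ _

/-- The changes of the alarm height are bounded by the fresh closed edges. -/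
lemma CJ_leU (hG : GapJ ℓ' J L' δ') (n : ℕ) :
    CJ ℓ lam J ω n ≤ ∑ D, frK ℓ lam ω {D} n := by
  unfold CJ frK
  have h0 : ∀ D ∈ (Finset.univ : Finset (Fin d × Bool)),
      ∑ z ∈ box d (n + 1), rq ℓ lam ω (fun x => ∀ D' ∈ ({D} : Finset (Fin d × Bool)),
        Away (edgeTo z D') x) (n + 1) z * prK {D} z ω =
      (quenched ℓ lam ω).real {X | ∀ m < n + 1, (∀ D' ∈ ({D} : Finset (Fin d × Bool)),
        Away (edgeTo (X (n + 1)) D') (X m)) ∧
        ∀ D' ∈ ({D} : Finset (Fin d × Bool)), edgeTo (X (n + 1)) D' ∉ ω} := fun D _ =>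
    sum_rq_prK ℓ lam ω (fun z x => ∀ D' ∈ ({D} : Finset (Fin d × Bool)),
      Away (edgeTo z D') x) {D} n
  rw [Finset.sum_congr rfl h0]
  refine le_trans ?_ (measureReal_biUnion_finset_le _ _)
  rw [measureReal_def, measureReal_def]
  refine ENNReal.toReal_mono (measure_ne_top _ _) (measure_mono_ae ?_)
  filter_upwards [ae_good ℓ lam ω] with X hX
  intro h
  obtain ⟨D, hD1, hD2⟩ := exists_freshJ ω hG hX.1 h
  refine Set.mem_iUnion₂.2 ⟨D, Finset.mem_univ D, fun m hm => ⟨?_, ?_⟩⟩
  · intro D' hD'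
    rw [Finset.mem_singleton.1 hD']
    exact hD2 m hm
  · intro D' hD'
    rw [Finset.mem_singleton.1 hD']
    exact hD1

/-- Records have closed edges with probability `1 - p`, independently. -/
lemma integral_rKU (hG : GapJ ℓ' J L' δ') (p : I) {K : Finset (Fin d × Bool)}
    (hK : K ⊆ J) (n : ℕ) :
    ∫ ω, rK ℓ lam J ω K n ∂(percolation d p) =
      (1 - (p : ℝ)) ^ K.card * ∫ ω, rnJ ℓ lam J ω n ∂(percolation d p) := by
  unfold rK rnJ
  rw [integral_finsetSum _ fun z _ => integrable_rq_prK ℓ lam p _ _ z K,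
    integral_finsetSum _ fun z _ => integrable_rq p _ _ z, Finset.mul_sum]
  refine Finset.sum_congr rfl fun z _ => ?_
  refine integral_freshK p (rq_depOn ℓ lam _ (n + 1) z) K z fun D hD h => ?_
  obtain ⟨x, D', hx, hD'⟩ := mem_tq h
  have h1 := topJ_eq J hD'
  have h2 : topJ J z D = hJ J z + 1 := by
    unfold topJ
    rw [hJ_nbr, dJ_mem hG (hK hD)]
    omega
  have h3 : topJ J x D' ≤ hJ J x + 1 := by
    unfold topJ
    rw [hJ_nbr]
    have := dJ_le_one hG D'
    omega
  omega


/-! ### The mean gain over `J` at the records -/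

open Classical in
/-- The effect of the closed edges, zero at the blocked vertices. -/
noncomputable def psJ (J : Finset (Fin d × Bool)) (L : ℝ) (z : Vtx d) (ω : Set (Edge d)) : ℝ :=
  if Blk J ω z then 0 else phJ ℓ lam J L z ω

/-- The factor of one edge. -/
noncomputable def fct (K : Finset (Fin d × Bool)) (z : Vtx d) (D : Fin d × Bool)
    (ω : Set (Edge d)) : ℝ :=
  if D ∈ K then cl (edgeTo z D) ω else 1 - cl (edgeTo z D) ω

/-- The value of the effect when the closed edges are those in the directions of `K`. -/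
noncomputable def phK (J : Finset (Fin d × Bool)) (L : ℝ) (K : Finset (Fin d × Bool)) : ℝ :=
  (∑ i ∈ J, wJ ℓ lam L i * (L - gain ℓ i)) / (∑ i ∈ J, wJ ℓ lam L i) -
    (∑ i ∈ J \ K, wJ ℓ lam L i * (L - gain ℓ i)) / ∑ i ∈ J \ K, wJ ℓ lam L i

lemma psJ_eq (L : ℝ) (z : Vtx d) : psJ ℓ lam J L z ω =
    ∑ K ∈ J.powerset.erase J, phK ℓ lam J L K * ∏ D ∈ J, fct K z D ω := by
  classical
  set K₀ : Finset (Fin d × Bool) := J.filter fun D => edgeTo z D ∉ ω with hK₀
  have hprod : ∀ K ∈ J.powerset, ∏ D ∈ J, fct K z D ω = if K = K₀ then 1 else 0 := by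
    intro K hK
    have hKJ := Finset.mem_powerset.1 hK
    split_ifs with h
    · refine Finset.prod_eq_one fun D hD => ?_
      unfold fct cl
      rw [h]
      by_cases h1 : edgeTo z D ∈ ω
      · have h3 : D ∉ K₀ := fun h2 => (Finset.mem_filter.1 h2).2 h1
        rw [if_neg h3, if_pos h1, sub_zero]
      · have h3 : D ∈ K₀ := Finset.mem_filter.2 ⟨hD, h1⟩
        rw [if_pos h3, if_neg h1]
    · have h1 : ∃ D ∈ J, ¬ (D ∈ K ↔ D ∈ K₀) := by
        by_contra hcon
        push Not at hcon
        apply h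
        ext D
        by_cases hD : D ∈ J
        · exact hcon D hD
        · constructor
          · exact fun h2 => absurd (hKJ h2) hD
          · exact fun h2 => absurd (Finset.mem_filter.1 h2).1 hD
      obtain ⟨D, hD, h2⟩ := h1
      refine Finset.prod_eq_zero hD ?_
      unfold fct cl
      by_cases h3 : D ∈ K
      · rw [if_pos h3]
        have h4 : D ∉ K₀ := fun h4 => h2 ⟨fun _ => h4, fun _ => h3⟩
        rw [if_pos]
        by_contra h5
        exact h4 (Finset.mem_filter.2 ⟨hD, h5⟩)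
      · rw [if_neg h3]
        have h4 : D ∈ K₀ := by
          by_contra h4
          exact h2 ⟨fun h => absurd h h3, fun h => absurd h h4⟩
        rw [if_neg (Finset.mem_filter.1 h4).2, sub_self]
  have h1 : ∀ K ∈ J.powerset.erase J, phK ℓ lam J L K * ∏ D ∈ J, fct K z D ω =
      if K = K₀ then phK ℓ lam J L K else 0 := by
    intro K hK
    rw [hprod K (Finset.mem_of_mem_erase hK)]
    split_ifs <;> simp
  rw [Finset.sum_congr rfl h1, Finset.sum_ite_eq']
  unfold psJ
  have hB : Blk J ω z ↔ K₀ = J := by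
    constructor
    · intro h
      exact Finset.filter_true_of_mem h
    · intro h D hD
      rw [← h] at hD
      exact (Finset.mem_filter.1 hD).2
  by_cases h : Blk J ω z
  · rw [if_pos h, if_neg]
    intro h2
    exact Finset.ne_of_mem_erase h2 (hB.1 h)
  · rw [if_neg h, if_pos (Finset.mem_erase.2 ⟨fun h2 => h (hB.2 h2),
      Finset.mem_powerset.2 (Finset.filter_subset _ _)⟩)]
    have hsum : ∀ f : Fin d × Bool → ℝ, ∑ D ∈ J, f D * (1 - cl (edgeTo z D) ω) =
        ∑ D ∈ J \ K₀, f D := by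
      intro f
      rw [← Finset.sum_sdiff (Finset.filter_subset (fun D => edgeTo z D ∉ ω) J)]
      have e1 : ∑ D ∈ K₀, f D * (1 - cl (edgeTo z D) ω) = 0 := by
        refine Finset.sum_eq_zero fun D hD => ?_
        unfold cl
        rw [if_neg (Finset.mem_filter.1 hD).2, sub_self, mul_zero]
      have e2 : ∑ D ∈ J \ K₀, f D * (1 - cl (edgeTo z D) ω) = ∑ D ∈ J \ K₀, f D := by
        refine Finset.sum_congr rfl fun D hD => ?_
        have h3 : edgeTo z D ∈ ω := by
          by_contra h3
          exact (Finset.mem_sdiff.1 hD).2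
            (Finset.mem_filter.2 ⟨(Finset.mem_sdiff.1 hD).1, h3⟩)
        unfold cl
        rw [if_pos h3, sub_zero, mul_one]
      change ∑ D ∈ J \ K₀, f D * (1 - cl (edgeTo z D) ω) +
        ∑ D ∈ K₀, f D * (1 - cl (edgeTo z D) ω) = _
      rw [e1, e2, add_zero]
    have hr : ∀ D, rhoJ ℓ lam L D = wJ ℓ lam L D * (L - gain ℓ D) := by
      intro D
      unfold rhoJ
      ring
    unfold phJ phK AJ SJ
    rw [hsum, hsum]
    simp only [hr]

open Classical in
lemma depOn_fct {T : Finset (Edge d)} {f : Set (Edge d) → ℝ} (hf : DepOn T f)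
    (K J' : Finset (Fin d × Bool)) (z : Vtx d) :
    DepOn (T ∪ J'.image (edgeTo z)) (fun ω => f ω * ∏ D ∈ J', fct K z D ω) := by
  intro ω ω' h
  have h1 := hf ω ω' fun e he => h e (Finset.mem_union_left _ he)
  simp only
  rw [h1]
  congr 1
  refine Finset.prod_congr rfl fun D hD => ?_
  have h2 : cl (edgeTo z D) ω = cl (edgeTo z D) ω' := by
    refine cl_depOn (edgeTo z D) ω ω' fun e he => h e (Finset.mem_union_right _ ?_)
    rw [Finset.mem_singleton.1 he]
    exact Finset.mem_image_of_mem _ hD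
  unfold fct
  rw [h2]

/-- The configuration of fresh edges is independent of the past. -/
lemma integral_fct (p : I) {T : Finset (Edge d)} {f : Set (Edge d) → ℝ} (hf : DepOn T f)
    (K J' : Finset (Fin d × Bool)) (z : Vtx d) (hJ : ∀ D ∈ J', edgeTo z D ∉ T) :
    ∫ ω, f ω * ∏ D ∈ J', fct K z D ω ∂(percolation d p) =
      (∏ D ∈ J', if D ∈ K then 1 - (p : ℝ) else (p : ℝ)) *
        ∫ ω, f ω ∂(percolation d p) := by
  classical
  induction J' using Finset.induction_on with
  | empty => simp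
  | insert D J' hD ih =>
    have ih' := ih fun D' hD' => hJ D' (Finset.mem_insert_of_mem hD')
    have hdep := depOn_fct hf K J' z
    have h2 : edgeTo z D ∉ T ∪ J'.image (edgeTo z) := by
      rw [Finset.mem_union, not_or]
      refine ⟨hJ D (Finset.mem_insert_self _ _), ?_⟩
      intro h
      obtain ⟨D', hD', h3⟩ := Finset.mem_image.1 h
      rw [edgeTo_injective z h3] at hD'
      exact hD hD'
    have h4 := integral_fresh p h2 hdep
    by_cases hK : D ∈ K
    · have h1 : ∀ ω : Set (Edge d), f ω * ∏ D ∈ insert D J', fct K z D ω =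
          (f ω * ∏ D ∈ J', fct K z D ω) * cl (edgeTo z D) ω := by
        intro ω
        rw [Finset.prod_insert hD]
        have : fct K z D ω = cl (edgeTo z D) ω := by
          unfold fct
          rw [if_pos hK]
        rw [this]
        ring
      simp_rw [h1]
      rw [h4, ih', Finset.prod_insert hD, if_pos hK]
      ring
    · have h1 : ∀ ω : Set (Edge d), f ω * ∏ D ∈ insert D J', fct K z D ω =
          (f ω * ∏ D ∈ J', fct K z D ω) -
          (f ω * ∏ D ∈ J', fct K z D ω) * cl (edgeTo z D) ω := by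
        intro ω
        rw [Finset.prod_insert hD]
        have : fct K z D ω = 1 - cl (edgeTo z D) ω := by
          unfold fct
          rw [if_neg hK]
        rw [this]
        ring
      simp_rw [h1]
      rw [integral_sub (hdep.integrable _) ((depOn_mul_cl hdep (edgeTo z D)).integrable _),
        h4, ih', Finset.prod_insert hD, if_neg hK]
      ring

/-- The effect of the closed edges at the records. -/
noncomputable def rps (J : Finset (Fin d × Bool)) (L : ℝ) (n : ℕ) : ℝ :=
  ∑ z ∈ box d (n + 1), rq ℓ lam ω (fun x => hJ J x < hJ J z) (n + 1) z * psJ ℓ lam J L z ω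

lemma integrable_rq_fct (p : I) (q : Vtx d → Prop) (n : ℕ) (z : Vtx d)
    (K : Finset (Fin d × Bool)) :
    Integrable (fun ω => rq ℓ lam ω q n z * ∏ D ∈ J, fct K z D ω) (percolation d p) := by
  classical
  exact (depOn_fct (rq_depOn ℓ lam q n z) K J z).integrable _

lemma rq_psJ (L : ℝ) (q : Vtx d → Prop) (n : ℕ) (z : Vtx d) (ω : Set (Edge d)) :
    rq ℓ lam ω q n z * psJ ℓ lam J L z ω = ∑ K ∈ J.powerset.erase J,
      phK ℓ lam J L K * (rq ℓ lam ω q n z * ∏ D ∈ J, fct K z D ω) := by
  rw [psJ_eq, Finset.mul_sum]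
  exact Finset.sum_congr rfl fun K _ => by ring

lemma integrable_rps (p : I) (L : ℝ) (n : ℕ) :
    Integrable (fun ω => rps ℓ lam ω J L n) (percolation d p) := by
  unfold rps
  simp_rw [rq_psJ]
  exact integrable_finsetSum _ fun z _ => integrable_finsetSum _ fun K _ =>
    (integrable_rq_fct ℓ lam p _ _ z K).const_mul _

/-- The mean effect at the records is not positive. -/
lemma integral_rps_le (hG : GapJ ℓ' J L' δ') (p : I) {L : ℝ}
    (hch : ∑ K ∈ J.powerset.erase J, (∏ i ∈ J, if i ∈ K then 1 - (p : ℝ) else (p : ℝ)) *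
      phK ℓ lam J L K ≤ 0) (n : ℕ) :
    ∫ ω, rps ℓ lam ω J L n ∂(percolation d p) ≤ 0 := by
  classical
  unfold rps
  simp_rw [rq_psJ]
  rw [integral_finsetSum _ fun z _ => integrable_finsetSum _ fun K _ =>
    (integrable_rq_fct ℓ lam p _ _ z K).const_mul _]
  refine Finset.sum_nonpos fun z _ => ?_
  rw [integral_finsetSum _ fun K _ => (integrable_rq_fct ℓ lam p _ _ z K).const_mul _]
  have h1 : ∀ K ∈ J.powerset.erase J, ∫ ω, phK ℓ lam J L K *
      (rq ℓ lam ω (fun x => hJ J x < hJ J z) (n + 1) z * ∏ D ∈ J, fct K z D ω)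
        ∂(percolation d p) =
      ((∏ i ∈ J, if i ∈ K then 1 - (p : ℝ) else (p : ℝ)) * phK ℓ lam J L K) *
        ∫ ω, rq ℓ lam ω (fun x => hJ J x < hJ J z) (n + 1) z ∂(percolation d p) := by
    intro K _
    rw [integral_const_mul, integral_fct p (rq_depOn ℓ lam _ (n + 1) z) K J z]
    · ring
    · intro D hD h
      obtain ⟨x, D', hx, hD'⟩ := mem_tq h
      have h1 := topJ_eq J hD'
      have h2 : topJ J z D = hJ J z + 1 := by
        unfold topJ
        rw [hJ_nbr, dJ_mem hG hD]
        omega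
      have h3 : topJ J x D' ≤ hJ J x + 1 := by
        unfold topJ
        rw [hJ_nbr]
        have := dJ_le_one hG D'
        omega
      omega
  rw [Finset.sum_congr rfl h1, ← Finset.sum_mul]
  exact mul_nonpos_of_nonpos_of_nonneg hch (integral_nonneg fun ω => rq_nonneg ..)

end Pool.Agent.P2ec0u
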