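import Pool.Agent.Lib.P2ec0h.DriftJ
import Pool.Agent.Lib.P2ec0h.AlarmJ

/-!
# Several nearly maximal directions
-/

open MeasureTheory ProbabilityTheory Filter Topology Function
open scoped unitInterval ENNReal

namespace Pool.Agent.P2ec0u

open Pool.Agent.P2ec0f3 Pool.Agent.P2ec0g Pool.Agent.P2ec0h

variable {d : ℕ} (ℓ : Fin d → ℝ) (lam : ℝ) (J : Finset (Fin d × Bool)) (L : ℝ)

/-- The standing hypothesis: the gains of the directions in `J` are within `γ` of the largest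
gain `L`, the other gains are at most `L - δ`. -/
structure GapU (γ δ : ℝ) : Prop where
  pos : 0 < δ
  nn : 0 ≤ γ
  lt : γ < δ
  top : ∃ F ∈ J, gain ℓ F = L
  maxi : ∀ D, gain ℓ D ≤ L
  near : ∀ D ∈ J, L - γ ≤ gain ℓ D
  gap : ∀ D, D ∉ J → gain ℓ D + δ ≤ L
  le : δ ≤ L

/-- The total relative weight of `J`. -/
noncomputable def SJ : ℝ := ∑ D ∈ J, wJ ℓ lam L D

/-- The total relative loss of `J`. -/
noncomputable def AJ : ℝ := ∑ D ∈ J, rhoJ ℓ lam L D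

/-- The effect of the closed edges in the directions of `J` on the mean gain over `J`. -/
noncomputable def phJ (x : Vtx d) (ω : Set (Edge d)) : ℝ :=
  AJ ℓ lam J L / SJ ℓ lam J L -
    (∑ D ∈ J, rhoJ ℓ lam L D * (1 - cl (edgeTo x D) ω)) /
      ∑ D ∈ J, wJ ℓ lam L D * (1 - cl (edgeTo x D) ω)

variable {ℓ lam J L}

lemma oppU {γ δ : ℝ} (hG : GapU ℓ J L γ δ) {D : Fin d × Bool} (h : D ∈ J) :
    (D.1, !D.2) ∉ J := by
  intro h'
  have h1 := hG.near D h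
  have h2 := hG.near _ h'
  rw [gain_opp] at h2
  linarith [hG.lt, hG.le]

/-- The combinatorial lemmas can be used with an auxiliary bias. -/
lemma aux_gap {γ δ : ℝ} (hG : GapU ℓ J L γ δ) : ∃ ℓ' : Fin d → ℝ, GapJ ℓ' J 1 1 := by
  classical
  refine ⟨fun j => if (j, true) ∈ J then 1 else if (j, false) ∈ J then -1 else 0,
    one_pos, ?_, ?_, ?_, le_rfl⟩
  · obtain ⟨F, hF, -⟩ := hG.top
    exact ⟨F, hF⟩
  · rintro ⟨j, b⟩ hD
    cases b
    · have h1 : (j, true) ∉ J := fun h => oppU hG h (by simpa using hD)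
      simp [gain, h1, hD]
    · simp [gain, hD]
  · rintro ⟨j, b⟩ hD
    cases b
    · by_cases h1 : (j, true) ∈ J
      · simp [gain, h1]
      · simp [gain, h1, hD]
    · by_cases h1 : (j, false) ∈ J
      · simp [gain, hD, h1]
      · simp [gain, hD, h1]

lemma wJ_ge {γ δ s : ℝ} (hG : GapU ℓ J L γ δ) (hlam : 0 < lam) (hs : lam * γ ≤ s)
    {D : Fin d × Bool} (hD : D ∈ J) : Real.exp (-s) ≤ wJ ℓ lam L D := by
  unfold wJ
  refine Real.exp_le_exp.2 ?_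
  have h1 := hG.near D hD
  have h2 : lam * (L - gain ℓ D) ≤ lam * γ := mul_le_mul_of_nonneg_left (by linarith) hlam.le
  linarith

lemma wJ_le_one {γ δ : ℝ} (hG : GapU ℓ J L γ δ) (hlam : 0 < lam) (D : Fin d × Bool) :
    wJ ℓ lam L D ≤ 1 := by
  unfold wJ
  refine Real.exp_le_one_iff.2 ?_
  have h1 := hG.maxi D
  have := mul_nonneg hlam.le (sub_nonneg.2 h1)
  linarith

lemma rhoU_nonneg {γ δ : ℝ} (hG : GapU ℓ J L γ δ) (D : Fin d × Bool) :
    0 ≤ rhoJ ℓ lam L D :=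
  mul_nonneg (by linarith [hG.maxi D]) (wJ_pos D).le

lemma rhoU_le {γ δ : ℝ} (hG : GapU ℓ J L γ δ) {D : Fin d × Bool} (hD : D ∈ J) :
    rhoJ ℓ lam L D ≤ γ * wJ ℓ lam L D :=
  mul_le_mul_of_nonneg_right (by linarith [hG.near D hD]) (wJ_pos D).le

lemma le_rhoU {γ δ : ℝ} (hG : GapU ℓ J L γ δ) {D : Fin d × Bool} (hD : D ∉ J) :
    δ * wJ ℓ lam L D ≤ rhoJ ℓ lam L D :=
  mul_le_mul_of_nonneg_right (by linarith [hG.gap D hD]) (wJ_pos D).le

/-- `W δ ≤ R`. -/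
lemma WU_le {γ δ : ℝ} (hG : GapU ℓ J L γ δ) : δ * WJ ℓ lam J L ≤ RJ ℓ lam J L := by
  unfold WJ RJ
  rw [Finset.mul_sum]
  exact Finset.sum_le_sum fun D hD => le_rhoU hG (Finset.mem_compl.1 hD)

lemma one_le_SJ {γ δ : ℝ} (hG : GapU ℓ J L γ δ) : 1 ≤ SJ ℓ lam J L := by
  obtain ⟨F, hF, h⟩ := hG.top
  have h1 : wJ ℓ lam L F = 1 := by
    unfold wJ
    rw [h]
    simp
  exact h1.symm.le.trans (Finset.single_le_sum (f := fun D => wJ ℓ lam L D)
    (fun D _ => (wJ_pos D).le) hF)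

lemma SJ_le {γ δ : ℝ} (hG : GapU ℓ J L γ δ) (hlam : 0 < lam) : SJ ℓ lam J L ≤ 2 * d := by
  unfold SJ
  refine (Finset.sum_le_sum fun D _ => wJ_le_one hG hlam D).trans ?_
  rw [Finset.sum_const, nsmul_eq_mul, mul_one]
  exact card_le_two_mul J

lemma SJ_ge {γ δ s : ℝ} (hG : GapU ℓ J L γ δ) (hlam : 0 < lam) (hs : lam * γ ≤ s)
    (hm : 2 ≤ J.card) : 1 + Real.exp (-s) ≤ SJ ℓ lam J L := by
  classical
  obtain ⟨F, hF, h⟩ := hG.top
  have h1 : wJ ℓ lam L F = 1 := by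
    unfold wJ
    rw [h]
    simp
  obtain ⟨D, hD⟩ : (J.erase F).Nonempty := by
    rw [← Finset.card_pos, Finset.card_erase_of_mem hF]
    omega
  unfold SJ
  rw [← Finset.add_sum_erase _ _ hF, h1]
  have h2 := wJ_ge hG hlam hs (Finset.mem_of_mem_erase hD)
  have h3 : wJ ℓ lam L D ≤ ∑ D ∈ J.erase F, wJ ℓ lam L D :=
    Finset.single_le_sum (f := fun D => wJ ℓ lam L D) (fun D _ => (wJ_pos D).le) hD
  linarith

lemma AJ_nonneg {γ δ : ℝ} (hG : GapU ℓ J L γ δ) : 0 ≤ AJ ℓ lam J L :=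
  Finset.sum_nonneg fun D _ => rhoU_nonneg hG D

lemma AJ_le {γ δ : ℝ} (hG : GapU ℓ J L γ δ) : AJ ℓ lam J L ≤ γ * SJ ℓ lam J L := by
  unfold AJ SJ
  rw [Finset.mul_sum]
  exact Finset.sum_le_sum fun D hD => rhoU_le hG hD

lemma RU_pos {γ δ : ℝ} (hG : GapU ℓ J L γ δ) : 0 < RJ ℓ lam J L := by
  obtain ⟨F, hF, -⟩ := hG.top
  have h1 := oppU hG hF
  have h2 : (F.1, !F.2) ∈ Jᶜ := Finset.mem_compl.2 h1
  have h3 : rhoJ ℓ lam L (F.1, !F.2) ≤ RJ ℓ lam J L :=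
    Finset.single_le_sum (f := fun D => rhoJ ℓ lam L D) (fun D _ => rhoU_nonneg hG D) h2
  have h4 : 0 < rhoJ ℓ lam L (F.1, !F.2) := by
    refine mul_pos ?_ (wJ_pos _)
    have := hG.gap _ h1
    linarith [hG.pos]
  linarith

lemma WU_le' {γ δ ε : ℝ} (hG : GapU ℓ J L γ δ) (hlam : 0 < lam)
    (hε : Real.exp (-(lam * δ)) ≤ ε) : WJ ℓ lam J L ≤ 2 * d * ε := by
  unfold WJ
  have h1 : ∀ D ∈ Jᶜ, wJ ℓ lam L D ≤ ε := by
    intro D hD
    have h2 := hG.gap D (Finset.mem_compl.1 hD)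
    unfold wJ
    refine (Real.exp_le_exp.2 ?_).trans hε
    have := mul_le_mul_of_nonneg_left (show δ ≤ L - gain ℓ D by linarith) hlam.le
    linarith
  refine (Finset.sum_le_sum h1).trans ?_
  rw [Finset.sum_const, nsmul_eq_mul]
  exact mul_le_mul_of_nonneg_right (card_le_two_mul _) ((Real.exp_pos _).le.trans hε)

lemma RU_le {γ δ ε : ℝ} (hG : GapU ℓ J L γ δ) (h1 : 1 ≤ lam * δ)
    (hε : Real.exp (-(lam * δ)) ≤ ε) : RJ ℓ lam J L ≤ 2 * d * ε * δ := by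
  unfold RJ
  have h2 : ∀ D ∈ Jᶜ, rhoJ ℓ lam L D ≤ δ * ε := by
    intro D hD
    have h3 := hG.gap D (Finset.mem_compl.1 hD)
    have h4 := mul_exp_le (lam := lam) hG.pos (x := L - gain ℓ D) (by linarith) h1
    exact h4.trans (mul_le_mul_of_nonneg_left hε hG.pos.le)
  refine (Finset.sum_le_sum h2).trans ?_
  rw [Finset.sum_const, nsmul_eq_mul]
  have h5 : 0 ≤ δ * ε := mul_nonneg hG.pos.le ((Real.exp_pos _).le.trans hε)
  have := mul_le_mul_of_nonneg_right (card_le_two_mul Jᶜ) h5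
  linarith

variable {ω : Set (Edge d)} {x : Vtx d}

lemma openU {γ δ s : ℝ} (hG : GapU ℓ J L γ δ) (hlam : 0 < lam) (hs : lam * γ ≤ s)
    (h : ¬ Blk J ω x) :
    Real.exp (-s) ≤ ∑ D ∈ J, wJ ℓ lam L D * (1 - cl (edgeTo x D) ω) := by
  classical
  unfold Blk at h
  push Not at h
  obtain ⟨D, hD, ho⟩ := h
  have h1 : wJ ℓ lam L D * (1 - cl (edgeTo x D) ω) = wJ ℓ lam L D := by
    unfold cl
    rw [if_pos ho, sub_zero, mul_one]
  have h2 := wJ_ge hG hlam hs hD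
  rw [← h1] at h2
  exact h2.trans (Finset.single_le_sum (f := fun D => wJ ℓ lam L D * (1 - cl (edgeTo x D) ω))
    (fun D _ => mul_nonneg (wJ_pos D).le (one_sub_cl_nonneg _ _)) hD)

/-- The step probabilities at an unblocked vertex. -/
lemma sp_eqU (h : ¬ Blk J ω x) (D : Fin d × Bool) : sp ℓ lam ω x D =
    wJ ℓ lam L D * (1 - cl (edgeTo x D) ω) /
      ∑ D, wJ ℓ lam L D * (1 - cl (edgeTo x D) ω) := by
  have htot : total ℓ lam ω x =
      Real.exp (lam * L) * ∑ D, wJ ℓ lam L D * (1 - cl (edgeTo x D) ω) := by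
    unfold total
    rw [Finset.mul_sum]
    exact Finset.sum_congr rfl fun D _ => weight_eq_w D
  unfold sp
  rw [htot, weight_eq_w (L := L) D, mul_div_mul_left _ _ (Real.exp_pos (lam * L)).ne']

/-- The other steps have small probability. -/
lemma sum_compl_leU {γ δ s η : ℝ} (hG : GapU ℓ J L γ δ) (hlam : 0 < lam) (hs : lam * γ ≤ s)
    (hη : Real.exp s * WJ ℓ lam J L ≤ η) (h : ¬ Blk J ω x) :
    ∑ D ∈ Jᶜ, sp ℓ lam ω x D ≤ η := by
  classical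
  have h1 := openU (ω := ω) (x := x) hG hlam hs h
  have h2 : 0 ≤ ∑ D ∈ Jᶜ, wJ ℓ lam L D * (1 - cl (edgeTo x D) ω) :=
    Finset.sum_nonneg fun D _ => mul_nonneg (wJ_pos D).le (one_sub_cl_nonneg _ _)
  have h3 : ∑ D ∈ Jᶜ, wJ ℓ lam L D * (1 - cl (edgeTo x D) ω) ≤ WJ ℓ lam J L :=
    Finset.sum_le_sum fun D _ => mul_le_of_le_one_right (wJ_pos D).le
      (by linarith [cl_nonneg (edgeTo x D) ω])
  simp_rw [sp_eqU (L := L) h]
  rw [← Finset.sum_div, ← Finset.sum_add_sum_compl J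
    (fun D => wJ ℓ lam L D * (1 - cl (edgeTo x D) ω))]
  have he := Real.exp_pos (-s)
  rw [div_le_iff₀ (by linarith)]
  refine h3.trans ?_
  have h4 : WJ ℓ lam J L = (Real.exp s * WJ ℓ lam J L) * Real.exp (-s) := by
    rw [mul_comm (Real.exp s), mul_assoc, ← Real.exp_add]
    simp
  have hη0 : 0 ≤ η := le_trans (mul_nonneg (Real.exp_pos s).le WJ_nonneg) hη
  calc WJ ℓ lam J L = (Real.exp s * WJ ℓ lam J L) * Real.exp (-s) := h4
    _ ≤ η * Real.exp (-s) := mul_le_mul_of_nonneg_right hη he.le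
    _ ≤ _ := mul_le_mul_of_nonneg_left (by linarith) hη0

end Pool.Agent.P2ec0u
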