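import Pool.Agent.Lib.P2ec0u.GeomU

/-!
# The scales
-/

open MeasureTheory ProbabilityTheory Filter Topology Function
open scoped ENNReal

namespace Pool.Agent.P2ec0u

open Pool.Agent.P2ec0f3 Pool.Agent.P2ec0g Pool.Agent.P2ec0h

/-- The two scales `s` and `t` are far from each other. -/
structure Scale (d : ℕ) (s t : ℝ) : Prop where
  s0 : 0 ≤ s
  lt : s < t
  one : 1 ≤ t
  nu : s / t ≤ (Real.exp (-s) / (1000 * (d : ℝ) ^ 4)) ^ (2 * d + 2)
  eps : Real.exp (-t) ≤ (Real.exp (-s) / (1000 * (d : ℝ) ^ 4)) ^ (2 * d + 2)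

/-- the small number attached to the scale `s` -/
noncomputable def tS (d : ℕ) (s : ℝ) : ℝ :=
  (Real.exp (-s) / (1000 * (d : ℝ) ^ 4)) ^ (2 * d + 2)

/-- the next scale -/
noncomputable def nextS (d : ℕ) (s : ℝ) : ℝ := (s + 1) / tS d s + s + 1

/-- the sequence of the scales -/
noncomputable def seqS (d : ℕ) : ℕ → ℝ
  | 0 => 0
  | k + 1 => nextS d (seqS d k)

lemma tS_pos {d : ℕ} (hd : 2 ≤ d) (s : ℝ) : 0 < tS d s := by
  unfold tS
  have h1 : (0 : ℝ) < d := by
    have : (2 : ℝ) ≤ d := by exact_mod_cast hd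
    linarith
  exact pow_pos (div_pos (Real.exp_pos _) (by positivity)) _

lemma scale_next {d : ℕ} (hd : 2 ≤ d) {s : ℝ} (hs : 0 ≤ s) : Scale d s (nextS d s) := by
  have hT := tS_pos hd s
  have h1 : 0 < (s + 1) / tS d s := div_pos (by linarith) hT
  have h2 : s < nextS d s := by unfold nextS; linarith
  have h3 : 1 ≤ nextS d s := by unfold nextS; linarith
  have h4 : s + 1 ≤ tS d s * nextS d s := by
    have h5 : tS d s * ((s + 1) / tS d s) = s + 1 := by field_simp
    have h6 : (s + 1) / tS d s ≤ nextS d s := by unfold nextS; linarith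
    calc s + 1 = tS d s * ((s + 1) / tS d s) := h5.symm
      _ ≤ tS d s * nextS d s := mul_le_mul_of_nonneg_left h6 hT.le
  refine ⟨hs, h2, h3, ?_, ?_⟩
  · rw [div_le_iff₀ (by linarith)]
    change s ≤ tS d s * nextS d s
    linarith
  · change Real.exp (-(nextS d s)) ≤ tS d s
    rw [Real.exp_neg]
    have h7 : nextS d s ≤ Real.exp (nextS d s) := by
      have := Real.add_one_le_exp (nextS d s)
      linarith
    rw [inv_le_iff_one_le_mul₀ (Real.exp_pos _)]
    calc (1 : ℝ) ≤ s + 1 := by linarith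
      _ ≤ tS d s * nextS d s := h4
      _ ≤ tS d s * Real.exp (nextS d s) := mul_le_mul_of_nonneg_left h7 hT.le

lemma seqS_nonneg {d : ℕ} (hd : 2 ≤ d) (k : ℕ) : 0 ≤ seqS d k := by
  induction k with
  | zero => exact le_rfl
  | succ k ih => exact ih.trans (scale_next hd ih).lt.le

lemma seqS_mono {d : ℕ} (hd : 2 ≤ d) : Monotone (seqS d) :=
  monotone_nat_of_le_succ fun k => (scale_next hd (seqS_nonneg hd k)).lt.le

lemma exists_gap {d : ℕ} (hd : 2 ≤ d) (f : Fin d × Bool → ℝ) (F : Fin d × Bool) (hF : f F = 0) :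
    ∃ k, k < 2 * d ∧ ∀ D, ¬ (seqS d k < f D ∧ f D ≤ seqS d (k + 1)) := by
  by_contra hcon
  push Not at hcon
  choose g hg using hcon
  have hinj : Injective (fun k : Fin (2 * d) => g k.1 k.2) := by
    intro k l hkl
    by_contra hne
    rcases lt_or_gt_of_ne (fun h => hne (Fin.ext h) : k.1 ≠ l.1) with h | h
    · have h1 := (hg k.1 k.2).2
      have h2 := (hg l.1 l.2).1
      have h3 : seqS d (k.1 + 1) ≤ seqS d l.1 := seqS_mono hd h
      have h4 : g k.1 k.2 = g l.1 l.2 := hkl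
      rw [h4] at h1
      linarith
    · have h1 := (hg l.1 l.2).2
      have h2 := (hg k.1 k.2).1
      have h3 : seqS d (l.1 + 1) ≤ seqS d k.1 := seqS_mono hd h
      have h4 : g k.1 k.2 = g l.1 l.2 := hkl
      rw [h4] at h2
      linarith
  have hcard : Fintype.card (Fin (2 * d)) = Fintype.card (Fin d × Bool) := by
    simp [mul_comm]
  have hbij := (Fintype.bijective_iff_injective_and_card _).2 ⟨hinj, hcard⟩
  obtain ⟨k, hk⟩ := hbij.2 F
  have h1 := (hg k.1 k.2).1
  have h2 : g k.1 k.2 = F := hk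
  rw [h2, hF] at h1
  linarith [seqS_nonneg hd k.1]

theorem exists_scales {d : ℕ} (hd : 2 ≤ d) : ∃ S : ℝ, 0 < S ∧ ∀ ℓ : Fin d → ℝ,
    ∑ j, ℓ j ^ 2 = 1 → ∀ lam : ℝ, S ≤ lam → ∃ (J : Finset (Fin d × Bool)) (L s t : ℝ),
      Scale d s t ∧ s ≤ S ∧ GapU ℓ J L (s / lam) (t / lam) ∧ 1 / (d : ℝ) ≤ L ∧ L ≤ 1 := by
  classical
  have hd2 : (2 : ℝ) ≤ d := by exact_mod_cast hd
  have hd0 : (0 : ℝ) < d := by linarith
  have hS0 := seqS_nonneg hd (2 * d)
  refine ⟨d * seqS d (2 * d) + 1, by positivity, fun ℓ hℓ lam hlam => ?_⟩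
  have hlam0 : 0 < lam := by
    have : 0 ≤ d * seqS d (2 * d) := by positivity
    linarith
  have : Nonempty (Fin d × Bool) := ⟨(⟨0, by omega⟩, true)⟩
  obtain ⟨F, hF⟩ := Finite.exists_max (fun D => gain ℓ D)
  set L := gain ℓ F with hL
  have hgt : ∀ j, gain ℓ (j, true) = ℓ j := fun j => by simp [gain]
  have hgf : ∀ j, gain ℓ (j, false) = -ℓ j := fun j => by simp [gain]
  have habs : ∀ j, |ℓ j| ≤ L := by
    intro j
    rw [abs_le]
    have h1 := hF (j, true)
    have h2 := hF (j, false)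
    simp only [hgt, hgf] at h1 h2
    constructor <;> linarith
  have hL0 : 0 ≤ L := (abs_nonneg _).trans (habs ⟨0, by omega⟩)
  have hsq : ∀ j, ℓ j ^ 2 ≤ L ^ 2 := by
    intro j
    rw [← sq_abs]
    exact pow_le_pow_left₀ (abs_nonneg _) (habs j) 2
  have h1 : 1 ≤ d * L ^ 2 := by
    rw [← hℓ]
    refine (Finset.sum_le_sum fun j _ => hsq j).trans ?_
    simp
  have hL1 : 1 / (d : ℝ) ≤ L := by
    by_contra hcon
    push Not at hcon
    have h2 : L ^ 2 < (1 / (d : ℝ)) ^ 2 := pow_lt_pow_left₀ hcon hL0 two_ne_zero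
    have h3 : (d : ℝ) * (1 / (d : ℝ)) ^ 2 = 1 / d := by field_simp
    have h4 : (d : ℝ) * L ^ 2 < 1 / d := by
      rw [← h3]
      exact mul_lt_mul_of_pos_left h2 hd0
    have h5 : 1 / (d : ℝ) ≤ 1 := by
      rw [div_le_one hd0]
      linarith
    linarith
  have hL2 : L ≤ 1 := by
    have h2 : L ^ 2 ≤ 1 := by
      have h3 : L ^ 2 = ℓ F.1 ^ 2 := by
        rw [hL]
        obtain ⟨j, b⟩ := F
        cases b
        · rw [hgf]; ring
        · rw [hgt]
      rw [h3, ← hℓ]
      exact Finset.single_le_sum (f := fun j => ℓ j ^ 2) (fun j _ => sq_nonneg _)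
        (Finset.mem_univ F.1)
    nlinarith
  obtain ⟨k, hk, hgap⟩ := exists_gap hd (fun D => lam * (L - gain ℓ D)) F (by simp [hL])
  have hsk := seqS_nonneg hd k
  have hsc : Scale d (seqS d k) (seqS d (k + 1)) := scale_next hd hsk
  have hk1 : seqS d (k + 1) ≤ seqS d (2 * d) := seqS_mono hd hk
  have hk0 : seqS d k ≤ seqS d (2 * d) := seqS_mono hd hk.le
  refine ⟨Finset.univ.filter (fun D => lam * (L - gain ℓ D) ≤ seqS d k), L, seqS d k,
    seqS d (k + 1), hsc, ?_, ?_, hL1, hL2⟩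
  · nlinarith
  · refine ⟨?_, ?_, ?_, ?_, ?_, ?_, ?_, ?_⟩
    · exact div_pos (by linarith [hsc.one]) hlam0
    · exact div_nonneg hsk hlam0.le
    · exact div_lt_div_of_pos_right hsc.lt hlam0
    · refine ⟨F, ?_, rfl⟩
      rw [Finset.mem_filter]
      refine ⟨Finset.mem_univ _, ?_⟩
      rw [← hL, sub_self, mul_zero]
      exact hsk
    · exact hF
    · intro D hD
      rw [Finset.mem_filter] at hD
      have h2 : L - gain ℓ D ≤ seqS d k / lam := by
        rw [le_div_iff₀ hlam0, mul_comm]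
        exact hD.2
      linarith
    · intro D hD
      have h2 : seqS d k < lam * (L - gain ℓ D) := by
        by_contra hcon
        push Not at hcon
        exact hD (Finset.mem_filter.2 ⟨Finset.mem_univ _, hcon⟩)
      have h3 : seqS d (k + 1) < lam * (L - gain ℓ D) := by
        by_contra hcon
        push Not at hcon
        exact hgap D ⟨h2, hcon⟩
      have h4 : seqS d (k + 1) / lam ≤ L - gain ℓ D := by
        rw [div_le_iff₀ hlam0, mul_comm]
        exact h3.le
      linarith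
    · rw [div_le_iff₀ hlam0]
      have h2 : (d : ℝ) * seqS d (k + 1) ≤ lam := by
        have := mul_le_mul_of_nonneg_left hk1 hd0.le
        linarith
      have h3 : 1 / (d : ℝ) * lam ≤ L * lam := mul_le_mul_of_nonneg_right hL1 hlam0.le
      have h4 : seqS d (k + 1) ≤ 1 / (d : ℝ) * lam := by
        rw [div_mul_eq_mul_div, one_mul, le_div_iff₀ hd0]
        linarith
      linarith

end Pool.Agent.P2ec0u
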