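import Pool.Agent.Lib.P2ec0u.UniU
import Pool.Agent.Lib.P2ec0u.ScaleU

/-!
# The comparison of the speeds, uniformly in the direction: the theorem
-/

open MeasureTheory ProbabilityTheory Filter Topology Function
open scoped unitInterval ENNReal

namespace Pool.Agent.P2ec0u

open Pool.Agent.P2ec0f3 Pool.Agent.P2ec0g Pool.Agent.P2ec0h

/-- For a strong bias the speed at `p = 1` is larger than the speed at every `p ∈ (p_c, 1)`,
uniformly in the direction. -/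
theorem uniform_speed {d : ℕ} (hd : 2 ≤ d) : ∃ S : ℝ, 0 < S ∧ ∃ c : ℝ, 0 < c ∧
    ∀ ℓ : Fin d → ℝ, ∑ j, ℓ j ^ 2 = 1 → ∀ lam : ℝ, S ≤ lam →
    ∀ p : I, criticalParam d < p → ∀ v v₁ : Fin d → ℝ,
      IsVelocity ℓ lam p v → IsVelocity ℓ lam 1 v₁ →
      ∑ j, v j * ℓ j + c * Real.exp (-(2 * lam)) * (1 - (p : ℝ)) ≤ ∑ j, v₁ j * ℓ j := by
  obtain ⟨S, hS, h⟩ := exists_scales hd
  have hD2 : (2 : ℝ) ≤ d := by exact_mod_cast hd
  have hD0 : (0 : ℝ) < d := by linarith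
  refine ⟨S, hS, Real.exp (-S) / (1000 * (d : ℝ) ^ 4) * (2 / d), by positivity, ?_⟩
  intro ℓ hunit lam hlam p hp v v₁ hv hv₁
  obtain ⟨J, L, s, sg, hsc, hsS, hG, hL, hL1⟩ := h ℓ hunit lam hlam
  have hlam0 : 0 < lam := by linarith
  have hsc0 : Scale0 d s sg := ⟨hsc.s0, hsc.lt, hsc.one, hsc.nu, hsc.eps⟩
  have hs : lam * (s / lam) = s := by field_simp
  have hsg : lam * (sg / lam) = sg := by field_simp
  have h1 := scale_speed hd hG hlam0 hs hsg hsc0 rfl hp hv hv₁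
  have h2 := RU_ge hG hlam0 hL hL1
  have h3 : Real.exp (-S) / (1000 * (d : ℝ) ^ 4) ≤ Real.exp (-s) / (1000 * (d : ℝ) ^ 4) :=
    div_le_div_of_nonneg_right (Real.exp_le_exp.2 (by linarith)) (by positivity)
  have hp0 : 0 ≤ 1 - (p : ℝ) := by linarith [p.2.2]
  have h4 : Real.exp (-S) / (1000 * (d : ℝ) ^ 4) * (2 / d * Real.exp (-(2 * lam))) ≤
      Real.exp (-s) / (1000 * (d : ℝ) ^ 4) * RJ ℓ lam J L :=
    mul_le_mul h3 h2 (by positivity) (by positivity)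
  have h5 := mul_le_mul_of_nonneg_right h4 hp0
  linarith

end Pool.Agent.P2ec0u
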