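import Pool.Agent.Lib.P2ec0u.QuenU

/-!
# The quenched inequality of the second regime, nearly maximal directions
-/

open MeasureTheory ProbabilityTheory Filter Topology Function
open scoped unitInterval ENNReal

namespace Pool.Agent.P2ec0u

open Pool.Agent.P2ec0f3 Pool.Agent.P2ec0g Pool.Agent.P2ec0h

variable {d : ℕ} {ℓ ℓ' : Fin d → ℝ} {lam : ℝ} (ω : Set (Edge d)) {J : Finset (Fin d × Bool)}
  {L' δ' L γ δ η : ℝ}

/-- The quenched inequality of the second regime. -/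
lemma quen2 {s η₁ M α : ℝ} (hG' : GapJ ℓ' J L' δ') (hG : GapU ℓ J L γ δ) (hlam : 0 < lam)
    (hs : lam * γ ≤ s) (hm : 2 ≤ J.card)
    (hη₁ : (2 * d + 1) * Real.exp s * (γ / δ) ≤ η₁) (hη1 : η₁ ≤ 1) (hW : WJ ℓ lam J L ≤ 1)
    (hQ : ∀ x, ¬ Blk J ω x → ∑ D ∈ Jᶜ, sp ℓ lam ω x D ≤ η) (hη0 : 0 ≤ η) (hη : η ≤ 1 / 100)
    (ha : 0 ≤ aU ℓ lam J L η₁ s) (hα : 0 ≤ α)
    (hM : γ * J.card + bU ℓ lam J L * RJ ℓ lam J L +
      3 * RJ ℓ lam J L * (J.card * (Jᶜ).card) ≤ M)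
    (hcoef : γ * J.card + aU ℓ lam J L η₁ s * SJ ℓ lam J L + 6 * M + (L - fs ℓ lam) + 2 * α ≤ δ)
    (N : ℕ) :
    eh ℓ lam (N + 1) ω ≤ (N + 1) * (fs ℓ lam - α * (1 - 2 * η))
      - ∑ n ∈ Finset.range N, (∑ D ∈ J, (aU ℓ lam J L η₁ s * wJ ℓ lam L D + γ) *
          rK ℓ lam J ω {D} n - rps ℓ lam ω J L n - α * rnJ ℓ lam J ω n)
      + ∑ n ∈ Finset.range (N + 1), (γ * ∑ D ∈ J, frK ℓ lam ω {D} n
        + bU ℓ lam J L * ∑ D ∈ Jᶜ, rhoJ ℓ lam L D * frK ℓ lam ω {D} n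
        + 3 * RJ ℓ lam J L * ∑ D ∈ J, ∑ D' ∈ Jᶜ, frK ℓ lam ω {D, D'} n
        + 57 / 2 * η * M * ∑ D, frK ℓ lam ω {D} n)
      + (γ + 4 * M + α) := by
  classical
  have hW0 := WJ_nonneg (ℓ := ℓ) (lam := lam) (J := J) (L := L)
  have hρ : ∀ D, 0 ≤ rhoJ ℓ lam L D := rhoU_nonneg hG
  have hR : 0 ≤ RJ ℓ lam J L := (RU_pos hG).le
  have hS1 : 1 ≤ SJ ℓ lam J L := one_le_SJ hG
  have hγ := hG.nn
  have hb : 0 ≤ bU ℓ lam J L := by
    unfold bU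
    refine div_nonneg zero_le_one ?_
    linarith
  have h1 := eh_le_visitsU2 (lam := lam) ω hG hlam hs hm hη₁ hη1 hW (N + 1)
  set SB := ∑ n ∈ Finset.range (N + 1), BJ ℓ lam J ω n with hSB
  set SZ := ∑ n ∈ Finset.range (N + 1), ZJ ℓ lam J ω n with hSZ
  have hSB0 : 0 ≤ SB := Finset.sum_nonneg fun n _ => BJ_nonneg ℓ lam J ω n
  -- lower bound
  have hlow : ∀ D, ∑ n ∈ Finset.range N, rK ℓ lam J ω {D} n - SB ≤
      ∑ n ∈ Finset.range (N + 1), kK ℓ lam J ω {D} n := by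
    intro D
    rw [hSB, Finset.sum_range_succ' (fun n => kK ℓ lam J ω {D} n),
      Finset.sum_range_succ' (fun n => BJ ℓ lam J ω n)]
    have h5 : ∑ n ∈ Finset.range N, rK ℓ lam J ω {D} n ≤
        ∑ n ∈ Finset.range N, (kK ℓ lam J ω {D} (n + 1) + BJ ℓ lam J ω (n + 1)) :=
      Finset.sum_le_sum fun n _ => rK_le_kK ℓ lam J ω D n
    rw [Finset.sum_add_distrib] at h5
    have h6 := BJ_nonneg ℓ lam J ω 0
    have h7 := kK_nonneg ℓ lam J ω {D} 0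
    linarith
  -- upper bound
  have hup : ∀ K, ∑ n ∈ Finset.range (N + 1), kK ℓ lam J ω K n ≤
      ∑ n ∈ Finset.range (N + 1), frK ℓ lam ω K n + (1 + SZ) := by
    intro K
    rw [hSZ, Finset.sum_range_succ' (fun n => kK ℓ lam J ω K n),
      Finset.sum_range_succ' (fun n => ZJ ℓ lam J ω n),
      Finset.sum_range_succ (fun n => frK ℓ lam ω K n)]
    have h5 : ∑ n ∈ Finset.range N, kK ℓ lam J ω K (n + 1) ≤
        ∑ n ∈ Finset.range N, (frK ℓ lam ω K n + ZJ ℓ lam J ω (n + 1)) :=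
      Finset.sum_le_sum fun n _ => kK_le_frKU ℓ lam ω hG' K n
    rw [Finset.sum_add_distrib] at h5
    have h6 := ZJ_nonneg ℓ lam J ω 0
    have h7 := kK_le_one ℓ lam J ω K 0
    have h8 := frK_nonneg ℓ lam ω K N
    linarith
  have hZ := sum_ZJ_leU ω hG' hQ hη0 hη (N + 1)
  have hC : ∑ n ∈ Finset.range (N + 1), CJ ℓ lam J ω n ≤
      ∑ n ∈ Finset.range (N + 1), ∑ D, frK ℓ lam ω {D} n :=
    Finset.sum_le_sum fun n _ => CJ_leU ℓ lam ω hG' n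
  -- the effect on the mean gain
  have s0 : ∑ n ∈ Finset.range (N + 1), ∫ x, psJ ℓ lam J L x ω ∂(lawAt ℓ lam ω n) ≤
      γ + ∑ n ∈ Finset.range N, rps ℓ lam ω J L n +
      ∑ n ∈ Finset.range (N + 1), γ * ∑ D ∈ J, frK ℓ lam ω {D} n -
      ∑ n ∈ Finset.range N, γ * ∑ D ∈ J, rK ℓ lam J ω {D} n +
      γ * J.card * (SZ + SB) := by
    have hpsle : ∀ x, psJ ℓ lam J L x ω ≤ γ := by
      intro x
      unfold psJ
      split_ifs with hB
      · exact hγ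
      · exact (abs_le.1 (phJ_le hG hlam hs hB).2).2
    have h0 : ∫ x, psJ ℓ lam J L x ω ∂(lawAt ℓ lam ω 0) ≤ γ := by
      have h2 : ∫ x, psJ ℓ lam J L x ω ∂(lawAt ℓ lam ω 0) ≤
          ∫ _x, γ ∂(lawAt ℓ lam ω 0) :=
        integral_mono (integrable_lawAt ..) (integrable_const _) hpsle
      simpa using h2
    rw [Finset.sum_range_succ' (fun n => ∫ x, psJ ℓ lam J L x ω ∂(lawAt ℓ lam ω n)),
      hSZ, hSB, Finset.sum_range_succ' (fun n => ZJ ℓ lam J ω n),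
      Finset.sum_range_succ' (fun n => BJ ℓ lam J ω n),
      Finset.sum_range_succ (fun n => γ * ∑ D ∈ J, frK ℓ lam ω {D} n)]
    have h2 : ∑ n ∈ Finset.range N, ∫ x, psJ ℓ lam J L x ω ∂(lawAt ℓ lam ω (n + 1)) ≤
        ∑ n ∈ Finset.range N, (rps ℓ lam ω J L n +
          (γ * ∑ D ∈ J, frK ℓ lam ω {D} n - γ * ∑ D ∈ J, rK ℓ lam J ω {D} n) +
          (γ * J.card * ZJ ℓ lam J ω (n + 1) + γ * J.card * BJ ℓ lam J ω (n + 1))) := by
      refine Finset.sum_le_sum fun n _ => ?_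
      have h3 := integral_psJ_le ℓ lam ω hG' hγ (fun x hB => (phJ_le hG hlam hs hB).1) n
      rw [Finset.sum_sub_distrib] at h3
      linarith
    rw [Finset.sum_add_distrib, Finset.sum_add_distrib, Finset.sum_add_distrib,
      Finset.sum_sub_distrib, ← Finset.mul_sum (Finset.range N) (fun n => ZJ ℓ lam J ω (n + 1)),
      ← Finset.mul_sum (Finset.range N) (fun n => BJ ℓ lam J ω (n + 1))] at h2
    have h3 : 0 ≤ γ * J.card := by positivity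
    have h4 := mul_nonneg h3 (ZJ_nonneg ℓ lam J ω 0)
    have h5 := mul_nonneg h3 (BJ_nonneg ℓ lam J ω 0)
    have h6 : 0 ≤ γ * ∑ D ∈ J, frK ℓ lam ω {D} N :=
      mul_nonneg hγ (Finset.sum_nonneg fun D _ => frK_nonneg ℓ lam ω {D} N)
    linarith
  -- the first sum
  have s1 : ∑ n ∈ Finset.range N, ∑ D ∈ J, aU ℓ lam J L η₁ s * wJ ℓ lam L D *
        rK ℓ lam J ω {D} n - aU ℓ lam J L η₁ s * SJ ℓ lam J L * SB ≤
      aU ℓ lam J L η₁ s * ∑ D ∈ J, wJ ℓ lam L D *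
        ∑ n ∈ Finset.range (N + 1), kK ℓ lam J ω {D} n := by
    have h2 : ∑ D ∈ J, wJ ℓ lam L D * (∑ n ∈ Finset.range N, rK ℓ lam J ω {D} n - SB) ≤
        ∑ D ∈ J, wJ ℓ lam L D * ∑ n ∈ Finset.range (N + 1), kK ℓ lam J ω {D} n :=
      Finset.sum_le_sum fun D _ => mul_le_mul_of_nonneg_left (hlow D) (wJ_pos D).le
    simp only [mul_sub, Finset.sum_sub_distrib] at h2
    rw [← Finset.sum_mul] at h2
    have h3 := mul_le_mul_of_nonneg_left h2 ha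
    have h4 : ∑ n ∈ Finset.range N, ∑ D ∈ J, aU ℓ lam J L η₁ s * wJ ℓ lam L D *
        rK ℓ lam J ω {D} n = aU ℓ lam J L η₁ s *
          ∑ D ∈ J, wJ ℓ lam L D * ∑ n ∈ Finset.range N, rK ℓ lam J ω {D} n := by
      rw [Finset.sum_comm, Finset.mul_sum]
      refine Finset.sum_congr rfl fun D _ => ?_
      rw [← Finset.mul_sum]
      ring
    rw [h4]
    have h5 : SJ ℓ lam J L = ∑ D ∈ J, wJ ℓ lam L D := rfl
    rw [h5]
    linarith
  -- the second sum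
  have s2 : bU ℓ lam J L * ∑ D ∈ Jᶜ, rhoJ ℓ lam L D *
        ∑ n ∈ Finset.range (N + 1), kK ℓ lam J ω {D} n ≤
      ∑ n ∈ Finset.range (N + 1), bU ℓ lam J L * ∑ D ∈ Jᶜ, rhoJ ℓ lam L D * frK ℓ lam ω {D} n
        + bU ℓ lam J L * RJ ℓ lam J L * (1 + SZ) := by
    have h2 : ∑ D ∈ Jᶜ, rhoJ ℓ lam L D * ∑ n ∈ Finset.range (N + 1), kK ℓ lam J ω {D} n ≤
        ∑ D ∈ Jᶜ, (rhoJ ℓ lam L D * ∑ n ∈ Finset.range (N + 1), frK ℓ lam ω {D} n +
          rhoJ ℓ lam L D * (1 + SZ)) := by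
      refine Finset.sum_le_sum fun D _ => ?_
      rw [← mul_add]
      exact mul_le_mul_of_nonneg_left (hup {D}) (hρ D)
    rw [Finset.sum_add_distrib, ← Finset.sum_mul] at h2
    have h3 := mul_le_mul_of_nonneg_left h2 hb
    have h4 : ∑ n ∈ Finset.range (N + 1), bU ℓ lam J L *
        ∑ D ∈ Jᶜ, rhoJ ℓ lam L D * frK ℓ lam ω {D} n =
        bU ℓ lam J L * ∑ D ∈ Jᶜ, rhoJ ℓ lam L D *
          ∑ n ∈ Finset.range (N + 1), frK ℓ lam ω {D} n := by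
      rw [← Finset.mul_sum, Finset.sum_comm]
      congr 1
      refine Finset.sum_congr rfl fun D _ => ?_
      rw [Finset.mul_sum]
    rw [h4]
    have h5 : RJ ℓ lam J L = ∑ D ∈ Jᶜ, rhoJ ℓ lam L D := rfl
    rw [h5]
    linarith
  -- the third sum
  have s3 : 3 * RJ ℓ lam J L * ∑ D ∈ J, ∑ D' ∈ Jᶜ,
        ∑ n ∈ Finset.range (N + 1), kK ℓ lam J ω {D, D'} n ≤
      ∑ n ∈ Finset.range (N + 1), 3 * RJ ℓ lam J L *
        ∑ D ∈ J, ∑ D' ∈ Jᶜ, frK ℓ lam ω {D, D'} n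
        + 3 * RJ ℓ lam J L * (J.card * (Jᶜ).card) * (1 + SZ) := by
    have h2 : ∑ D ∈ J, ∑ D' ∈ Jᶜ, ∑ n ∈ Finset.range (N + 1), kK ℓ lam J ω {D, D'} n ≤
        ∑ D ∈ J, ∑ D' ∈ Jᶜ, (∑ n ∈ Finset.range (N + 1), frK ℓ lam ω {D, D'} n + (1 + SZ)) :=
      Finset.sum_le_sum fun D _ => Finset.sum_le_sum fun D' _ => hup {D, D'}
    simp only [Finset.sum_add_distrib, Finset.sum_const, nsmul_eq_mul] at h2
    have h3 := mul_le_mul_of_nonneg_left h2 (mul_nonneg (by norm_num : (0 : ℝ) ≤ 3) hR)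
    have h4 : ∑ n ∈ Finset.range (N + 1), 3 * RJ ℓ lam J L *
        ∑ D ∈ J, ∑ D' ∈ Jᶜ, frK ℓ lam ω {D, D'} n =
        3 * RJ ℓ lam J L * ∑ D ∈ J, ∑ D' ∈ Jᶜ,
          ∑ n ∈ Finset.range (N + 1), frK ℓ lam ω {D, D'} n := by
      rw [← Finset.mul_sum, Finset.sum_comm]
      congr 1
      refine Finset.sum_congr rfl fun D _ => ?_
      rw [Finset.sum_comm]
    rw [h4]
    linarith
  have hM0 : 0 ≤ M := by
    refine le_trans ?_ hM
    positivity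
  set SF := ∑ n ∈ Finset.range (N + 1), ∑ D, frK ℓ lam ω {D} n with hSF
  have hZ2 : 1 + SZ ≤ 4 + 6 * SB + 57 / 2 * η * SF := by
    have := mul_le_mul_of_nonneg_left hC (by positivity : 0 ≤ 57 / 2 * η)
    linarith
  have hSZ0 : 0 ≤ SZ := Finset.sum_nonneg fun n _ => ZJ_nonneg ℓ lam J ω n
  have h5 := mul_le_mul_of_nonneg_right hM (by linarith : 0 ≤ 1 + SZ)
  have h6 := mul_le_mul_of_nonneg_left hZ2 hM0
  have h7 := mul_le_mul_of_nonneg_right hcoef hSB0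
  have hγm : 0 ≤ γ * J.card := by positivity
  -- the records
  have hrec := sum_rnJ_geU ℓ lam ω hG' hQ hη0 N
  set SB' := ∑ n ∈ Finset.range N, BJ ℓ lam J ω n with hSB'
  have hSB'le : SB' ≤ SB := by
    rw [hSB, Finset.sum_range_succ, ← hSB']
    have := BJ_nonneg ℓ lam J ω N
    linarith
  have h8 := mul_le_mul_of_nonneg_left hrec hα
  have h9 := mul_le_mul_of_nonneg_left hSB'le hα
  have h10 : α * (1 - 2 * η) ≤ α := mul_le_of_le_one_right hα (by linarith)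
  -- the splitting of the sums
  have t1 : ∑ n ∈ Finset.range N, (∑ D ∈ J, (aU ℓ lam J L η₁ s * wJ ℓ lam L D + γ) *
          rK ℓ lam J ω {D} n - rps ℓ lam ω J L n - α * rnJ ℓ lam J ω n) =
      ∑ n ∈ Finset.range N, ∑ D ∈ J, aU ℓ lam J L η₁ s * wJ ℓ lam L D *
        rK ℓ lam J ω {D} n + ∑ n ∈ Finset.range N, γ * ∑ D ∈ J, rK ℓ lam J ω {D} n
      - ∑ n ∈ Finset.range N, rps ℓ lam ω J L n
      - α * ∑ n ∈ Finset.range N, rnJ ℓ lam J ω n := by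
    rw [Finset.mul_sum (Finset.range N) (fun n => rnJ ℓ lam J ω n),
      ← Finset.sum_add_distrib, ← Finset.sum_sub_distrib, ← Finset.sum_sub_distrib]
    refine Finset.sum_congr rfl fun n _ => ?_
    have e1 : ∑ D ∈ J, (aU ℓ lam J L η₁ s * wJ ℓ lam L D + γ) * rK ℓ lam J ω {D} n =
        ∑ D ∈ J, aU ℓ lam J L η₁ s * wJ ℓ lam L D * rK ℓ lam J ω {D} n +
        γ * ∑ D ∈ J, rK ℓ lam J ω {D} n := by
      rw [Finset.mul_sum, ← Finset.sum_add_distrib]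
      exact Finset.sum_congr rfl fun D _ => by ring
    rw [e1]
  rw [t1, Finset.sum_add_distrib, Finset.sum_add_distrib, Finset.sum_add_distrib,
    ← Finset.mul_sum (Finset.range (N + 1)) (fun n => ∑ D, frK ℓ lam ω {D} n)]
  push_cast at h1 ⊢
  nlinarith

end Pool.Agent.P2ec0u
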