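import Pool.Agent.Lib.P2ec0u.RecsU
import Pool.Agent.Lib.P2ec0u.DriftU
import Pool.Agent.Lib.P2ec0u.LimU

/-!
# The quenched inequalities, nearly maximal directions
-/

open MeasureTheory ProbabilityTheory Filter Topology Function
open scoped unitInterval ENNReal

namespace Pool.Agent.P2ec0u

open Pool.Agent.P2ec0f3 Pool.Agent.P2ec0g Pool.Agent.P2ec0h

variable {d : ℕ} {ℓ ℓ' : Fin d → ℝ} {lam : ℝ} (ω : Set (Edge d)) {J : Finset (Fin d × Bool)}
  {L' δ' L γ δ η : ℝ}

lemma drift_height_le_LU (hG : GapU ℓ J L γ δ) (x : Vtx d) :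
    drift ℓ lam ω (height ℓ) x ≤ L := by
  rw [drift_height]
  have h1 : ∑ D, sp ℓ lam ω x D * gain ℓ D ≤ ∑ D, sp ℓ lam ω x D * L :=
    Finset.sum_le_sum fun D _ => mul_le_mul_of_nonneg_left (hG.maxi D) (sp_nonneg ..)
  rw [← Finset.sum_mul] at h1
  have h2 := sum_sp_le ℓ lam ω x
  have h3 : 0 ≤ L := hG.pos.le.trans hG.le
  have := mul_le_mul_of_nonneg_right h2 h3
  linarith

lemma drift_height_blockedU (hG : GapU ℓ J L γ δ) {x : Vtx d} (h : Blk J ω x) :
    drift ℓ lam ω (height ℓ) x ≤ L - δ := by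
  rw [drift_height]
  have h1 : ∑ D, sp ℓ lam ω x D * gain ℓ D ≤ ∑ D, sp ℓ lam ω x D * (L - δ) := by
    refine Finset.sum_le_sum fun D _ => ?_
    by_cases hD : D ∈ J
    · have h0 : sp ℓ lam ω x D = 0 := by
        unfold sp
        rw [weight_of_notMem ℓ lam (h D hD), zero_div]
      rw [h0]; simp
    · refine mul_le_mul_of_nonneg_left ?_ (sp_nonneg ..)
      have := hG.gap D hD
      linarith
  rw [← Finset.sum_mul] at h1
  have h2 := sum_sp_le ℓ lam ω x
  have h3 : 0 ≤ L - δ := by linarith [hG.le]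
  have := mul_le_mul_of_nonneg_right h2 h3
  linarith

/-! ### First regime -/

lemma eh_le_visitsU (hG : GapU ℓ J L γ δ) (N : ℕ) :
    eh ℓ lam N ω ≤ N * fs ℓ lam +
      (L - fs ℓ lam) * ∑ n ∈ Finset.range N, uJ ℓ lam ω J n -
      (δ - (L - fs ℓ lam)) * ∑ n ∈ Finset.range N, BJ ℓ lam J ω n := by
  classical
  induction N with
  | zero => simp [eh_zero]
  | succ N ih =>
    set sB : Set (Vtx d) := {x | Blk J ω x} with hsB
    set sU : Set (Vtx d) := {x | ¬ Blk J ω x ∧ ¬ Full ω x} with hsU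
    have h2 : ∫ x, drift ℓ lam ω (height ℓ) x ∂(lawAt ℓ lam ω N) ≤
        ∫ x, (fs ℓ lam + ((L - fs ℓ lam) * sU.indicator (fun _ => (1 : ℝ)) x -
          (δ - (L - fs ℓ lam)) * sB.indicator (fun _ => (1 : ℝ)) x)) ∂(lawAt ℓ lam ω N) := by
      refine integral_mono (integrable_lawAt ..) (integrable_lawAt ..) fun x => ?_
      by_cases hB : Blk J ω x
      · have hb : x ∈ sB := hB
        have hu : x ∉ sU := fun h => h.1 hB
        rw [Set.indicator_of_mem hb, Set.indicator_of_notMem hu]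
        have := drift_height_blockedU (lam := lam) ω hG hB
        linarith
      · have hb : x ∉ sB := hB
        rw [Set.indicator_of_notMem hb]
        by_cases hU : Full ω x
        · have hu : x ∉ sU := fun h => h.2 hU
          rw [Set.indicator_of_notMem hu, drift_height_full ℓ lam ω hU]
          simp
        · have hu : x ∈ sU := ⟨hB, hU⟩
          rw [Set.indicator_of_mem hu]
          have := drift_height_le_LU (lam := lam) ω hG x
          linarith
    have h3 : ∫ x, (fs ℓ lam + ((L - fs ℓ lam) * sU.indicator (fun _ => (1 : ℝ)) x -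
          (δ - (L - fs ℓ lam)) * sB.indicator (fun _ => (1 : ℝ)) x)) ∂(lawAt ℓ lam ω N) =
        fs ℓ lam + ((L - fs ℓ lam) * uJ ℓ lam ω J N -
          (δ - (L - fs ℓ lam)) * BJ ℓ lam J ω N) := by
      have i1 : ∀ g : Vtx d → ℝ, Integrable g (lawAt ℓ lam ω N) := integrable_lawAt ℓ lam ω N
      rw [integral_add (i1 _) (i1 _), integral_sub (i1 _) (i1 _), integral_const_mul,
        integral_const_mul, integral_indicator_lawAt, integral_indicator_lawAt]
      simp only [integral_const, probReal_univ, smul_eq_mul, one_mul]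
      rfl
    rw [h3] at h2
    rw [eh_succ, Finset.sum_range_succ, Finset.sum_range_succ]
    push_cast
    linarith

lemma uJ_le_THU (n : ℕ) :
    2 / 5 * uJ ℓ lam ω J n ≤
      TH ℓ lam J ω (fun k => if k ≤ 0 then (2 / 5 : ℝ) else 0) n := by
  classical
  unfold uJ TH
  set sU : Set (Vtx d) := {x | ¬ Blk J ω x ∧ ¬ Full ω x} with hsU
  rw [← integral_ind ℓ lam ω n sU, ← integral_const_mul]
  refine integral_mono_ae ((integrable_indJ ℓ lam ω n sU).const_mul _)
    (integrable_phi ℓ lam J ω n fun k => ?_) ?_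
  · split_ifs <;> norm_num
  · filter_upwards [ae_good ℓ lam ω] with X hX
    by_cases hu : X n ∈ sU
    · rw [Set.indicator_of_mem hu]
      have h1 := tauJ_le_al J ω hX.1 hu.2
      have h2 := hJ_le_tauJ J ω (X n)
      unfold phi
      rw [if_neg hu.1]
      beta_reduce
      rw [if_pos (by omega)]
      norm_num
    · rw [Set.indicator_of_notMem hu]
      unfold phi
      beta_reduce
      rw [mul_zero]
      split_ifs
      · exact le_rfl
      · norm_num
      · exact le_rfl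

/-- The quenched inequality of the first regime. -/
lemma quen1 (hG' : GapJ ℓ' J L' δ') (hG : GapU ℓ J L γ δ)
    (hQ : ∀ x, ¬ Blk J ω x → ∑ D ∈ Jᶜ, sp ℓ lam ω x D ≤ η) (hη0 : 0 ≤ η) (hη : η ≤ 1 / 100)
    (hl0 : 0 ≤ L - fs ℓ lam) {c α : ℝ} (hc : c = (δ - 9 / 4 * (L - fs ℓ lam)) / 3)
    (hα0 : 0 ≤ α) (hαc : α ≤ c) (N : ℕ) :
    eh ℓ lam (N + 1) ω ≤ (N + 1) * (fs ℓ lam - α * (1 - 2 * η))
      - ∑ n ∈ Finset.range N, (c * rK ℓ lam J ω J n - α * rnJ ℓ lam J ω n)
      + ∑ n ∈ Finset.range (N + 1), 15 / 4 * (L - fs ℓ lam) * ∑ D, frK ℓ lam ω {D} n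
      + (15 / 4 * (L - fs ℓ lam) + α) := by
  have h1 := eh_le_visitsU (lam := lam) ω hG (N + 1)
  have h2 := sum_TH_leU (θ := fun k => if k ≤ 0 then (2 / 5 : ℝ) else 0) ω hG' hQ hη
    (fun k => by split_ifs <;> norm_num)
    (fun k hk => by rw [if_pos hk])
    (fun k hk => by
      rw [if_neg (by omega)]
      have := lf_nonneg k
      positivity) (N + 1)
  have h2' : 2 / 5 * ∑ n ∈ Finset.range (N + 1), uJ ℓ lam ω J n ≤
      ∑ n ∈ Finset.range (N + 1), TH ℓ lam J ω (fun k => if k ≤ 0 then (2 / 5 : ℝ) else 0) n := by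
    rw [Finset.mul_sum]
    exact Finset.sum_le_sum fun n _ => uJ_le_THU ω n
  have h3 : ∑ n ∈ Finset.range (N + 1), CJ ℓ lam J ω n ≤
      ∑ n ∈ Finset.range (N + 1), ∑ D, frK ℓ lam ω {D} n :=
    Finset.sum_le_sum fun n _ => CJ_leU ℓ lam ω hG' n
  have h4 : ∑ n ∈ Finset.range N, rK ℓ lam J ω J n ≤
      ∑ n ∈ Finset.range (N + 1), BJ ℓ lam J ω n := by
    rw [Finset.sum_range_succ']
    have h5 : ∑ n ∈ Finset.range N, rK ℓ lam J ω J n ≤
        ∑ n ∈ Finset.range N, BJ ℓ lam J ω (n + 1) :=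
      Finset.sum_le_sum fun n _ => rK_le_BJ ℓ lam J ω n
    have h6 := BJ_nonneg ℓ lam J ω 0
    linarith
  have h5 : ∑ n ∈ Finset.range N, BJ ℓ lam J ω n ≤
      ∑ n ∈ Finset.range (N + 1), BJ ℓ lam J ω n := by
    rw [Finset.sum_range_succ]
    have h6 := BJ_nonneg ℓ lam J ω N
    linarith
  have h6 := sum_rnJ_geU ℓ lam ω hG' hQ hη0 N
  rw [← Finset.mul_sum, Finset.sum_sub_distrib, ← Finset.mul_sum, ← Finset.mul_sum]
  set q := L - fs ℓ lam with hqdef
  set SU := ∑ n ∈ Finset.range (N + 1), uJ ℓ lam ω J n with hSU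
  set SB := ∑ n ∈ Finset.range (N + 1), BJ ℓ lam J ω n with hSB
  set SB' := ∑ n ∈ Finset.range N, BJ ℓ lam J ω n with hSB'
  set SC := ∑ n ∈ Finset.range (N + 1), CJ ℓ lam J ω n with hSC
  set SF := ∑ n ∈ Finset.range (N + 1), ∑ D, frK ℓ lam ω {D} n with hSF
  set SR := ∑ n ∈ Finset.range N, rnJ ℓ lam J ω n with hSR
  set SK := ∑ n ∈ Finset.range N, rK ℓ lam J ω J n with hSK
  have hSB0 : 0 ≤ SB := Finset.sum_nonneg fun n _ => BJ_nonneg ℓ lam J ω n
  have hSB0' : 0 ≤ SB' := Finset.sum_nonneg fun n _ => BJ_nonneg ℓ lam J ω n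
  have hc0 : 0 ≤ c := hα0.trans hαc
  have h7 : SU ≤ 15 / 4 + 5 / 4 * SB + 15 / 4 * SC := by linarith
  have h8 := mul_le_mul_of_nonneg_left h7 hl0
  have h9 := mul_le_mul_of_nonneg_left h3 (mul_nonneg (by norm_num : (0 : ℝ) ≤ 15 / 4) hl0)
  have h10 := mul_le_mul_of_nonneg_left h4 hc0
  have h11 := mul_le_mul_of_nonneg_left h5 hc0
  have h12 := mul_le_mul_of_nonneg_right hαc hSB0'
  have h13 := mul_le_mul_of_nonneg_left h6 hα0
  have h14 : δ - 9 / 4 * q = 3 * c := by rw [hc]; ring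
  have h15 : (δ - q) * SB = 3 * c * SB + 5 / 4 * q * SB := by rw [← h14]; ring
  have h16 : α * (1 - 2 * η) ≤ α := mul_le_of_le_one_right hα0 (by linarith)
  push_cast at h1 ⊢
  rw [h15] at h1
  nlinarith

/-! ### Second regime -/

variable (ℓ lam J) in
/-- The loss of the closed edges in the directions of `J`. -/
noncomputable def aU (L η₁ s : ℝ) : ℝ :=
  (1 - η₁) * RJ ℓ lam J L / ((SJ ℓ lam J L + WJ ℓ lam J L) *
          (SJ ℓ lam J L + WJ ℓ lam J L - Real.exp (-s)))

variable (ℓ lam J) in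
/-- The factor of the closed edges in the other directions. -/
noncomputable def bU (L : ℝ) : ℝ := 1 / (SJ ℓ lam J L + WJ ℓ lam J L)

lemma eh_le_visitsU2 {s η₁ : ℝ} (hG : GapU ℓ J L γ δ) (hlam : 0 < lam)
    (hs : lam * γ ≤ s) (hm : 2 ≤ J.card)
    (hη₁ : (2 * d + 1) * Real.exp s * (γ / δ) ≤ η₁) (hη1 : η₁ ≤ 1) (hW : WJ ℓ lam J L ≤ 1)
    (N : ℕ) :
    eh ℓ lam N ω ≤ N * fs ℓ lam
      + ∑ n ∈ Finset.range N, ∫ x, psJ ℓ lam J L x ω ∂(lawAt ℓ lam ω n)
      - aU ℓ lam J L η₁ s * ∑ D ∈ J, wJ ℓ lam L D *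
          ∑ n ∈ Finset.range N, kK ℓ lam J ω {D} n
      + bU ℓ lam J L * ∑ D ∈ Jᶜ, rhoJ ℓ lam L D * ∑ n ∈ Finset.range N, kK ℓ lam J ω {D} n
      + 3 * RJ ℓ lam J L * ∑ D ∈ J, ∑ D' ∈ Jᶜ, ∑ n ∈ Finset.range N, kK ℓ lam J ω {D, D'} n
      - (δ - (L - fs ℓ lam)) * ∑ n ∈ Finset.range N, BJ ℓ lam J ω n := by
  classical
  induction N with
  | zero => simp [eh_zero]
  | succ N ih =>
    set sB : Set (Vtx d) := {x | Blk J ω x} with hsB
    set kS : Finset (Fin d × Bool) → Set (Vtx d) := fun K =>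
      {x | ¬ Blk J ω x ∧ ∀ D ∈ K, edgeTo x D ∉ ω} with hkS
    have h2 : ∫ x, drift ℓ lam ω (height ℓ) x ∂(lawAt ℓ lam ω N) ≤
        ∫ x, (fs ℓ lam + psJ ℓ lam J L x ω
          - aU ℓ lam J L η₁ s * ∑ D ∈ J, wJ ℓ lam L D * (kS {D}).indicator (fun _ => (1 : ℝ)) x
          + bU ℓ lam J L * ∑ D ∈ Jᶜ, rhoJ ℓ lam L D * (kS {D}).indicator (fun _ => (1 : ℝ)) x
          + 3 * RJ ℓ lam J L *
            ∑ D ∈ J, ∑ D' ∈ Jᶜ, (kS {D, D'}).indicator (fun _ => (1 : ℝ)) x
          - (δ - (L - fs ℓ lam)) * sB.indicator (fun _ => (1 : ℝ)) x) ∂(lawAt ℓ lam ω N) := by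
      refine integral_mono (integrable_lawAt ..) (integrable_lawAt ..) fun x => ?_
      by_cases hB : Blk J ω x
      · have hb : x ∈ sB := hB
        have hk : ∀ K, (kS K).indicator (fun _ => (1 : ℝ)) x = 0 := fun K =>
          Set.indicator_of_notMem (fun h => h.1 hB) _
        have hps : psJ ℓ lam J L x ω = 0 := by
          unfold psJ
          rw [if_pos hB]
        simp only [hk, hps]
        rw [Set.indicator_of_mem hb]
        have := drift_height_blockedU (lam := lam) ω hG hB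
        simp only [Finset.sum_const_zero, mul_zero]
        linarith
      · have hb : x ∉ sB := hB
        rw [Set.indicator_of_notMem hb]
        have h1 := drift_unblockedU (lam := lam) hG hlam hs hm hη₁ hη1 hW hB
        have hps : psJ ℓ lam J L x ω = phJ ℓ lam J L x ω := by
          unfold psJ
          rw [if_neg hB]
        have hk1 : ∀ D, (kS {D}).indicator (fun _ => (1 : ℝ)) x = cl (edgeTo x D) ω := by
          intro D
          unfold cl
          by_cases hD : edgeTo x D ∈ ω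
          · rw [if_pos hD, Set.indicator_of_notMem]
            intro h
            exact h.2 D (Finset.mem_singleton_self D) hD
          · rw [if_neg hD, Set.indicator_of_mem]
            refine ⟨hB, fun D' hD' => ?_⟩
            rw [Finset.mem_singleton.1 hD']
            exact hD
        have hk2 : ∀ D D', (kS {D, D'}).indicator (fun _ => (1 : ℝ)) x =
            cl (edgeTo x D) ω * cl (edgeTo x D') ω := by
          intro D D'
          unfold cl
          by_cases hD : edgeTo x D ∈ ω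
          · rw [if_pos hD, zero_mul, Set.indicator_of_notMem]
            intro h
            exact h.2 D (by simp) hD
          · by_cases hD' : edgeTo x D' ∈ ω
            · rw [if_pos hD', mul_zero, Set.indicator_of_notMem]
              intro h
              exact h.2 D' (by simp) hD'
            · rw [if_neg hD, if_neg hD', mul_one, Set.indicator_of_mem]
              refine ⟨hB, fun D'' hD'' => ?_⟩
              rcases Finset.mem_insert.1 hD'' with h | h
              · rw [h]; exact hD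
              · rw [Finset.mem_singleton.1 h]; exact hD'
        simp only [hk1, hk2, hps]
        rw [mul_zero, sub_zero]
        exact h1
    have i1 : ∀ g : Vtx d → ℝ, Integrable g (lawAt ℓ lam ω N) := integrable_lawAt ℓ lam ω N
    have h3 : ∫ x, (fs ℓ lam + psJ ℓ lam J L x ω
          - aU ℓ lam J L η₁ s * ∑ D ∈ J, wJ ℓ lam L D * (kS {D}).indicator (fun _ => (1 : ℝ)) x
          + bU ℓ lam J L * ∑ D ∈ Jᶜ, rhoJ ℓ lam L D * (kS {D}).indicator (fun _ => (1 : ℝ)) x
          + 3 * RJ ℓ lam J L *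
            ∑ D ∈ J, ∑ D' ∈ Jᶜ, (kS {D, D'}).indicator (fun _ => (1 : ℝ)) x
          - (δ - (L - fs ℓ lam)) * sB.indicator (fun _ => (1 : ℝ)) x) ∂(lawAt ℓ lam ω N) =
        fs ℓ lam + ∫ x, psJ ℓ lam J L x ω ∂(lawAt ℓ lam ω N)
          - aU ℓ lam J L η₁ s * ∑ D ∈ J, wJ ℓ lam L D * kK ℓ lam J ω {D} N
          + bU ℓ lam J L * ∑ D ∈ Jᶜ, rhoJ ℓ lam L D * kK ℓ lam J ω {D} N
          + 3 * RJ ℓ lam J L * ∑ D ∈ J, ∑ D' ∈ Jᶜ, kK ℓ lam J ω {D, D'} N
          - (δ - (L - fs ℓ lam)) * BJ ℓ lam J ω N := by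
      rw [integral_sub (i1 _) (i1 _), integral_add (i1 _) (i1 _), integral_add (i1 _) (i1 _),
        integral_sub (i1 _) (i1 _), integral_add (i1 _) (i1 _), integral_const_mul,
        integral_const_mul, integral_const_mul,
        integral_const_mul, integral_finsetSum _ fun D _ => i1 _,
        integral_finsetSum _ fun D _ => i1 _, integral_finsetSum _ fun D _ => i1 _,
        integral_indicator_lawAt]
      have e1 : ∀ K, ∫ x, (kS K).indicator (fun _ => (1 : ℝ)) x ∂(lawAt ℓ lam ω N) =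
          kK ℓ lam J ω K N := fun K => integral_indicator_lawAt ω N _
      have e0 : ∀ D ∈ J, ∫ x, wJ ℓ lam L D * (kS {D}).indicator (fun _ => (1 : ℝ)) x
          ∂(lawAt ℓ lam ω N) = wJ ℓ lam L D * kK ℓ lam J ω {D} N := fun D _ => by
        rw [integral_const_mul, e1]
      have e2 : ∀ D ∈ Jᶜ, ∫ x, rhoJ ℓ lam L D * (kS {D}).indicator (fun _ => (1 : ℝ)) x
          ∂(lawAt ℓ lam ω N) = rhoJ ℓ lam L D * kK ℓ lam J ω {D} N := fun D _ => by
        rw [integral_const_mul, e1]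
      have e3 : ∀ D ∈ J, ∫ x, ∑ D' ∈ Jᶜ, (kS {D, D'}).indicator (fun _ => (1 : ℝ)) x
          ∂(lawAt ℓ lam ω N) = ∑ D' ∈ Jᶜ, kK ℓ lam J ω {D, D'} N := fun D _ => by
        rw [integral_finsetSum _ fun D _ => i1 _]
        exact Finset.sum_congr rfl fun D' _ => e1 _
      rw [Finset.sum_congr rfl e0, Finset.sum_congr rfl e2,
        Finset.sum_congr rfl e3]
      simp only [integral_const, probReal_univ, smul_eq_mul, one_mul]
      rfl
    rw [h3] at h2
    rw [eh_succ, Finset.sum_range_succ]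
    simp only [Finset.sum_range_succ, mul_add, Finset.sum_add_distrib]
    push_cast
    linarith

end Pool.Agent.P2ec0u
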