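import Pool.Agent.Lib.P2ec0u.FreshU
import Pool.Agent.Lib.P2ec0h.QuenJ

/-!
# Records and the effect of the closed edges away from the records
-/

open MeasureTheory ProbabilityTheory Filter Topology Function
open scoped unitInterval ENNReal

namespace Pool.Agent.P2ec0u

open Pool.Agent.P2ec0f3 Pool.Agent.P2ec0g Pool.Agent.P2ec0h

variable {d : ℕ} (ℓ : Fin d → ℝ) {ℓ' : Fin d → ℝ} (lam : ℝ) {J : Finset (Fin d × Bool)}
  (ω : Set (Edge d)) {L' δ' η : ℝ}

/-- The expected number of records dominates the expected height. -/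
lemma integral_hJ_leU (hG : GapJ ℓ' J L' δ') (N : ℕ) :
    ∫ x, (hJ J x : ℝ) ∂(lawAt ℓ lam ω N) ≤
    ∑ n ∈ Finset.range N, rnJ ℓ lam J ω n := by
  have h1 : ∫ x, (hJ J x : ℝ) ∂(lawAt ℓ lam ω N) =
      ∫ X, (hJ J (X N) : ℝ) ∂(quenched ℓ lam ω) := by
    unfold lawAt
    rw [integral_map (measurable_pi_apply N).aemeasurable
      (measurable_of_countable _).aestronglyMeasurable]
  have h2 : ∑ n ∈ Finset.range N, rnJ ℓ lam J ω n =
      ∫ X, ∑ n ∈ Finset.range N, (recJ J n).indicator (fun _ => (1 : ℝ)) X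
        ∂(quenched ℓ lam ω) := by
    rw [integral_finsetSum _ fun n _ => (integrable_const _).indicator (measurableSet_recJ J n)]
    refine Finset.sum_congr rfl fun n _ => ?_
    rw [integral_indicator_const _ (measurableSet_recJ J n), smul_eq_mul, mul_one, rnJ_eq]
    rfl
  rw [h1, h2]
  refine integral_mono_ae (integrable_hJ ℓ lam ω J N) (integrable_finsetSum _ fun n _ =>
    (integrable_const _).indicator (measurableSet_recJ J n)) ?_
  filter_upwards [ae_step ℓ lam ω, ae_start ℓ lam ω] with X hX h0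
  have h3 : ∀ n, hJ J (X (n + 1)) ≤ hJ J (X n) + 1 := by
    intro n
    rcases hX n with h | ⟨D, -, h⟩
    · rw [h]; omega
    · rw [h, hJ_nbr]
      have := dJ_le_one hG D
      omega
  exact hJ_le_sum J h0 h3 N N le_rfl

lemma drift_hJ_geU (hG : GapJ ℓ' J L' δ')
    (hQ : ∀ x, ¬ Blk J ω x → ∑ D ∈ Jᶜ, sp ℓ lam ω x D ≤ η) (hη0 : 0 ≤ η) (x : Vtx d) :
    1 - 2 * η - 2 * ({x | Blk J ω x} : Set (Vtx d)).indicator (fun _ => (1 : ℝ)) x ≤
      drift ℓ lam ω (fun y => (hJ J y : ℝ)) x := by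
  classical
  rw [drift_eq]
  have e1 : ∀ D, sp ℓ lam ω x D * ((hJ J (nbr x D) : ℝ) - hJ J x) =
      sp ℓ lam ω x D * (dJ J D : ℝ) := by
    intro D
    rw [hJ_nbr]
    push_cast
    ring
  simp_rw [e1]
  by_cases hB : Blk J ω x
  · rw [Set.indicator_of_mem (by exact hB)]
    have h1 : ∑ D, sp ℓ lam ω x D * (-1) ≤ ∑ D, sp ℓ lam ω x D * (dJ J D : ℝ) := by
      refine Finset.sum_le_sum fun D _ => mul_le_mul_of_nonneg_left ?_ (sp_nonneg ..)
      exact_mod_cast neg_one_le_dJ hG D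
    rw [← Finset.sum_mul] at h1
    have h2 := sum_sp_le ℓ lam ω x
    linarith
  · rw [Set.indicator_of_notMem (by exact hB)]
    rw [← Finset.sum_add_sum_compl J]
    have h1 : ∑ D ∈ J, sp ℓ lam ω x D * (dJ J D : ℝ) = pJ ℓ lam ω J x := by
      unfold pJ
      refine Finset.sum_congr rfl fun D hD => ?_
      rw [dJ_mem hG hD]
      simp
    have h2 : ∑ D ∈ Jᶜ, sp ℓ lam ω x D * (-1) ≤ ∑ D ∈ Jᶜ, sp ℓ lam ω x D * (dJ J D : ℝ) := by
      refine Finset.sum_le_sum fun D _ => mul_le_mul_of_nonneg_left ?_ (sp_nonneg ..)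
      exact_mod_cast neg_one_le_dJ hG D
    rw [← Finset.sum_mul] at h2
    have h3 := pJ_add (J := J) (total_ne_zero' (ℓ := ℓ) (lam := lam) hB)
    have h4 := hQ x hB
    rw [h1]
    linarith

/-- There are many records. -/
lemma sum_rnJ_geU (hG : GapJ ℓ' J L' δ')
    (hQ : ∀ x, ¬ Blk J ω x → ∑ D ∈ Jᶜ, sp ℓ lam ω x D ≤ η) (hη0 : 0 ≤ η) (N : ℕ) :
    N * (1 - 2 * η) - 2 * ∑ n ∈ Finset.range N, BJ ℓ lam J ω n ≤
      ∑ n ∈ Finset.range N, rnJ ℓ lam J ω n := by
  refine le_trans ?_ (integral_hJ_leU ℓ lam ω hG N)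
  induction N with
  | zero =>
    rw [lawAt_zero, integral_dirac, hJ_zero]
    simp
  | succ N ih =>
    rw [integral_lawAt_succ, ← integral_lawAt ℓ lam ω N
      (drift ℓ lam ω (fun x => (hJ J x : ℝ))), Finset.sum_range_succ]
    have h2 : ∫ x, (1 - 2 * η - 2 * ({x | Blk J ω x} : Set (Vtx d)).indicator
          (fun _ => (1 : ℝ)) x) ∂(lawAt ℓ lam ω N) ≤
        ∫ x, drift ℓ lam ω (fun x => (hJ J x : ℝ)) x ∂(lawAt ℓ lam ω N) :=
      integral_mono (integrable_lawAt ..) (integrable_lawAt ..) fun x =>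
        drift_hJ_geU ℓ lam ω hG hQ hη0 x
    have i1 : ∀ g : Vtx d → ℝ, Integrable g (lawAt ℓ lam ω N) := integrable_lawAt ℓ lam ω N
    rw [integral_sub (i1 _) (i1 _), integral_const_mul, integral_indicator_lawAt] at h2
    simp only [integral_const, probReal_univ, smul_eq_mul, one_mul] at h2
    have h3 : BJ ℓ lam J ω N = (lawAt ℓ lam ω N).real {x | Blk J ω x} := rfl
    push_cast
    linarith

lemma lawAt_real_sum (n : ℕ) (s : Set (Vtx d)) : (lawAt ℓ lam ω n).real s =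
    ∑ z ∈ box d n, pr ℓ lam ω n z * s.indicator (fun _ => (1 : ℝ)) z := by
  rw [← integral_indicator_lawAt, integral_lawAt, tsum_eq_sum (s := box d n) fun x hx => by
    rw [pr_eq_zero ℓ lam ω hx, zero_mul]]

/-- The effect of the closed edges in directions of `J` in terms of records and fresh edges. -/
lemma integral_psJ_le (hG : GapJ ℓ' J L' δ') {L γ : ℝ} (hγ : 0 ≤ γ)
    (hph : ∀ x, ¬ Blk J ω x → phJ ℓ lam J L x ω ≤ γ * ∑ D ∈ J, cl (edgeTo x D) ω) (n : ℕ) :
    ∫ x, psJ ℓ lam J L x ω ∂(lawAt ℓ lam ω (n + 1)) ≤ rps ℓ lam ω J L n +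
      γ * ∑ D ∈ J, (frK ℓ lam ω {D} n - rK ℓ lam J ω {D} n) +
      γ * J.card * (ZJ ℓ lam J ω (n + 1) + BJ ℓ lam J ω (n + 1)) := by
  classical
  set kS : Fin d × Bool → Set (Vtx d) := fun D =>
    {x | ¬ Blk J ω x ∧ ∀ D' ∈ ({D} : Finset (Fin d × Bool)), edgeTo x D' ∉ ω} with hkS
  set sB : Set (Vtx d) := {x | Blk J ω x} with hsB
  rw [integral_lawAt, tsum_eq_sum (s := box d (n + 1)) fun x hx => by
    rw [pr_eq_zero ℓ lam ω hx, zero_mul]]
  have hpt : ∀ z ∈ box d (n + 1), pr ℓ lam ω (n + 1) z * psJ ℓ lam J L z ω ≤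
      rq ℓ lam ω (fun x => hJ J x < hJ J z) (n + 1) z * psJ ℓ lam J L z ω +
      γ * ∑ D ∈ J, (pr ℓ lam ω (n + 1) z * (kS D).indicator (fun _ => (1 : ℝ)) z -
        rq ℓ lam ω (fun x => hJ J x < hJ J z) (n + 1) z * prK {D} z ω +
        pr ℓ lam ω (n + 1) z * sB.indicator (fun _ => (1 : ℝ)) z) := by
    intro z _
    have hpr : ∀ D, prK {D} z ω = cl (edgeTo z D) ω := by
      intro D
      unfold prK
      rw [Finset.prod_singleton]
    have hrp := rq_le_pr ℓ lam ω (fun x => hJ J x < hJ J z) (n + 1) z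
    have hr0 := rq_nonneg ℓ lam ω (fun x => hJ J x < hJ J z) (n + 1) z
    by_cases hB : Blk J ω z
    · have h1 : psJ ℓ lam J L z ω = 0 := by
        unfold psJ
        rw [if_pos hB]
      rw [h1, mul_zero, mul_zero, zero_add]
      refine mul_nonneg hγ (Finset.sum_nonneg fun D hD => ?_)
      have hk : (kS D).indicator (fun _ => (1 : ℝ)) z = 0 :=
        Set.indicator_of_notMem (fun h => h.1 hB) _
      rw [hk, Set.indicator_of_mem (by exact hB)]
      have h2 := mul_le_of_le_one_right hr0 (prK_le_one ω {D} z)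
      linarith
    · have h1 : psJ ℓ lam J L z ω = phJ ℓ lam J L z ω := by
        unfold psJ
        rw [if_neg hB]
      have hk : ∀ D, (kS D).indicator (fun _ => (1 : ℝ)) z = cl (edgeTo z D) ω := by
        intro D
        unfold cl
        by_cases hD : edgeTo z D ∈ ω
        · rw [if_pos hD, Set.indicator_of_notMem]
          intro h
          exact h.2 D (Finset.mem_singleton_self D) hD
        · rw [if_neg hD, Set.indicator_of_mem]
          refine ⟨hB, fun D' hD' => ?_⟩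
          rw [Finset.mem_singleton.1 hD']
          exact hD
      have hb : sB.indicator (fun _ => (1 : ℝ)) z = 0 := Set.indicator_of_notMem hB _
      rw [h1, hb]
      simp only [hk, hpr, mul_zero, add_zero]
      have h2 : ∑ D ∈ J, (pr ℓ lam ω (n + 1) z * cl (edgeTo z D) ω -
          rq ℓ lam ω (fun x => hJ J x < hJ J z) (n + 1) z * cl (edgeTo z D) ω) =
          (pr ℓ lam ω (n + 1) z - rq ℓ lam ω (fun x => hJ J x < hJ J z) (n + 1) z) *
            ∑ D ∈ J, cl (edgeTo z D) ω := by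
        rw [Finset.mul_sum]
        exact Finset.sum_congr rfl fun D _ => by ring
      rw [h2]
      have h3 := mul_le_mul_of_nonneg_left (hph z hB) (sub_nonneg.2 hrp)
      linarith
  refine (Finset.sum_le_sum hpt).trans ?_
  rw [Finset.sum_add_distrib, ← Finset.mul_sum, Finset.sum_comm]
  have e1 : ∀ D ∈ J, ∑ z ∈ box d (n + 1),
      (pr ℓ lam ω (n + 1) z * (kS D).indicator (fun _ => (1 : ℝ)) z -
        rq ℓ lam ω (fun x => hJ J x < hJ J z) (n + 1) z * prK {D} z ω +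
        pr ℓ lam ω (n + 1) z * sB.indicator (fun _ => (1 : ℝ)) z) ≤
      (frK ℓ lam ω {D} n - rK ℓ lam J ω {D} n) +
        (ZJ ℓ lam J ω (n + 1) + BJ ℓ lam J ω (n + 1)) := by
    intro D _
    rw [Finset.sum_add_distrib, Finset.sum_sub_distrib, ← lawAt_real_sum, ← lawAt_real_sum]
    have h1 : (lawAt ℓ lam ω (n + 1)).real (kS D) = kK ℓ lam J ω {D} (n + 1) := rfl
    have h2 : (lawAt ℓ lam ω (n + 1)).real sB = BJ ℓ lam J ω (n + 1) := rfl
    have h3 : ∑ z ∈ box d (n + 1), rq ℓ lam ω (fun x => hJ J x < hJ J z) (n + 1) z *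
        prK {D} z ω = rK ℓ lam J ω {D} n := rfl
    rw [h1, h2, h3]
    have := kK_le_frKU ℓ lam ω hG {D} n
    linarith
  have e2 := mul_le_mul_of_nonneg_left (Finset.sum_le_sum e1) hγ
  rw [Finset.sum_add_distrib, Finset.sum_const, nsmul_eq_mul] at e2
  have e3 : rps ℓ lam ω J L n = ∑ z ∈ box d (n + 1),
    rq ℓ lam ω (fun x => hJ J x < hJ J z) (n + 1) z * psJ ℓ lam J L z ω := rfl
  rw [e3]
  linarith

end Pool.Agent.P2ec0u
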