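import Pool.Agent.Lib.P2ec0u.FinU2

/-!
# The comparison of the speeds, uniformly in the direction
-/

open MeasureTheory ProbabilityTheory Filter Topology Function
open scoped unitInterval ENNReal

namespace Pool.Agent.P2ec0u

open Pool.Agent.P2ec0f3 Pool.Agent.P2ec0g Pool.Agent.P2ec0h

variable {d : ℕ} {ℓ : Fin d → ℝ} {lam : ℝ} {J : Finset (Fin d × Bool)} {L γ δ : ℝ}

/-- A lower bound for the total relative loss. -/
lemma RU_ge (hG : GapU ℓ J L γ δ) (hlam : 0 < lam) (hL : 1 / (d : ℝ) ≤ L)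
    (hL1 : L ≤ 1) : 2 / (d : ℝ) * Real.exp (-(2 * lam)) ≤ RJ ℓ lam J L := by
  obtain ⟨F, hF, hFL⟩ := hG.top
  have h1 := oppU hG hF
  have h2 : (F.1, !F.2) ∈ Jᶜ := Finset.mem_compl.2 h1
  have h3 : rhoJ ℓ lam L (F.1, !F.2) ≤ RJ ℓ lam J L :=
    Finset.single_le_sum (f := fun D => rhoJ ℓ lam L D) (fun D _ => rhoU_nonneg hG D) h2
  refine le_trans ?_ h3
  unfold rhoJ wJ
  rw [gain_opp, hFL]
  have h4 : 2 / (d : ℝ) ≤ L - -L := by
    have : 2 / (d : ℝ) = 2 * (1 / d) := by ring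
    rw [this]
    linarith
  have h5 : Real.exp (-(2 * lam)) ≤ Real.exp (-(lam * (L - -L))) := by
    refine Real.exp_le_exp.2 ?_
    have := mul_le_mul_of_nonneg_left hL1 hlam.le
    linarith
  exact mul_le_mul h4 h5 (Real.exp_pos _).le (by
    have : (0 : ℝ) ≤ 2 / (d : ℝ) := by positivity
    linarith)

/-- The comparison for one pair of scales. -/
lemma scale_speed {s sg u : ℝ} (hd : 2 ≤ d) (hG : GapU ℓ J L γ δ) (hlam : 0 < lam)
    (hs : lam * γ = s) (hsg : lam * δ = sg) (hsc : Scale0 d s sg)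
    (hu : u = Real.exp (-s) / (1000 * (d : ℝ) ^ 4))
    {p : I} (hp : criticalParam d < p) {v v₁ : Fin d → ℝ} (hv : IsVelocity ℓ lam p v)
    (hv₁ : IsVelocity ℓ lam 1 v₁) :
    ∑ j, v j * ℓ j + u * RJ ℓ lam J L * (1 - (p : ℝ)) ≤ ∑ j, v₁ j * ℓ j := by
  have hfs : ∑ j, v₁ j * ℓ j = fs ℓ lam := speed_full (lt_of_lt_of_le hp p.2.2) hv₁
  have hp0 : 0 ≤ 1 - (p : ℝ) := by linarith [p.2.2]
  by_cases hm : 2 ≤ J.card
  · rw [hfs]
    rcases le_total u (1 - (p : ℝ)) with h | h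
    · have := conclU1 hd hG hlam hs hsg hsc hm hu hp hv h
      linarith
    · have := conclU2 hd hG hlam hs hsg hsc hm hu hp hv h
      linarith
  · obtain ⟨hu0, hu1, hE, ht0, ht1, hR, hW, hγ, hes, htu⟩ :=
      basicsU hd hG hlam hs hsg hsc hu rfl
    have hD2 : (2 : ℝ) ≤ d := by exact_mod_cast hd
    have hδ := hG.pos
    have hR0 := RU_pos (lam := lam) hG
    obtain ⟨F, hF, hFL⟩ := hG.top
    have hcard : J.card = 1 := by
      have := Finset.card_pos.2 ⟨F, hF⟩
      omega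
    obtain ⟨F', hF'⟩ := Finset.card_eq_one.1 hcard
    have hFF : F = F' := by
      rw [hF'] at hF
      exact Finset.mem_singleton.1 hF
    have hGap : Gap ℓ F δ := by
      refine ⟨hδ, fun D hD => ?_, ?_⟩
      · rw [hFL]
        refine hG.gap D ?_
        rw [hF', ← hFF]
        simpa using hD
      · rw [hFL]
        exact hG.le
    have hD4 : (16 : ℝ) ≤ (d : ℝ) ^ 4 := by
      calc (16 : ℝ) = 2 ^ 4 := by norm_num
        _ ≤ (d : ℝ) ^ 4 := pow_le_pow_left₀ (by norm_num) hD2 4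
    have hD24 : (d : ℝ) ^ 2 ≤ (d : ℝ) ^ 4 :=
      pow_le_pow_right₀ (by linarith) (by norm_num)
    have hD14 : (d : ℝ) ≤ (d : ℝ) ^ 4 := by
      calc (d : ℝ) = (d : ℝ) ^ 1 := (pow_one _).symm
        _ ≤ (d : ℝ) ^ 4 := pow_le_pow_right₀ (by linarith) (by norm_num)
    have hu3 : u ≤ 1 := by
      have : 1 * u ≤ 1000 * (d : ℝ) ^ 4 * u :=
        mul_le_mul_of_nonneg_right (by linarith) hu0.le
      linarith
    set t := u ^ (2 * d + 1) with ht
    have hT : u * t ≤ u := by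
      have : t ≤ 1 := pow_le_one₀ hu0.le hu3
      exact mul_le_of_le_one_right hu0.le this
    have hexp : 30 * (d : ℝ) ^ 2 ≤ Real.exp (lam * δ) := by
      have h1 : Real.exp (-(lam * δ)) ≤ u := by
        rw [hsg]
        refine hsc.eps.trans ?_
        rw [← hu]
        have : u ^ (2 * d + 2) = u * t := by rw [ht, ← pow_succ']
        rw [this]
        exact hT
      have h2 : Real.exp (lam * δ) * Real.exp (-(lam * δ)) = 1 := by
        rw [← Real.exp_add]; simp
      have h3 : Real.exp (lam * δ) * Real.exp (-(lam * δ)) ≤ Real.exp (lam * δ) * u :=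
        mul_le_mul_of_nonneg_left h1 (Real.exp_pos _).le
      have h4 : 30 * (d : ℝ) ^ 2 * u ≤ 1000 * (d : ℝ) ^ 4 * u :=
        mul_le_mul_of_nonneg_right (by linarith) hu0.le
      have h5 : 30 * (d : ℝ) ^ 2 * u ≤ Real.exp (lam * δ) * u := by linarith
      exact le_of_mul_le_mul_right h5 hu0
    have h1 := strong_speed hd hGap hexp hp hv hv₁
    have h2 : u * RJ ℓ lam J L ≤ δ / 8 := by
      have h3 : 2 * d * (u * t) * δ ≤ 1 / 8 * δ := by
        refine mul_le_mul_of_nonneg_right ?_ hδ.le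
        have h4 : (d : ℝ) * (u * t) ≤ (d : ℝ) ^ 4 * u :=
          mul_le_mul hD14 hT (by positivity) (by positivity)
        linarith
      have h5 : u * RJ ℓ lam J L ≤ 1 * RJ ℓ lam J L := mul_le_mul_of_nonneg_right hu3 hR0.le
      linarith
    have h3 := mul_le_mul_of_nonneg_right h2 hp0
    linarith

end Pool.Agent.P2ec0u
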